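import Mathlib
import Pool.Agent.R389.Sol

/-!
# Artin induction and permutation characters
-/

set_option autoImplicit false
set_option linter.unusedSectionVars false

namespace Pool.Agent.K4H36.ST

open Pool.Agent.R389 MulAction

variable {G : Type} [Group G] [Finite G]

/-- the contribution of a subgroup to Artin's induction formula for the class function `f` -/
noncomputable def EE (f : G → ℂ) (C : Subgroup G) : G → ℂ :=
  fun g => (Nat.card {x : G // Subgroup.zpowers (x⁻¹ * g * x) = C} : ℂ) * f g

lemma EE_cyclic {f : G → ℂ} {C : Subgroup G} (h : ∀ c, Subgroup.zpowers c ≠ C) : EE f C = 0 := by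
  funext g
  have : IsEmpty {x : G // Subgroup.zpowers (x⁻¹ * g * x) = C} := ⟨fun x => h _ x.2⟩
  rw [EE, Nat.card_of_isEmpty, Nat.cast_zero, zero_mul]
  rfl

/-- **Artin's identity.** -/
lemma sum_EE [Fintype (Subgroup G)] [DecidableEq (Subgroup G)] [DecidableLE (Subgroup G)]
    {f : G → ℂ} (hf : ∀ g x : G, f (x * g * x⁻¹) = f g) (C : Subgroup G) :
    ∑ B ∈ Finset.univ.filter (fun B => B ≤ C), EE f B
      = Nat.card C • ind C (fun h => f h) := by
  classical
  have : Fintype G := Fintype.ofFinite G
  funext g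
  have hc : (Nat.card C : ℂ) ≠ 0 := by exact_mod_cast Nat.card_pos.ne'
  rw [Finset.sum_apply, Pi.smul_apply, nsmul_eq_mul, ind_eq, ← mul_assoc, mul_inv_cancel₀ hc,
    one_mul]
  have h1 : ∀ x : G, ext C (fun h => f h) (x⁻¹ * g * x)
      = if Subgroup.zpowers (x⁻¹ * g * x) ≤ C then f g else 0 := by
    intro x
    by_cases h : x⁻¹ * g * x ∈ C
    · rw [ext_mem _ _ h, if_pos (by rwa [Subgroup.zpowers_le])]
      have := hf g x⁻¹
      rwa [inv_inv] at this
    · rw [ext_not _ _ h, if_neg (by rwa [Subgroup.zpowers_le])]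
  rw [Finset.sum_congr rfl (fun x _ => h1 x), ← Finset.sum_filter, Finset.sum_const, nsmul_eq_mul]
  have h2 : ∀ B : Subgroup G, EE f B g
      = ((Finset.univ.filter (fun x : G => Subgroup.zpowers (x⁻¹ * g * x) = B)).card : ℂ) * f g := by
    intro B
    rw [EE, Nat.card_eq_fintype_card, Fintype.card_subtype]
  rw [Finset.sum_congr rfl (fun B _ => h2 B), ← Finset.sum_mul, ← Nat.cast_sum]
  congr 2
  rw [Finset.card_eq_sum_card_fiberwise (f := fun x : G => Subgroup.zpowers (x⁻¹ * g * x))
    (t := Finset.univ.filter (fun B => B ≤ C))]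
  · refine Finset.sum_congr rfl fun B hB => ?_
    congr 1
    ext x
    simp only [Finset.mem_filter, Finset.mem_univ, true_and] at hB ⊢
    constructor
    · intro h
      exact ⟨h ▸ hB, h⟩
    · intro h
      exact h.2
  · intro x hx
    simpa using hx

/-- the contributions are integral combinations of induced characters -/
lemma EE_mem {f : G → ℂ} (hf : ∀ g x : G, f (x * g * x⁻¹) = f g) (S : AddSubgroup (G → ℂ)) :
    ∀ (C : Subgroup G), (∀ B ≤ C, ind B (fun h => f h) ∈ S) → EE f C ∈ S := by
  classical
  have : Fintype (Subgroup G) := Fintype.ofFinite _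
  intro C
  induction C using WellFoundedLT.induction with
  | ind C ih =>
    intro hC
    have h1 := sum_EE hf C
    have h2 : Finset.univ.filter (fun B => B ≤ C)
        = insert C (Finset.univ.filter (fun B => B < C)) := by
      ext B
      simp only [Finset.mem_filter, Finset.mem_univ, true_and, Finset.mem_insert]
      exact le_iff_eq_or_lt
    rw [h2, Finset.sum_insert (by simp)] at h1
    have h3 : EE f C = Nat.card C • ind C (fun h => f h)
        - ∑ B ∈ Finset.univ.filter (fun B => B < C), EE f B := by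
      rw [← h1]
      abel
    rw [h3]
    refine sub_mem (nsmul_mem (hC C le_rfl) _) (sum_mem fun B hB => ?_)
    simp only [Finset.mem_filter, Finset.mem_univ, true_and] at hB
    exact ih B hB (fun B' hB' => hC B' (hB'.trans hB.le))

/-- **Artin's induction theorem**: membership of a multiple of a class function. -/
lemma artin {f : G → ℂ} (hf : ∀ g x : G, f (x * g * x⁻¹) = f g) (S : AddSubgroup (G → ℂ))
    (hS : ∀ c : G, EE f (Subgroup.zpowers c) ∈ S) : Nat.card G • f ∈ S := by
  classical
  have : Fintype (Subgroup G) := Fintype.ofFinite _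
  have h1 := sum_EE hf (⊤ : Subgroup G)
  have h2 : Nat.card (⊤ : Subgroup G) • ind (⊤ : Subgroup G) (fun h => f h) = Nat.card G • f := by
    rw [Subgroup.card_top]
    congr 1
    funext g
    have : Fintype G := Fintype.ofFinite G
    rw [ind_eq, Subgroup.card_top]
    have h3 : ∀ x : G, ext (⊤ : Subgroup G) (fun h => f h) (x⁻¹ * g * x) = f g := by
      intro x
      rw [ext_mem _ _ (Subgroup.mem_top _)]
      have := hf g x⁻¹
      rwa [inv_inv] at this
    rw [Finset.sum_congr rfl (fun x _ => h3 x), Finset.sum_const, Finset.card_univ, nsmul_eq_mul,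
      ← mul_assoc, Nat.card_eq_fintype_card, inv_mul_cancel₀, one_mul]
    exact_mod_cast Fintype.card_ne_zero
  rw [← h2, ← h1]
  refine sum_mem fun B _ => ?_
  by_cases hB : ∃ c, Subgroup.zpowers c = B
  · obtain ⟨c, rfl⟩ := hB
    exact hS c
  · push Not at hB
    rw [EE_cyclic hB]
    exact zero_mem S

/-- a class function which takes one integral value on the generators of `C` -/
lemma EE_const {f : G → ℂ} (hf : ∀ g x : G, f (x * g * x⁻¹) = f g) {C : Subgroup G} {n : ℤ}
    (h : ∀ c, Subgroup.zpowers c = C → f c = n) : EE f C = n • EE (fun _ => 1) C := by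
  funext g
  rw [Pi.smul_apply, zsmul_eq_mul]
  unfold EE
  by_cases hg : ∃ x : G, Subgroup.zpowers (x⁻¹ * g * x) = C
  · obtain ⟨x, hx⟩ := hg
    have h1 := h _ hx
    have h2 := hf g x⁻¹
    rw [inv_inv] at h2
    rw [h2] at h1
    rw [h1]
    ring
  · push Not at hg
    have : IsEmpty {x : G // Subgroup.zpowers (x⁻¹ * g * x) = C} := ⟨fun x => hg _ x.2⟩
    rw [Nat.card_of_isEmpty]
    simp

section perm

variable (G) in
/-- the number of fixed points -/
noncomputable def fixn (X : Type) [MulAction G X] (g : G) : ℂ := (Nat.card {x : X // g • x = x} : ℂ)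

/-- the decomposition of a permutation character into orbits -/
lemma fixn_eq (X : Type) [MulAction G X] [Finite X] [Fintype (Quotient (orbitRel G X))] :
    fixn G X = ∑ ω : Quotient (orbitRel G X), ind (stabilizer G ω.out) (fun _ => (1 : ℂ)) := by
  classical
  have : Fintype G := Fintype.ofFinite _
  have : Fintype X := Fintype.ofFinite _
  let mk : X → Quotient (orbitRel G X) := Quotient.mk _
  funext g
  rw [Finset.sum_apply]
  have h2 : fixn G X g = ∑ x : X, if g • x = x then (1 : ℂ) else 0 := by
    rw [fixn, ← Finset.sum_filter, Finset.sum_const, nsmul_eq_mul, mul_one,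
      Nat.card_eq_fintype_card, Fintype.card_subtype]
  rw [h2, ← Finset.sum_fiberwise_of_maps_to (s := Finset.univ) (t := Finset.univ)
    (g := mk) (fun _ _ => Finset.mem_univ _)]
  refine Finset.sum_congr rfl fun ω _ => ?_
  rw [ind_eq]
  have h3 : ∀ y : G, ext (stabilizer G ω.out) (fun _ => (1 : ℂ)) (y⁻¹ * g * y)
      = (fun x : X => if g • x = x then (1 : ℂ) else 0) (y • ω.out) := by
    intro y
    have h4 : y⁻¹ * g * y ∈ stabilizer G ω.out ↔ g • y • ω.out = y • ω.out := by
      rw [mem_stabilizer_iff, mul_smul, mul_smul, inv_smul_eq_iff]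
    simp only
    by_cases h : y⁻¹ * g * y ∈ stabilizer G ω.out
    · rw [ext_mem _ _ h, if_pos (h4.mp h)]
    · rw [ext_not _ _ h, if_neg (fun h' => h (h4.mpr h'))]
  rw [Finset.sum_congr rfl (fun y _ => h3 y)]
  have hmk : ∀ y : G, mk (y • ω.out) = ω := by
    intro y
    have h5 : mk (y • ω.out) = mk ω.out := Quotient.sound (orbitRel_apply.mpr ⟨y, rfl⟩)
    rw [h5]; exact Quotient.out_eq ω
  rw [← Finset.sum_fiberwise_of_maps_to (s := (Finset.univ : Finset G))
    (t := Finset.univ.filter (fun x => mk x = ω)) (g := fun y => y • ω.out)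
    (fun y _ => Finset.mem_filter.mpr ⟨Finset.mem_univ _, hmk y⟩), Finset.mul_sum]
  refine Finset.sum_congr rfl fun x hx => ?_
  have hx1 : mk x = mk ω.out := by
    rw [(Finset.mem_filter.mp hx).2]; exact (Quotient.out_eq ω).symm
  obtain ⟨z, hz⟩ := orbitRel_apply.mp (Quotient.exact hx1)
  simp only at hz
  rw [Finset.sum_congr rfl (g := fun _ => if g • x = x then (1 : ℂ) else 0)
    (fun y hy => by rw [(Finset.mem_filter.mp hy).2]), Finset.sum_const, nsmul_eq_mul]
  have hcard : (Finset.univ.filter (fun y : G => y • ω.out = x)).card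
      = Nat.card (stabilizer G ω.out) := by
    rw [← Fintype.card_subtype, ← Nat.card_eq_fintype_card]
    refine Nat.card_congr ⟨fun y => ⟨z⁻¹ * y, ?_⟩, fun s => ⟨z * s, ?_⟩, ?_, ?_⟩
    · rw [mem_stabilizer_iff, mul_smul, y.2, ← hz, inv_smul_smul]
    · rw [mul_smul, mem_stabilizer_iff.mp s.2, hz]
    · intro y; apply Subtype.ext; simp
    · intro s; apply Subtype.ext; simp
  have hne : (Nat.card (stabilizer G ω.out) : ℂ) ≠ 0 := by exact_mod_cast Nat.card_pos.ne'
  rw [hcard, ← mul_assoc, inv_mul_cancel₀ hne, one_mul]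

/-- the product of a class function with a permutation character -/
lemma mul_fixn_mem {f : G → ℂ} (hf : ∀ g x : G, f (x * g * x⁻¹) = f g) (S : AddSubgroup (G → ℂ))
    (X : Type) [MulAction G X] [Finite X] (h : ∀ x : X, ind (stabilizer G x) (fun h => f h) ∈ S) :
    (fun g => f g * fixn G X g) ∈ S := by
  classical
  have : Fintype (Quotient (orbitRel G X)) := Fintype.ofFinite _
  have h1 : (fun g => f g * fixn G X g)
      = ∑ ω : Quotient (orbitRel G X), ind (stabilizer G ω.out) (fun h => f h) := by
    funext g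
    rw [fixn_eq, Finset.sum_apply, Finset.sum_apply, Finset.mul_sum]
    refine Finset.sum_congr rfl fun ω _ => ?_
    rw [mul_comm, ← ind_mul _ (fun _ => (1 : ℂ)) hf g]
    simp only [one_mul]
  rw [h1]
  exact sum_mem fun ω _ => h _

end perm

end Pool.Agent.K4H36.ST
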