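import Mathlib

/-!
# Local divisibility in Dedekind domains, approximation by invariant elements
-/

set_option autoImplicit false
set_option linter.unusedSectionVars false

namespace Pool.Agent.K4H36.ST

open Pointwise

/-- `c` divides `x` in the localisation at `Q` -/
def LDvd {R : Type} [CommRing R] (Q : Ideal R) (c x : R) : Prop := ∃ s, s ∉ Q ∧ c ∣ s * x

section basic

variable {R : Type} [CommRing R] {Q : Ideal R} [hQ : Q.IsPrime] {c x y : R}

lemma LDvd.of_dvd (h : c ∣ x) : LDvd Q c x :=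
  ⟨1, fun h1 => hQ.ne_top ((Ideal.eq_top_iff_one Q).mpr h1), by rwa [one_mul]⟩

lemma LDvd.zero : LDvd Q c 0 := LDvd.of_dvd (dvd_zero c)

lemma LDvd.add (h : LDvd Q c x) (h' : LDvd Q c y) : LDvd Q c (x + y) := by
  obtain ⟨s, hs, h⟩ := h
  obtain ⟨t, ht, h'⟩ := h'
  refine ⟨s * t, fun h1 => (hQ.mem_or_mem h1).elim hs ht, ?_⟩
  have : s * t * (x + y) = t * (s * x) + s * (t * y) := by ring
  rw [this]
  exact dvd_add (h.mul_left t) (h'.mul_left s)

lemma LDvd.neg (h : LDvd Q c x) : LDvd Q c (-x) := by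
  obtain ⟨s, hs, h⟩ := h
  refine ⟨s, hs, ?_⟩
  rw [mul_neg]
  exact (dvd_neg).mpr h

lemma LDvd.sub (h : LDvd Q c x) (h' : LDvd Q c y) : LDvd Q c (x - y) := by
  rw [sub_eq_add_neg]
  exact h.add h'.neg

lemma LDvd.mul_left (h : LDvd Q c x) (y : R) : LDvd Q c (y * x) := by
  obtain ⟨s, hs, h⟩ := h
  refine ⟨s, hs, ?_⟩
  have : s * (y * x) = y * (s * x) := by ring
  rw [this]
  exact h.mul_left y

lemma LDvd.mul_right (h : LDvd Q c x) (y : R) : LDvd Q c (x * y) := by
  rw [mul_comm]
  exact h.mul_left y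

lemma LDvd.sum {ι : Type} (s : Finset ι) (f : ι → R) (h : ∀ i ∈ s, LDvd Q c (f i)) :
    LDvd Q c (∑ i ∈ s, f i) :=
  Finset.sum_induction f (LDvd Q c) (fun _ _ ha hb => ha.add hb) LDvd.zero h

lemma LDvd.prod_sub_one {ι : Type} (s : Finset ι) (f : ι → R)
    (h : ∀ i ∈ s, LDvd Q c (f i - 1)) : LDvd Q c (∏ i ∈ s, f i - 1) := by
  refine Finset.prod_induction f (fun z => LDvd Q c (z - 1)) (fun a b ha hb => ?_) ?_ h
  · have : a * b - 1 = (a - 1) * b + (b - 1) := by ring
    rw [this]
    exact (ha.mul_right b).add hb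
  · rw [sub_self]
    exact LDvd.zero

end basic

section action

variable {R : Type} [CommRing R] {Q : Ideal R} {c x : R} {G : Type} [Group G]
  [MulSemiringAction G R]

lemma LDvd.smul (g : G) (hc : g • c = c) (h : LDvd Q c x) : LDvd (g • Q) c (g • x) := by
  obtain ⟨s, hs, t, ht⟩ := h
  refine ⟨g • s, fun h1 => hs (Ideal.smul_mem_pointwise_smul_iff.mp h1), g • t, ?_⟩
  rw [← smul_mul', ht, smul_mul', hc]

end action

section dedekind

variable {R : Type} [CommRing R] [IsDedekindDomain R] {Q : Ideal R}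
  [hQ : Q.IsPrime]

lemma ldvd_cases (hQ0 : Q ≠ ⊥) (c x : R) :
    LDvd Q c x ∨ ∃ s, s ∉ Q ∧ ∃ b ∈ Q, s * c = x * b := by
  let S := Localization.AtPrime Q
  have hdvr : IsDiscreteValuationRing S :=
    IsLocalization.AtPrime.isDiscreteValuationRing_of_dedekind_domain R hQ0 S
  have hinj : Function.Injective (algebraMap R S) :=
    IsLocalization.injective S (Ideal.primeCompl_le_nonZeroDivisors Q)
  rcases ValuationRing.dvd_total (algebraMap R S c) (algebraMap R S x) with ⟨z, hz⟩ | ⟨z, hz⟩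
  · obtain ⟨⟨t, s⟩, hts⟩ := IsLocalization.mk'_surjective Q.primeCompl z
    left
    refine ⟨s, s.2, t, ?_⟩
    apply hinj
    have h1 : z * algebraMap R S s = algebraMap R S t := by
      rw [← hts]
      exact IsLocalization.mk'_spec S t s
    rw [map_mul, map_mul, hz, ← h1]
    ring
  · obtain ⟨⟨t, s⟩, hts⟩ := IsLocalization.mk'_surjective Q.primeCompl z
    have h1 : z * algebraMap R S s = algebraMap R S t := by
      rw [← hts]
      exact IsLocalization.mk'_spec S t s
    have h2 : s * c = x * t := by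
      apply hinj
      rw [map_mul, map_mul, hz, ← h1]
      ring
    by_cases ht : t ∈ Q
    · right
      exact ⟨s, s.2, t, ht, h2⟩
    · left
      refine ⟨t, ht, s, ?_⟩
      rw [mul_comm t, ← h2, mul_comm]

lemma ldvd_mprod (hQ0 : Q ≠ ⊥) {c : R} (hc : c ≠ 0) (m : Multiset R) (hm : m ≠ 0)
    (h : LDvd Q (c ^ Multiset.card m) m.prod) : ∃ x ∈ m, LDvd Q c x := by
  by_contra hcon
  push Not at hcon
  have h1 : ∀ m : Multiset R, (∀ x ∈ m, ¬ LDvd Q c x) →
      ∃ s, s ∉ Q ∧ ∃ b, (m ≠ 0 → b ∈ Q) ∧ s * c ^ Multiset.card m = m.prod * b := by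
    intro m
    induction m using Multiset.induction_on with
    | empty =>
      intro _
      exact ⟨1, fun h1 => hQ.ne_top ((Ideal.eq_top_iff_one Q).mpr h1), 1,
        fun h => absurd rfl h, by simp⟩
    | cons a m ih =>
      intro h2
      obtain ⟨s, hs, b, -, hb⟩ := ih (fun x hx => h2 x (Multiset.mem_cons_of_mem hx))
      obtain ⟨t, ht, d, hd, htd⟩ := (ldvd_cases hQ0 c a).resolve_left
        (h2 a (Multiset.mem_cons_self a m))
      refine ⟨s * t, fun h1 => (hQ.mem_or_mem h1).elim hs ht, b * d,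
        fun _ => Ideal.mul_mem_left _ _ hd, ?_⟩
      rw [Multiset.card_cons, Multiset.prod_cons, pow_succ]
      linear_combination (t * c) * hb + m.prod * b * htd
  obtain ⟨s, hs, b, hb, hsb⟩ := h1 m hcon
  obtain ⟨t, ht, e, he⟩ := h
  have hcn : c ^ Multiset.card m ≠ 0 := pow_ne_zero _ hc
  have h2 : t * s = e * b := by
    apply mul_left_cancel₀ hcn
    linear_combination t * hsb + b * he
  have h3 : t * s ∈ Q := by
    rw [h2]
    exact Ideal.mul_mem_left _ _ (hb hm)
  exact (hQ.mem_or_mem h3).elim ht hs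

/-- large powers of `Q` are locally divisible by `c` -/
lemma exists_pow_ldvd (hQ0 : Q ≠ ⊥) {c : R} (hc : c ≠ 0) : ∃ k : ℕ, ∀ x ∈ Q ^ k, LDvd Q c x := by
  classical
  have hmax : Q.IsMaximal := hQ.isMaximal hQ0
  have h0 : Ideal.span {c} ≠ (0 : Ideal R) := by
    rw [Ne, Ideal.zero_eq_bot, Ideal.span_singleton_eq_bot]
    exact hc
  have hnu : ¬ IsUnit Q := by
    rw [Ideal.isUnit_iff]
    exact hQ.ne_top
  obtain ⟨J, hJ, hJ2⟩ := (FiniteMultiplicity.of_not_isUnit hnu h0).exists_eq_pow_mul_and_not_dvd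
  refine ⟨multiplicity Q (Ideal.span {c}), fun x hx => ?_⟩
  rw [Ideal.dvd_iff_le] at hJ2
  obtain ⟨s, hs, hsQ⟩ := Set.not_subset.mp hJ2
  refine ⟨s, hsQ, ?_⟩
  rw [← Ideal.mem_span_singleton, hJ, mul_comm s]
  exact Ideal.mul_mem_mul hx hs

end dedekind

section crt

variable {R G ι : Type} [CommRing R] [IsDedekindDomain R]
  [Group G] [Finite G] [MulSemiringAction G R] [Finite ι]

/-- an idempotent-like element, fixed by the decomposition group of `w i` -/
lemma exists_idem (w : ι → Ideal R) (hw : ∀ i, (w i).IsPrime) (hw0 : ∀ i, w i ≠ ⊥) {c : R}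
    (hc : c ≠ 0) (hcG : ∀ g : G, g • c = c) (i : ι) :
    ∃ e : R, (∀ g ∈ MulAction.stabilizer G (w i), g • e = e) ∧ LDvd (w i) c (e - 1) ∧
      ∀ (j : ι) (g : G), g • w j ≠ w i → LDvd (g • w j) c e := by
  classical
  have : Fintype G := Fintype.ofFinite G
  have hgp : ∀ (j : ι) (g : G), (g • w j).IsPrime := fun j g => by
    have := hw j
    exact Ideal.IsPrime.smul g
  have hg0 : ∀ (j : ι) (g : G), g • w j ≠ ⊥ := fun j g h => by
    apply hw0 j
    have h1 : w j = g⁻¹ • (⊥ : Ideal R) := by rw [← h, inv_smul_smul]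
    rw [h1]
    exact Ideal.smul_bot g⁻¹
  let W : Set (Ideal R) := Set.range (fun z : ι × G => z.2 • w z.1)
  have hWfin : Finite W := Set.finite_range _
  have hWp : ∀ P : W, (P : Ideal R).IsPrime := by
    rintro ⟨_, ⟨j, g⟩, rfl⟩
    exact hgp j g
  have hW0 : ∀ P : W, (P : Ideal R) ≠ ⊥ := by
    rintro ⟨_, ⟨j, g⟩, rfl⟩
    exact hg0 j g
  have hk : ∀ P : W, ∃ k : ℕ, ∀ x ∈ (P : Ideal R) ^ k, LDvd (P : Ideal R) c x := fun P => by
    have := hWp P
    exact exists_pow_ldvd (hW0 P) hc
  choose k hk using hk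
  have hcop : Pairwise (Function.onFun IsCoprime (fun P : W => (P : Ideal R) ^ k P)) := by
    intro P P' hne
    apply IsCoprime.pow
    have h1 := (hWp P).isMaximal (hW0 P)
    have h2 := (hWp P').isMaximal (hW0 P')
    rw [Ideal.isCoprime_iff_sup_eq]
    exact Ideal.IsMaximal.coprime_of_ne h1 h2 (fun h => hne (Subtype.ext h))
  obtain ⟨e₀, he₀⟩ := Ideal.exists_forall_sub_mem_ideal hcop
    (fun P => if (P : Ideal R) = w i then 1 else 0)
  let D : Finset G := Finset.univ.filter (fun g => g ∈ MulAction.stabilizer G (w i))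
  refine ⟨∏ g ∈ D, g • e₀, ?_, ?_, ?_⟩
  · intro g hg
    rw [Finset.smul_prod']
    refine Finset.prod_bij (fun h _ => g * h) ?_ ?_ ?_ ?_
    · intro h hh
      simp only [D, Finset.mem_filter, Finset.mem_univ, true_and] at hh ⊢
      exact mul_mem hg hh
    · intro a _ b _ hab
      exact mul_left_cancel hab
    · intro b hb
      simp only [D, Finset.mem_filter, Finset.mem_univ, true_and] at hb
      refine ⟨g⁻¹ * b, ?_, ?_⟩
      · simp only [D, Finset.mem_filter, Finset.mem_univ, true_and]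
        exact mul_mem (inv_mem hg) hb
      · group
    · intro a _
      rw [mul_smul]
  · have := hw i
    apply LDvd.prod_sub_one
    intro g hg
    simp only [D, Finset.mem_filter, Finset.mem_univ, true_and, MulAction.mem_stabilizer_iff] at hg
    have h1 := he₀ ⟨w i, ⟨i, 1⟩, by simp⟩
    rw [if_pos rfl] at h1
    have h2 := (hk _ _ h1).smul g (hcG g)
    change LDvd (g • w i) c _ at h2
    rw [hg, smul_sub, smul_one] at h2
    exact h2
  · intro j g hne
    have := hgp j g
    have h1 := he₀ ⟨g • w j, ⟨j, g⟩, rfl⟩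
    rw [if_neg hne, sub_zero] at h1
    have h2 := hk _ _ h1
    have hone : (1 : G) ∈ D := by
      simp only [D, Finset.mem_filter, Finset.mem_univ, true_and]
      exact one_mem _
    rw [← Finset.mul_prod_erase D _ hone, one_smul]
    exact h2.mul_right _

/-- **Approximation by invariant elements.** -/
theorem crt (w : ι → Ideal R) (hw : ∀ i, (w i).IsPrime) (hw0 : ∀ i, w i ≠ ⊥)
    (hne : ∀ i j, i ≠ j → ∀ g : G, g • w j ≠ w i) {c : R}
    (hc : c ≠ 0) (hcG : ∀ g : G, g • c = c) (a : ι → R)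
    (ha : ∀ i, ∀ g ∈ MulAction.stabilizer G (w i), g • a i = a i) :
    ∃ b : R, (∀ g : G, g • b = b) ∧ ∀ i, LDvd (w i) c (b - a i) := by
  classical
  have : Fintype ι := Fintype.ofFinite ι
  have : Fintype G := Fintype.ofFinite G
  choose e he1 he2 he3 using exists_idem (G := G) w hw hw0 hc hcG
  -- the function on the cosets
  let D : ι → Subgroup G := fun i => MulAction.stabilizer G (w i)
  have hf : ∀ (i : ι) (g h : G), g⁻¹ * h ∈ D i → g • (e i * a i) = h • (e i * a i) := by
    intro i g h hgh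
    have h1 : (g⁻¹ * h) • (e i * a i) = e i * a i := by
      rw [smul_mul', he1 i _ hgh, ha i _ hgh]
    rw [mul_smul, inv_smul_eq_iff] at h1
    exact h1.symm
  let f : ∀ i, G ⧸ D i → R := fun i q => Quotient.liftOn' q (fun g => g • (e i * a i))
    (fun g h hgh => hf i g h (QuotientGroup.leftRel_apply.mp hgh))
  have hfmk : ∀ (i : ι) (g : G), f i (g : G ⧸ D i) = g • (e i * a i) := fun i g => rfl
  have hfq : ∀ (i : ι) (g : G) (q : G ⧸ D i), g • f i q = f i (g • q) := by
    intro i g q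
    induction q using QuotientGroup.induction_on with
    | H h =>
      rw [hfmk, ← mul_smul]
      rfl
  let B : R := ∑ i, ∑ q : G ⧸ D i, f i q
  have hB : ∀ g : G, g • B = B := by
    intro g
    rw [Finset.smul_sum]
    refine Finset.sum_congr rfl fun i _ => ?_
    rw [Finset.smul_sum]
    refine Fintype.sum_equiv (MulAction.toPerm g) _ _ fun q => ?_
    exact hfq i g q
  refine ⟨B, hB, fun j => ?_⟩
  have := hw j
  -- the terms which are small
  have hsmall : ∀ (i : ι) (g : G), (i = j → g ∉ D i) → LDvd (w j) c (g • (e i * a i)) := by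
    intro i g hig
    have h1 : g⁻¹ • w j ≠ w i := by
      by_cases hij : i = j
      · subst hij
        intro h
        apply hig rfl
        have : g • w i = w i := by
          conv_lhs => rw [← h]
          rw [smul_inv_smul]
        exact this
      · exact hne i j hij g⁻¹
    have h2 := ((he3 i j g⁻¹ h1))
    have hp : (g⁻¹ • w j).IsPrime := Ideal.IsPrime.smul g⁻¹
    have h3 := (h2.mul_right (a i)).smul g (hcG g)
    rwa [smul_inv_smul] at h3
  have h1 : B - a j = ∑ i ∈ Finset.univ.erase j, ∑ q : G ⧸ D i, f i q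
      + (∑ q ∈ Finset.univ.erase ((1 : G) : G ⧸ D j), f j q + (e j - 1) * a j) := by
    have h2 : B = ∑ q : G ⧸ D j, f j q + ∑ i ∈ Finset.univ.erase j, ∑ q : G ⧸ D i, f i q :=
      (Finset.add_sum_erase _ _ (Finset.mem_univ j)).symm
    have h3 : ∑ q : G ⧸ D j, f j q = f j ((1 : G) : G ⧸ D j)
        + ∑ q ∈ Finset.univ.erase ((1 : G) : G ⧸ D j), f j q :=
      (Finset.add_sum_erase _ _ (Finset.mem_univ _)).symm
    rw [h2, h3, hfmk, one_smul]
    ring
  rw [h1]
  refine LDvd.add ?_ (LDvd.add ?_ ?_)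
  · apply LDvd.sum
    intro i hi
    apply LDvd.sum
    intro q _
    induction q using QuotientGroup.induction_on with
    | H h =>
      rw [hfmk]
      exact hsmall i h (fun hij => absurd hij (Finset.ne_of_mem_erase hi))
  · apply LDvd.sum
    intro q hq
    induction q using QuotientGroup.induction_on with
    | H h =>
      rw [hfmk]
      refine hsmall j h (fun _ hh => ?_)
      apply Finset.ne_of_mem_erase hq
      rw [QuotientGroup.eq]
      rw [mul_one]
      exact inv_mem hh
  · exact (he2 j).mul_right _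

end crt

end Pool.Agent.K4H36.ST
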