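import Mathlib
import Pool.Agent.K4H36.ST.Loc

/-!
# Polynomials with prescribed roots at several primes
-/

set_option autoImplicit false
set_option linter.unusedSectionVars false

namespace Pool.Agent.K4H36.ST

open Pointwise Polynomial

/-- the relation between two finite sets of elements which are close to each other -/
structure Near {R : Type} [CommRing R] (Q : Ideal R) (c : R) (m : Multiset R) (X : Finset R) :
    Prop where
  nodup : m.Nodup
  right : ∀ t ∈ m, ∃ x ∈ X, LDvd Q c (t - x)
  left : ∀ x ∈ X, ∃ t ∈ m, LDvd Q c (t - x)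
  uniq_right : ∀ t ∈ m, ∀ x ∈ X, ∀ x' ∈ X, LDvd Q c (t - x) → LDvd Q c (t - x') → x = x'
  uniq_left : ∀ x ∈ X, ∀ t ∈ m, ∀ t' ∈ m, LDvd Q c (t - x) → LDvd Q c (t' - x) → t = t'

section near

variable {R : Type} [CommRing R] [IsDedekindDomain R] {Q : Ideal R} [hQ : Q.IsPrime]

lemma near_of (hQ0 : Q ≠ ⊥) {c : R} (hc : c ≠ 0) (m : Multiset R) (X : Finset R)
    (hcard : Multiset.card m = X.card)
    (hsep : ∀ x ∈ X, ∀ y ∈ X, x ≠ y → ¬ LDvd Q c (x - y))
    (h1 : ∀ t ∈ m, LDvd Q (c ^ X.card) (∏ x ∈ X, (t - x)))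
    (h2 : ∀ x ∈ X, LDvd Q (c ^ X.card) ((m.map (fun t => x - t)).prod)) :
    Near Q c m X := by
  classical
  have hr : ∀ t ∈ m, ∃ x ∈ X, LDvd Q c (t - x) := by
    intro t ht
    have hXne : X.val.map (fun x => t - x) ≠ 0 := by
      intro h
      rw [Multiset.map_eq_zero] at h
      have h3 : X.card = 0 := by
        change Multiset.card X.val = 0
        rw [h]; rfl
      rw [← hcard, Multiset.card_eq_zero] at h3
      rw [h3] at ht
      exact absurd ht (Multiset.notMem_zero t)
    obtain ⟨y, hy, hy2⟩ := ldvd_mprod hQ0 hc (X.val.map (fun x => t - x)) hXne (by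
      rw [Multiset.card_map]
      exact h1 t ht)
    obtain ⟨x, hx, rfl⟩ := Multiset.mem_map.mp hy
    exact ⟨x, hx, hy2⟩
  have hl : ∀ x ∈ X, ∃ t ∈ m, LDvd Q c (t - x) := by
    intro x hx
    have hne : m.map (fun t => x - t) ≠ 0 := by
      intro h
      rw [Multiset.map_eq_zero] at h
      rw [h, Multiset.card_zero] at hcard
      have := Finset.card_pos.mpr ⟨x, hx⟩
      omega
    obtain ⟨y, hy, hy2⟩ := ldvd_mprod hQ0 hc (m.map (fun t => x - t)) hne (by
      rw [Multiset.card_map, hcard]
      exact h2 x hx)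
    obtain ⟨t, ht, rfl⟩ := Multiset.mem_map.mp hy
    refine ⟨t, ht, ?_⟩
    have := hy2.neg
    rwa [neg_sub] at this
  have hur : ∀ t ∈ m, ∀ x ∈ X, ∀ x' ∈ X, LDvd Q c (t - x) → LDvd Q c (t - x') → x = x' := by
    intro t _ x hx x' hx' h3 h4
    by_contra hne
    apply hsep x hx x' hx' hne
    have : x - x' = (t - x') - (t - x) := by ring
    rw [this]
    exact h4.sub h3
  have h3 : ∀ t : m.toFinset, ∃ x : X, LDvd Q c ((t : R) - x) := by
    rintro ⟨t, ht⟩
    obtain ⟨x, hx, h⟩ := hr t (Multiset.mem_toFinset.mp ht)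
    exact ⟨⟨x, hx⟩, h⟩
  choose f hf using h3
  have hsurj : Function.Surjective f := by
    rintro ⟨x, hx⟩
    obtain ⟨t, ht, h⟩ := hl x hx
    refine ⟨⟨t, Multiset.mem_toFinset.mpr ht⟩, ?_⟩
    apply Subtype.ext
    exact hur t ht _ (f ⟨t, Multiset.mem_toFinset.mpr ht⟩).2 _ hx
      (hf ⟨t, Multiset.mem_toFinset.mpr ht⟩) h
  have hc1 : X.card ≤ m.toFinset.card := by
    have := Fintype.card_le_of_surjective f hsurj
    rwa [Fintype.card_coe, Fintype.card_coe] at this
  have hc2 : m.toFinset.card ≤ Multiset.card m := Multiset.toFinset_card_le m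
  have hc3 : m.toFinset.card = X.card := by omega
  have hnd : m.Nodup := by
    rw [← Multiset.toFinset_card_eq_card_iff_nodup]
    omega
  have hinj : Function.Injective f := by
    have h4 : Fintype.card m.toFinset = Fintype.card X := by
      rwa [Fintype.card_coe, Fintype.card_coe]
    exact ((Fintype.bijective_iff_surjective_and_card f).mpr ⟨hsurj, h4⟩).1
  refine ⟨hnd, hr, hl, hur, ?_⟩
  intro x hx t ht t' ht' h5 h6
  have h7 : f ⟨t, Multiset.mem_toFinset.mpr ht⟩ = f ⟨t', Multiset.mem_toFinset.mpr ht'⟩ := by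
    apply Subtype.ext
    have h8 := hur t ht _ (f ⟨t, Multiset.mem_toFinset.mpr ht⟩).2 _ hx
      (hf ⟨t, Multiset.mem_toFinset.mpr ht⟩) h5
    have h9 := hur t' ht' _ (f ⟨t', Multiset.mem_toFinset.mpr ht'⟩).2 _ hx
      (hf ⟨t', Multiset.mem_toFinset.mpr ht'⟩) h6
    rw [h8, h9]
  exact congrArg Subtype.val (hinj h7)

end near

section approx

variable {R G ι : Type} [CommRing R] [IsDedekindDomain R]
  [Group G] [Finite G] [MulSemiringAction G R] [Finite ι]

variable (G) in
/-- every nonzero element divides a nonzero invariant element -/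
lemma exists_dvd_inv (z : R) (hz : z ≠ 0) : ∃ a : R, a ≠ 0 ∧ (∀ g : G, g • a = a) ∧ z ∣ a := by
  classical
  have : Fintype G := Fintype.ofFinite G
  refine ⟨∏ g : G, g • z, ?_, ?_, ?_⟩
  · rw [Finset.prod_ne_zero_iff]
    intro g _ h
    apply hz
    have : z = g⁻¹ • (0 : R) := by rw [← h, inv_smul_smul]
    rw [this, smul_zero]
  · intro h
    rw [Finset.smul_prod']
    refine Fintype.prod_equiv (Equiv.mulLeft h) _ _ fun g => ?_
    rw [← mul_smul]
    rfl
  · have h1 := Finset.dvd_prod_of_mem (fun g : G => g • z) (Finset.mem_univ 1)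
    rwa [one_smul] at h1

variable (G) in
/-- an invariant element which separates the points of the sets `X i` -/
lemma exists_sep (w : ι → Ideal R) (hw0 : ∀ i, w i ≠ ⊥) (X : ι → Finset R) :
    ∃ c : R, c ≠ 0 ∧ (∀ g : G, g • c = c) ∧ ∀ i, ∀ x ∈ X i, ∀ y ∈ X i, x ≠ y →
      ∃ b ∈ w i, c = (x - y) * b := by
  classical
  have : Fintype ι := Fintype.ofFinite ι
  have h1 : ∀ i, ∃ p ∈ w i, p ≠ 0 := fun i => Submodule.exists_mem_ne_zero_of_ne_bot (hw0 i)
  choose p hp hp0 using h1
  obtain ⟨c, hc, hcG, hdvd⟩ := exists_dvd_inv G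
    (∏ i, (p i * ∏ z ∈ (X i).offDiag, (z.1 - z.2))) (by
      rw [Finset.prod_ne_zero_iff]
      intro i _
      apply mul_ne_zero (hp0 i)
      rw [Finset.prod_ne_zero_iff]
      intro z hz
      rw [Finset.mem_offDiag] at hz
      exact sub_ne_zero.mpr hz.2.2)
  refine ⟨c, hc, hcG, fun i x hx y hy hxy => ?_⟩
  have h2 : p i * (x - y) ∣ c := by
    refine dvd_trans ?_ hdvd
    refine dvd_trans ?_ (Finset.dvd_prod_of_mem _ (Finset.mem_univ i))
    apply mul_dvd_mul_left
    exact Finset.dvd_prod_of_mem (fun z : R × R => z.1 - z.2)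
      (Finset.mem_offDiag.mpr ⟨hx, hy, hxy⟩ : (x, y) ∈ (X i).offDiag)
  obtain ⟨t, ht⟩ := h2
  refine ⟨p i * t, Ideal.mul_mem_right _ _ (hp i), ?_⟩
  rw [ht]
  ring

/-- the polynomial with given roots -/
noncomputable def pol (X : Finset R) : R[X] := ∏ x ∈ X, (Polynomial.X - C x)

lemma pol_monic (X : Finset R) : (pol X).Monic := monic_prod_of_monic _ _ fun x _ => monic_X_sub_C x

lemma pol_natDegree (X : Finset R) : (pol X).natDegree = X.card := by
  rw [pol, natDegree_prod_of_monic _ _ (fun x _ => monic_X_sub_C x)]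
  simp

lemma pol_inv (X : Finset R) (g : G) (h : ∀ x ∈ X, g • x ∈ X) (k : ℕ) :
    g • (pol X).coeff k = (pol X).coeff k := by
  classical
  have h1 : (pol X).map (MulSemiringAction.toRingHom G R g) = pol X := by
    rw [pol, Polynomial.map_prod]
    have h2 : ∀ x ∈ X, (Polynomial.X - C x).map (MulSemiringAction.toRingHom G R g)
        = Polynomial.X - C (g • x) := by
      intro x _
      simp
    rw [Finset.prod_congr rfl h2]
    have hinj : Set.InjOn (fun x : R => g • x) X := fun a _ b _ hab =>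
      MulAction.injective g hab
    have h3 : X.image (fun x => g • x) = X := by
      apply Finset.eq_of_subset_of_card_le
      · intro y hy
        obtain ⟨x, hx, rfl⟩ := Finset.mem_image.mp hy
        exact h x hx
      · rw [Finset.card_image_of_injOn hinj]
    conv_rhs => rw [← h3]
    rw [Finset.prod_image hinj]
  conv_rhs => rw [← h1]
  rw [coeff_map]
  rfl

/-- two polynomials whose coefficients are locally close -/
def PolCong (Q : Ideal R) (c : R) (f g : R[X]) : Prop := ∃ s, s ∉ Q ∧ C c ∣ C s * (f - g)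

lemma polCong_of (Q : Ideal R) [hQ : Q.IsPrime] (c : R) (f g : R[X])
    (h : ∀ k, LDvd Q c ((f - g).coeff k)) : PolCong Q c f g := by
  classical
  choose s hs h1 using h
  let T := (f - g).support
  refine ⟨∏ k ∈ T, s k, fun h2 => ?_, ?_⟩
  · obtain ⟨k, -, hk⟩ := hQ.prod_mem_iff.mp h2
    exact hs k hk
  · rw [C_dvd_iff_dvd_coeff]
    intro k
    rw [coeff_C_mul]
    by_cases hk : k ∈ T
    · rw [← Finset.mul_prod_erase T s hk]
      have : s k * (∏ x ∈ T.erase k, s x) * (f - g).coeff k
          = (∏ x ∈ T.erase k, s x) * (s k * (f - g).coeff k) := by ring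
      rw [this]
      exact (h1 k).mul_left _
    · rw [notMem_support_iff.mp hk, mul_zero]
      exact dvd_zero c

/-- **Existence of the polynomial.** -/
theorem exists_pol (w : ι → Ideal R) (hw : ∀ i, (w i).IsPrime) (hw0 : ∀ i, w i ≠ ⊥)
    (hne : ∀ i j, i ≠ j → ∀ g : G, g • w j ≠ w i) (X : ι → Finset R) (d : ℕ)
    (hd : ∀ i, (X i).card = d) (hX : ∀ i, ∀ g ∈ MulAction.stabilizer G (w i), ∀ x ∈ X i, g • x ∈ X i)
    (c : R) (hc : c ≠ 0) (hcG : ∀ g : G, g • c = c) :
    ∃ h : R[X], h.Monic ∧ h.natDegree = d ∧ (∀ (g : G) (k : ℕ), g • h.coeff k = h.coeff k) ∧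
      ∀ i, PolCong (w i) c h (pol (X i)) := by
  classical
  have h1 : ∀ k : ℕ, ∃ b : R, (∀ g : G, g • b = b) ∧ ∀ i, LDvd (w i) c
      (b - (pol (X i)).coeff k) := fun k =>
    crt (G := G) w hw hw0 hne hc hcG _ (fun i g hg => pol_inv (X i) g (hX i g hg) k)
  choose b hbG hb using h1
  let q : R[X] := ∑ k ∈ Finset.range d, C (b k) * Polynomial.X ^ k
  have hq : q.degree < d := by
    rw [← mem_degreeLT]
    apply Submodule.sum_mem
    intro k hk
    rw [mem_degreeLT]
    exact (degree_C_mul_X_pow_le k (b k)).trans_lt (by exact_mod_cast Finset.mem_range.mp hk)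
  have hqc : ∀ k, q.coeff k = if k < d then b k else 0 := by
    intro k
    simp only [q, finsetSum_coeff, coeff_C_mul, coeff_X_pow]
    by_cases hk : k < d
    · rw [if_pos hk, Finset.sum_eq_single k]
      · simp
      · intro j _ hj
        rw [if_neg (Ne.symm hj), mul_zero]
      · intro h
        exact absurd (Finset.mem_range.mpr hk) h
    · rw [if_neg hk]
      apply Finset.sum_eq_zero
      intro j hj
      rw [if_neg, mul_zero]
      rintro rfl
      exact hk (Finset.mem_range.mp hj)
  have hmon : (Polynomial.X ^ d + q).Monic := monic_X_pow_add hq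
  have hdeg : (Polynomial.X ^ d + q).natDegree = d := by
    apply natDegree_eq_of_degree_eq_some
    rw [degree_add_eq_left_of_degree_lt, degree_X_pow]
    rwa [degree_X_pow]
  refine ⟨Polynomial.X ^ d + q, hmon, hdeg, ?_, fun i => ?_⟩
  · intro g k
    rw [coeff_add, coeff_X_pow, hqc, smul_add]
    congr 1
    · by_cases hk : k = d
      · rw [if_pos hk, smul_one]
      · rw [if_neg hk, smul_zero]
    · by_cases hk : k < d
      · rw [if_pos hk, hbG]
      · rw [if_neg hk, smul_zero]
  have := hw i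
  apply polCong_of
  intro k
  rw [coeff_sub, coeff_add, coeff_X_pow, hqc]
  by_cases hk : k < d
  · rw [if_pos hk, if_neg hk.ne, zero_add]
    exact hb k i
  · rw [if_neg hk, add_zero]
    have h2 : (pol (X i)).coeff k = if k = d then 1 else 0 := by
      by_cases hkd : k = d
      · rw [if_pos hkd, hkd, ← hd i, ← pol_natDegree (X i)]
        exact pol_monic (X i)
      · rw [if_neg hkd]
        apply coeff_eq_zero_of_natDegree_lt
        rw [pol_natDegree, hd]
        omega
    rw [h2, sub_self]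
    exact LDvd.zero

end approx

section ext

variable {R S : Type} [CommRing R] [IsDedekindDomain R] [CommRing S] [IsDedekindDomain S]
  [Algebra R S] [DecidableEq S]

/-- **The roots of a polynomial close to `pol X` are close to the elements of `X`.** -/
theorem near_of_cong (hinj : Function.Injective (algebraMap R S)) (Q : Ideal S) [hQ : Q.IsPrime]
    (hQ0 : Q ≠ ⊥) (w : Ideal R) (hw : Q.comap (algebraMap R S) = w) (X : Finset R) (c : R)
    (hc : c ≠ 0) (hsep : ∀ x ∈ X, ∀ y ∈ X, x ≠ y → ∃ b ∈ w, c = (x - y) * b) (h : R[X])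
    (hh : PolCong w (c ^ X.card) h (pol X)) (m : Multiset S)
    (hm : h.map (algebraMap R S) = (m.map (fun t => Polynomial.X - C t)).prod)
    (hcard : Multiset.card m = X.card) :
    Near Q (algebraMap R S c) m (X.image (algebraMap R S)) := by
  have hmem : ∀ r : R, algebraMap R S r ∈ Q ↔ r ∈ w := by
    intro r
    rw [← hw, Ideal.mem_comap]
  have hcX : (X.image (algebraMap R S)).card = X.card := Finset.card_image_of_injective X hinj
  have hc' : algebraMap R S c ≠ 0 := fun h => hc (hinj (by rw [h, map_zero]))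
  obtain ⟨s, hs, hs2⟩ := hh
  -- evaluation of the difference
  have hev : ∀ t : S, algebraMap R S c ^ X.card ∣ algebraMap R S s *
      (aeval t h - aeval t (pol X)) := by
    intro t
    obtain ⟨r, hr⟩ := hs2
    have := congrArg (aeval t) hr
    rw [map_mul, map_mul, aeval_C, aeval_C, map_pow, map_sub] at this
    exact ⟨aeval t r, this⟩
  have hpolev : ∀ t : S, aeval t (pol X) = ∏ x ∈ X.image (algebraMap R S), (t - x) := by
    intro t
    rw [Finset.prod_image (fun a _ b _ hab => hinj hab), pol, map_prod]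
    refine Finset.prod_congr rfl fun x _ => ?_
    rw [map_sub, aeval_X, aeval_C]
  have hhev : ∀ t : S, aeval t h = (m.map (fun u => t - u)).prod := by
    intro t
    rw [aeval_def, ← eval_map, hm, eval_multiset_prod, Multiset.map_map]
    congr 1
    refine Multiset.map_congr rfl fun u _ => ?_
    simp
  have hsQ : algebraMap R S s ∉ Q := fun h => hs ((hmem s).mp h)
  refine near_of hQ0 hc' m _ (by rw [hcard, hcX]) ?_ ?_ ?_
  · intro x hx y hy hxy
    obtain ⟨x, hx', rfl⟩ := Finset.mem_image.mp hx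
    obtain ⟨y, hy', rfl⟩ := Finset.mem_image.mp hy
    obtain ⟨b, hb, hcb⟩ := hsep x hx' y hy' (fun h => hxy (by rw [h]))
    rintro ⟨u, hu, t, ht⟩
    apply hu
    have h1 : algebraMap R S x - algebraMap R S y ≠ 0 := sub_ne_zero.mpr hxy
    have h2 : u = algebraMap R S b * t := by
      apply mul_left_cancel₀ h1
      rw [mul_comm, ht, hcb, map_mul, map_sub]
      ring
    rw [h2]
    exact Ideal.mul_mem_right _ _ ((hmem b).mpr hb)
  · intro t ht
    rw [hcX, ← hpolev]
    refine ⟨algebraMap R S s, hsQ, ?_⟩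
    have h1 : aeval t h = 0 := by
      rw [hhev]
      apply Multiset.prod_eq_zero
      rw [Multiset.mem_map]
      exact ⟨t, ht, sub_self t⟩
    have h2 := hev t
    rw [h1, zero_sub, mul_neg] at h2
    exact (dvd_neg).mp h2
  · intro x hx
    rw [hcX, ← hhev]
    refine ⟨algebraMap R S s, hsQ, ?_⟩
    have h1 : aeval x (pol X) = 0 := by
      rw [hpolev]
      exact Finset.prod_eq_zero hx (sub_self x)
    have h2 := hev x
    rwa [h1, sub_zero] at h2

end ext

end Pool.Agent.K4H36.ST
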