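import Mathlib
import Pool.Agent.K4H36.ST.Near

/-!
# Extensions of number fields in which polynomials split, primes and decomposition groups
-/

set_option autoImplicit false
set_option linter.unusedSectionVars false

namespace Pool.Agent.K4H36.ST

open NumberField Pointwise Polynomial

/-- a finite extension, Galois over the base, in which finitely many polynomials split -/
theorem exists_split (K L : Type) [Field K] [NumberField K] [Field L] [NumberField L] [Algebra K L]
    [IsGalois K L] (A : Finset L[X]) (hA : ∀ p ∈ A, p ≠ 0) :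
    ∃ (N : Type) (_ : Field N) (_ : NumberField N) (_ : Algebra K N) (_ : Algebra L N)
      (_ : IsScalarTower K L N) (_ : IsGalois K N),
      ∀ p ∈ A, (p.map (algebraMap L N)).Splits := by
  classical
  let Ω := AlgebraicClosure L
  let S : Set Ω := (∏ p ∈ A, p).rootSet Ω
  have hS : S.Finite := rootSet_finite _ _
  let F : IntermediateField L Ω := IntermediateField.adjoin L S
  have hF : FiniteDimensional L F := by
    have : Finite S := hS
    exact IntermediateField.finiteDimensional_adjoin (fun x _ =>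
      (Algebra.IsAlgebraic.isAlgebraic (R := L) x).isIntegral)
  have : FiniteDimensional K L := Module.Finite.of_restrictScalars_finite ℚ K L
  have : FiniteDimensional K F := FiniteDimensional.trans K L F
  have : Algebra.IsAlgebraic K Ω := Algebra.IsAlgebraic.trans K L Ω
  have : IsAlgClosure K Ω := ⟨inferInstance, inferInstance⟩
  have : Normal K Ω := IsAlgClosure.normal K Ω
  let N := IntermediateField.normalClosure K F Ω
  have hN1 : Normal K N := normalClosure.normal K F Ω
  have hN2 : FiniteDimensional K N := normalClosure.is_finiteDimensional K F Ω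
  have hN3 : NumberField N := by
    have : CharZero N := charZero_of_injective_algebraMap (algebraMap K N).injective
    exact { to_charZero := this
            to_finiteDimensional := by
              have := FiniteDimensional.trans ℚ K N
              exact this }
  have hKFO : IsScalarTower K F Ω := IsScalarTower.of_algebraMap_eq fun x => by
    rw [IsScalarTower.algebraMap_apply K L Ω]
    rfl
  let _ : Algebra F N := inferInstanceAs (Algebra F (IntermediateField.normalClosure K F Ω))
  have hKFN : IsScalarTower K F N :=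
    inferInstanceAs (IsScalarTower K F (IntermediateField.normalClosure K F Ω))
  let i1 : L →+* N := (algebraMap F N).comp (algebraMap L F)
  let _ : Algebra L N := i1.toAlgebra
  have hN4 : IsScalarTower K L N := by
    refine IsScalarTower.of_algebraMap_eq fun x => ?_
    change algebraMap K N x = algebraMap F N (algebraMap L F (algebraMap K L x))
    rw [IsScalarTower.algebraMap_apply K F N]
    rw [IsScalarTower.algebraMap_apply K L F]
  have hN5 : IsGalois K N := ⟨⟩
  refine ⟨N, inferInstance, hN3, inferInstance, inferInstance, hN4, hN5, fun p hp => ?_⟩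
  have h1 : (p.map (algebraMap L F)).Splits := by
    apply IntermediateField.splits_of_splits (IsAlgClosed.splits _)
    intro x hx
    apply IntermediateField.subset_adjoin L S
    have h2 : (∏ p ∈ A, p) ≠ 0 := Finset.prod_ne_zero_iff.mpr hA
    rw [mem_rootSet] at hx
    change x ∈ (∏ p ∈ A, p).rootSet Ω
    rw [mem_rootSet]
    refine ⟨h2, ?_⟩
    rw [map_prod]
    exact Finset.prod_eq_zero hp hx.2
  have h3 : p.map (algebraMap L N) = (p.map (algebraMap L F)).map (algebraMap F N) := by
    rw [Polynomial.map_map]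
    rfl
  rw [h3]
  exact h1.map _

section ints

variable {N : Type} [Field N] [NumberField N]

/-- the roots of a monic polynomial with integral coefficients -/
lemma exists_roots (p : (𝓞 N)[X]) (hp : p.Monic) (h : (p.map (algebraMap (𝓞 N) N)).Splits) :
    ∃ m : Multiset (𝓞 N), p = (m.map (fun t => X - C t)).prod := by
  classical
  have h1 := h.eq_prod_roots_of_monic (hp.map _)
  have h2 : ∀ r ∈ (p.map (algebraMap (𝓞 N) N)).roots, ∃ y : 𝓞 N, algebraMap (𝓞 N) N y = r := by
    intro r hr
    have h3 : IsIntegral (𝓞 N) r := by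
      refine ⟨p, hp, ?_⟩
      have := (mem_roots'.mp hr).2
      rwa [IsRoot.def, eval_map] at this
    have h4 : IsIntegral ℤ r := isIntegral_trans (R := ℤ) (A := 𝓞 N) r h3
    exact ⟨⟨r, h4⟩, rfl⟩
  choose! f hf using h2
  refine ⟨((p.map (algebraMap (𝓞 N) N)).roots).map f, ?_⟩
  have hinj : Function.Injective (algebraMap (𝓞 N) N) := RingOfIntegers.coe_injective
  apply map_injective _ hinj
  conv_lhs => rw [h1]
  rw [Polynomial.map_multiset_prod, Multiset.map_map, Multiset.map_map]
  congr 1
  refine Multiset.map_congr rfl fun r hr => ?_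
  simp [hf r hr]

end ints

section galois

variable {K N N₁ : Type} [Field K] [NumberField K] [Field N] [NumberField N] [Algebra K N]
  [IsGalois K N] [Field N₁] [NumberField N₁] [Algebra K N₁] [IsGalois K N₁] [Algebra N N₁]
  [IsScalarTower K N N₁]

/-- restriction of automorphisms -/
noncomputable abbrev rs (K N N₁ : Type) [Field K] [NumberField K] [Field N] [NumberField N]
    [Algebra K N] [IsGalois K N] [Field N₁] [NumberField N₁] [Algebra K N₁] [IsGalois K N₁]
    [Algebra N N₁] [IsScalarTower K N N₁] : (N₁ ≃ₐ[K] N₁) →* (N ≃ₐ[K] N) :=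
  AlgEquiv.restrictNormalHom N

lemma rs_apply (g : N₁ ≃ₐ[K] N₁) (x : N) : algebraMap N N₁ (rs K N N₁ g x) = g (algebraMap N N₁ x) :=
  AlgEquiv.restrictNormal_commutes g N x

lemma rs_surjective : Function.Surjective (rs K N N₁) := AlgEquiv.restrictNormalHom_surjective N₁

lemma smul_coe (g : N ≃ₐ[K] N) (x : 𝓞 N) : ((g • x : 𝓞 N) : N) = g (x : N) := rfl

lemma algMap_coe (x : 𝓞 N) : ((algebraMap (𝓞 N) (𝓞 N₁) x : 𝓞 N₁) : N₁) = algebraMap N N₁ (x : N) :=
  rfl

lemma algMap_inj : Function.Injective (algebraMap (𝓞 N) (𝓞 N₁)) := by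
  intro x y h
  apply RingOfIntegers.coe_injective
  apply (algebraMap N N₁).injective
  change algebraMap N N₁ (x : N) = algebraMap N N₁ (y : N)
  rw [← algMap_coe, ← algMap_coe, h]

lemma rs_smul (g : N₁ ≃ₐ[K] N₁) (x : 𝓞 N) :
    algebraMap (𝓞 N) (𝓞 N₁) (rs K N N₁ g • x) = g • algebraMap (𝓞 N) (𝓞 N₁) x := by
  apply RingOfIntegers.coe_injective
  change algebraMap N N₁ (rs K N N₁ g (x : N)) = g (algebraMap N N₁ (x : N))
  exact rs_apply g (x : N)

/-- the restriction of an ideal to a subfield -/
abbrev dn (N : Type) {N₁ : Type} [Field N] [NumberField N] [Field N₁] [NumberField N₁]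
    [Algebra N N₁] (Q : Ideal (𝓞 N₁)) : Ideal (𝓞 N) := Q.comap (algebraMap (𝓞 N) (𝓞 N₁))

lemma dn_smul (g : N₁ ≃ₐ[K] N₁) (Q : Ideal (𝓞 N₁)) : dn N (g • Q) = rs K N N₁ g • dn N Q := by
  ext x
  rw [Ideal.mem_comap, Ideal.mem_pointwise_smul_iff_inv_smul_mem,
    Ideal.mem_pointwise_smul_iff_inv_smul_mem, Ideal.mem_comap, ← map_inv, rs_smul]

lemma dn_stab {g : N₁ ≃ₐ[K] N₁} {Q : Ideal (𝓞 N₁)}
    (h : g ∈ MulAction.stabilizer (N₁ ≃ₐ[K] N₁) Q) :
    rs K N N₁ g ∈ MulAction.stabilizer (N ≃ₐ[K] N) (dn N Q) := by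
  rw [MulAction.mem_stabilizer_iff] at h ⊢
  rw [← dn_smul, h]

lemma dn_ne_bot {Q : Ideal (𝓞 N₁)} {t : ℕ} (ht : t ≠ 0) (h : (t : 𝓞 N₁) ∈ Q) : dn N Q ≠ ⊥ := by
  intro h1
  have h2 : (t : 𝓞 N) ∈ dn N Q := by
    rw [Ideal.mem_comap, map_natCast]
    exact h
  rw [h1, Ideal.mem_bot] at h2
  exact ht (by exact_mod_cast h2)

lemma ne_bot_of {Q : Ideal (𝓞 N)} {t : ℕ} (ht : t ≠ 0) (h : (t : 𝓞 N) ∈ Q) : Q ≠ ⊥ := by
  rintro rfl
  rw [Ideal.mem_bot] at h
  exact ht (by exact_mod_cast h)

/-- an integral primitive element -/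
lemma exists_prim (K N : Type) [Field K] [NumberField K] [Field N] [NumberField N] [Algebra K N]
    [IsGalois K N] : ∃ θ : 𝓞 N, ∀ g : N ≃ₐ[K] N, g • θ = θ → g = 1 := by
  have hfin : FiniteDimensional K N := Module.Finite.of_restrictScalars_finite ℚ K N
  obtain ⟨α, hα⟩ := Field.exists_primitive_element K N
  obtain ⟨x, y, hy, hxy⟩ := IsFractionRing.div_surjective (A := 𝓞 N) α
  have hy0 : y ≠ 0 := nonZeroDivisors.ne_zero hy
  let n : ℕ := Ideal.absNorm (Ideal.span {y})
  have hn0 : n ≠ 0 := by
    rw [Ne, Ideal.absNorm_eq_zero_iff, Ideal.span_singleton_eq_bot]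
    exact hy0
  obtain ⟨z, hz⟩ := Ideal.mem_span_singleton.mp (Ideal.absNorm_mem (Ideal.span {y}))
  have hyN : (algebraMap (𝓞 N) N) y ≠ 0 := by
    intro h
    exact hy0 (RingOfIntegers.coe_injective (by rw [map_zero]; exact h))
  have hnN : (n : N) ≠ 0 := by exact_mod_cast hn0
  have h1 : (n : N) * α = algebraMap (𝓞 N) N (x * z) := by
    have h2 := congrArg (algebraMap (𝓞 N) N) hz
    rw [map_natCast, map_mul] at h2
    rw [← hxy, map_mul]
    change (n : N) = _ at h2
    rw [h2]
    field_simp
  refine ⟨x * z, fun g hg => ?_⟩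
  have h2 : g ((n : N) * α) = (n : N) * α := by
    rw [h1]
    exact congrArg (algebraMap (𝓞 N) N) hg
  rw [map_mul, map_natCast] at h2
  have h3 : g α = α := mul_left_cancel₀ hnN h2
  have h4 : g ∈ (IntermediateField.adjoin K {α}).fixingSubgroup := by
    rw [IntermediateField.mem_fixingSubgroup_iff]
    intro u hu
    have h5 : IntermediateField.adjoin K {α} ≤ IntermediateField.fixedField (Subgroup.zpowers g) := by
      rw [IntermediateField.adjoin_simple_le_iff, IntermediateField.mem_fixedField_iff]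
      intro f hf
      obtain ⟨k, rfl⟩ := Subgroup.mem_zpowers_iff.mp hf
      have h6 : g ∈ MulAction.stabilizer (N ≃ₐ[K] N) α := h3
      exact (zpow_mem h6 k : g ^ k ∈ MulAction.stabilizer (N ≃ₐ[K] N) α)
    exact IntermediateField.mem_fixedField_iff _ _ |>.mp (h5 hu) g (Subgroup.mem_zpowers g)
  rw [hα, IntermediateField.fixingSubgroup_top, Subgroup.mem_bot] at h4
  exact h4

end galois

end Pool.Agent.K4H36.ST
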