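import Mathlib
import Pool.Agent.K4H77.SL.Lin

/-!
# Subextensions of extensions which are unramified outside one prime
-/

set_option autoImplicit false
set_option linter.unusedSectionVars false

namespace Pool.Agent.K4H36.ST

open NumberField NumberField.ComplexEmbedding Pool.Agent.R389 Pool.Agent.K4H74.ST Pool.Agent.K4H77.SL
open scoped Pointwise

section sub

variable {K E L : Type} [Field K] [NumberField K] [Field E] [NumberField E] [Field L]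
  [NumberField L] [Algebra K E] [Algebra E L] [Algebra K L] [IsScalarTower K E L] [IsGalois K L]
  [IsGalois K E]

lemma comap_comap' (Q : Ideal (𝓞 L)) :
    (Q.comap (algebraMap (𝓞 E) (𝓞 L))).comap (algebraMap (𝓞 K) (𝓞 E))
      = Q.comap (algebraMap (𝓞 K) (𝓞 L)) := by
  have h : algebraMap (𝓞 K) (𝓞 L) = (algebraMap (𝓞 E) (𝓞 L)).comp (algebraMap (𝓞 K) (𝓞 E)) := by
    apply RingHom.ext
    intro x
    apply RingOfIntegers.coe_injective
    change algebraMap K L (x : K) = algebraMap E L (algebraMap K E (x : K))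
    rw [← IsScalarTower.algebraMap_apply K E L]
  rw [Ideal.comap_comap, ← h]

/-- the inertia groups of a subextension -/
lemma inertia_sub_ext {P : Ideal (𝓞 E)} (hP : P.IsMaximal)
    (h : ∀ Q : Ideal (𝓞 L), Q.IsMaximal → Q.comap (algebraMap (𝓞 E) (𝓞 L)) = P →
      ∀ g ∈ inertia K Q, g = 1) : ∀ g ∈ inertia K P, g = 1 := by
  intro g hg
  have iEL : IsGalois E L := IsGalois.tower_top_of_isGalois K E L
  have hfin : FiniteDimensional E L := Module.Finite.of_restrictScalars_finite ℚ E L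
  obtain ⟨h0, Q, hh0, hQ, hQP, hhQ⟩ := lift_decomp (N := L) hP (inertia_sub P hg)
  have hlies : Q.LiesOver P := ⟨hQP.symm⟩
  have hQp : Q.IsPrime := hQ.isPrime
  have hact : ∀ x : 𝓞 E, gi h0 (algebraMap (𝓞 E) (𝓞 L) x) = algebraMap (𝓞 E) (𝓞 L) (gi g x) := by
    intro x
    apply RingOfIntegers.ext
    change h0 (algebraMap E L (x : E)) = algebraMap E L (g (x : E))
    rw [← hh0]
    exact (res_apply h0 (x : E)).symm
  let e : 𝓞 L ≃+* 𝓞 L := RingOfIntegers.mapRingEquiv (h0 : L ≃+* L)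
  have he : ∀ x, e x = gi h0 x := fun x => by
    apply RingOfIntegers.ext
    rfl
  have hQe : Q = Q.map (e : 𝓞 L →+* 𝓞 L) := by
    apply le_antisymm
    · intro x hx
      have h1 : gi h0⁻¹ x ∈ Q := (decomp_inv hhQ x).mpr hx
      have h2 : e (gi h0⁻¹ x) = x := by
        rw [he, ← gi_mul, mul_inv_cancel, gi_one]
      rw [← h2]
      exact Ideal.mem_map_of_mem (e : 𝓞 L →+* 𝓞 L) h1
    · rw [Ideal.map_le_iff_le_comap]
      intro x hx
      rw [Ideal.mem_comap]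
      change e x ∈ Q
      rw [he]
      exact (hhQ x).mpr hx
  let f : (𝓞 L ⧸ Q) ≃+* (𝓞 L ⧸ Q) := Ideal.quotientEquiv Q Q e hQe
  have hf : ∀ x : 𝓞 L, f (Ideal.Quotient.mk Q x) = Ideal.Quotient.mk Q (gi h0 x) := by
    intro x
    rw [← he]
    rfl
  have hfa : ∀ y : 𝓞 E ⧸ P, f (algebraMap (𝓞 E ⧸ P) (𝓞 L ⧸ Q) y)
      = algebraMap (𝓞 E ⧸ P) (𝓞 L ⧸ Q) y := by
    intro y
    obtain ⟨x, rfl⟩ := Ideal.Quotient.mk_surjective y
    have h1 : algebraMap (𝓞 E ⧸ P) (𝓞 L ⧸ Q) (Ideal.Quotient.mk P x)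
        = Ideal.Quotient.mk Q (algebraMap (𝓞 E) (𝓞 L) x) := rfl
    rw [h1, hf, hact]
    rw [Ideal.Quotient.eq, ← map_sub, ← Ideal.mem_comap, hQP]
    exact hg x
  let f' : (𝓞 L ⧸ Q) ≃ₐ[𝓞 E ⧸ P] (𝓞 L ⧸ Q) := AlgEquiv.ofRingEquiv (f := f) hfa
  obtain ⟨τ, hτ⟩ := Ideal.Quotient.stabilizerHom_surjective (L ≃ₐ[E] L) P Q f'
  have hτ2 : ∀ x : 𝓞 L, gi h0 x - (τ.1 • x) ∈ Q := by
    intro x
    rw [← Ideal.Quotient.eq, ← hf]
    have h1 := AlgEquiv.congr_fun hτ (Ideal.Quotient.mk Q x)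
    exact h1.symm
  have hτst : ∀ x : 𝓞 L, (τ.1⁻¹ • x) ∈ Q ↔ x ∈ Q := by
    intro x
    have h1 : τ.1 • Q = Q := τ.2
    rw [← Ideal.mem_pointwise_smul_iff_inv_smul_mem, h1]
  have hin : ((τ.1⁻¹ : L ≃ₐ[E] L).restrictScalars K * h0) ∈ inertia K Q := by
    intro x
    have h1 : gi ((τ.1⁻¹ : L ≃ₐ[E] L).restrictScalars K * h0) x - x
        = τ.1⁻¹ • (gi h0 x - τ.1 • x) := by
      rw [smul_sub, inv_smul_smul, gi_mul]
      rfl
    rw [h1, hτst]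
    exact hτ2 x
  have h1 := h Q hQ hQP _ hin
  have h2 : h0 = (τ.1 : L ≃ₐ[E] L).restrictScalars K := by
    ext x
    have h3 := AlgEquiv.congr_fun h1 x
    change (τ.1⁻¹ : L ≃ₐ[E] L) (h0 x) = x at h3
    change h0 x = τ.1 x
    rw [← h3]
    have h4 : (τ.1 : L ≃ₐ[E] L) ((τ.1⁻¹ : L ≃ₐ[E] L) (h0 x)) = h0 x :=
      AlgEquiv.congr_fun (mul_inv_cancel (τ.1 : L ≃ₐ[E] L)) (h0 x)
    rw [h3] at h4 ⊢
    exact h4.symm
  rw [← hh0, h2]
  ext x
  apply (algebraMap E L).injective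
  rw [res_apply]
  change τ.1 (algebraMap E L x) = _
  rw [AlgEquiv.commutes]
  rfl

lemma unram_sub' {v : Ideal (𝓞 K)} (h : ∀ P : Ideal (𝓞 L), P.IsMaximal →
      P.comap (algebraMap (𝓞 K) (𝓞 L)) ≠ v → ∀ g ∈ inertia K P, g = 1) :
    ∀ P : Ideal (𝓞 E), P.IsMaximal → P.comap (algebraMap (𝓞 K) (𝓞 E)) ≠ v →
      ∀ g ∈ inertia K P, g = 1 := by
  intro P hP hPv
  refine inertia_sub_ext (L := L) hP fun Q hQ hQP => h Q hQ ?_
  rw [← comap_comap' (E := E), hQP]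
  exact hPv

lemma split_sub' {m : ℕ} {v : Ideal (𝓞 K)} (h : ∀ P : Ideal (𝓞 L), P.IsMaximal →
      P.comap (algebraMap (𝓞 K) (𝓞 L)) ≠ v → (m : 𝓞 L) ∈ P → ∀ g ∈ decomp K P, g = 1) :
    ∀ P : Ideal (𝓞 E), P.IsMaximal → P.comap (algebraMap (𝓞 K) (𝓞 E)) ≠ v → (m : 𝓞 E) ∈ P →
      ∀ g ∈ decomp K P, g = 1 := by
  intro P hP hPv hm g hg
  have iEL : IsGalois E L := IsGalois.tower_top_of_isGalois K E L
  obtain ⟨h0, Q, hh0, hQ, hQP, hhQ⟩ := lift_decomp (N := L) hP hg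
  have h1 : (m : 𝓞 L) ∈ Q := by
    have h2 : algebraMap (𝓞 E) (𝓞 L) (m : 𝓞 E) ∈ Q := by
      rw [← Ideal.mem_comap, hQP]
      exact hm
    rwa [map_natCast] at h2
  rw [← hh0, h Q hQ (by rw [← comap_comap' (E := E), hQP]; exact hPv) h1 h0 hhQ, map_one]

/-- primes which are not decomposed -/
lemma full_sub {v : Ideal (𝓞 K)} (h : ∀ P : Ideal (𝓞 L), P.IsMaximal →
      P.comap (algebraMap (𝓞 K) (𝓞 L)) = v → ∀ g, g ∈ decomp K P) :
    ∀ P : Ideal (𝓞 E), P.IsMaximal → P.comap (algebraMap (𝓞 K) (𝓞 E)) = v →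
      ∀ g, g ∈ decomp K P := by
  intro P hP hPv g
  obtain ⟨Q, hQ, hQP⟩ := Ideal.exists_ideal_over_maximal_of_isIntegral (S := 𝓞 L) P (by
    have hinj : Function.Injective (algebraMap (𝓞 E) (𝓞 L)) :=
      FaithfulSMul.algebraMap_injective _ _
    rw [(RingHom.injective_iff_ker_eq_bot _).mp hinj]
    exact bot_le)
  obtain ⟨h0, hh0⟩ := AlgEquiv.restrictNormalHom_surjective (F := K) (K₁ := E) L g
  have h1 := h Q hQ (by rw [← comap_comap' (E := E), hQP]; exact hPv) h0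
  intro x
  have hact : gi h0 (algebraMap (𝓞 E) (𝓞 L) x) = algebraMap (𝓞 E) (𝓞 L) (gi g x) := by
    apply RingOfIntegers.ext
    change h0 (algebraMap E L (x : E)) = algebraMap E L (g (x : E))
    rw [← hh0]
    exact (res_apply h0 (x : E)).symm
  have h2 := h1 (algebraMap (𝓞 E) (𝓞 L) x)
  have h3 : ∀ y : 𝓞 E, algebraMap (𝓞 E) (𝓞 L) y ∈ Q ↔ y ∈ P := fun y => by
    rw [← hQP, Ideal.mem_comap]
  rw [hact, h3, h3] at h2
  exact h2

end sub

end Pool.Agent.K4H36.ST
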