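import Mathlib
import Pool.Agent.K4H77.SL.Main
import Pool.Agent.K4H36.ST.Fld
import Pool.Agent.K4H36.ST.Sub

/-!
# Subgroups with at most one non-split prime
-/

set_option autoImplicit false
set_option linter.unusedSectionVars false

namespace Pool.Agent.K4H36.ST

open NumberField NumberField.ComplexEmbedding Pool.Agent.R389 Pool.Agent.K4H74.ST Pool.Agent.K4H77.SL
open scoped Pointwise

/-- the invariant is trivial on the faithful linear characters of the extensions of totally complex
fields which are unramified outside one prime `v`, in which the primes above `m` other than `v`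
split completely, and in which `v` is not decomposed -/
def TrivOnePrime {M : Type} [CommGroup M] (A : ArtinInvariant M) (m : ℕ) : Prop :=
  ∀ (K L : Type) [Field K] [NumberField K] [Field L] [NumberField L] [Algebra K L] [IsGalois K L],
    IsTotallyComplex K → ∀ v : Ideal (𝓞 K),
    (∀ P : Ideal (𝓞 L), P.IsMaximal → P.comap (algebraMap (𝓞 K) (𝓞 L)) ≠ v →
      ∀ g ∈ inertia K P, g = 1) →
    (∀ P : Ideal (𝓞 L), P.IsMaximal → P.comap (algebraMap (𝓞 K) (𝓞 L)) ≠ v → (m : 𝓞 L) ∈ P →
      ∀ g ∈ decomp K P, g = 1) →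
    (∀ P : Ideal (𝓞 L), P.IsMaximal → P.comap (algebraMap (𝓞 K) (𝓞 L)) = v →
      ∀ g, g ∈ decomp K P) →
    ∀ ψ : (L ≃ₐ[K] L) →* ℂˣ, Function.Injective ψ → A.val K L (lc ψ) = 1

/-- the invariant is trivial on the linear characters of the extensions of degree less than `n` of
the totally complex fields -/
def Small {M : Type} [CommGroup M] (A : ArtinInvariant M) (n : ℕ) : Prop :=
  ∀ (K L : Type) [Field K] [NumberField K] [Field L] [NumberField L] [Algebra K L]
    [IsGalois K L], IsTotallyComplex K → Nat.card (L ≃ₐ[K] L) < n →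
    ∀ ψ : (L ≃ₐ[K] L) →* ℂˣ, A.val K L (lc ψ) = 1

/-- all linear characters -/
lemma TrivOnePrime.lin {M : Type} [CommGroup M] {A : ArtinInvariant M} {m : ℕ}
    (hA : TrivOnePrime A m)
    (K L : Type) [Field K] [NumberField K] [Field L] [NumberField L] [Algebra K L] [IsGalois K L]
    (hK : IsTotallyComplex K) (v : Ideal (𝓞 K))
    (h1 : ∀ P : Ideal (𝓞 L), P.IsMaximal → P.comap (algebraMap (𝓞 K) (𝓞 L)) ≠ v →
      ∀ g ∈ inertia K P, g = 1)
    (h2 : ∀ P : Ideal (𝓞 L), P.IsMaximal → P.comap (algebraMap (𝓞 K) (𝓞 L)) ≠ v → (m : 𝓞 L) ∈ P →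
      ∀ g ∈ decomp K P, g = 1)
    (h3 : ∀ P : Ideal (𝓞 L), P.IsMaximal → P.comap (algebraMap (𝓞 K) (𝓞 L)) = v →
      ∀ g, g ∈ decomp K P) (ψ : (L ≃ₐ[K] L) →* ℂˣ) : A.val K L (lc ψ) = 1 := by
  obtain ⟨E, i1, i2, i3, i4, i5, i6, θ, hθ, hψ⟩ := lin_red K L ψ
  have h4 : ψ = θ.comp (AlgEquiv.restrictNormalHom E) := by
    ext g
    rw [← hψ]
    rfl
  have hfin : FiniteDimensional K E := Module.Finite.of_restrictScalars_finite ℚ K E
  rw [h4, val_lin_res]
  exact hA K E hK v (unram_sub' h1) (split_sub' h2) (full_sub h3) θ hθ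

section split

variable {M : Type} [CommGroup M] {A : ArtinInvariant M} {m : ℕ}

variable {K L N : Type} [Field K] [NumberField K] [Field L] [NumberField L] [Field N]
  [NumberField N] [Algebra K L] [Algebra L N] [Algebra K N] [IsScalarTower K L N] [IsGalois K L]
  [IsGalois K N]

lemma mem_decomp_iff {g : N ≃ₐ[K] N} {Q : Ideal (𝓞 N)} : g ∈ decomp K Q ↔ g • Q = Q := by
  constructor
  · intro h
    ext x
    rw [Ideal.mem_pointwise_smul_iff_inv_smul_mem]
    exact (decomp_inv h) x
  · intro h x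
    have h1 : gi g x = g • x := rfl
    rw [h1]
    conv_lhs => rw [← h]
    exact Ideal.smul_mem_pointwise_smul_iff

/-- the value of an induced linear character, in terms of the cyclic extension it comes from -/
theorem ind_gen (U : Subgroup (N ≃ₐ[K] N)) (ψ : (L ≃ₐ[K] L) →* ℂˣ)
    (hval : ∀ (E : IntermediateField (IntermediateField.fixedField U) N)
      [IsGalois (IntermediateField.fixedField U) E]
      (ρ' : (E ≃ₐ[IntermediateField.fixedField U] E) →* (L ≃ₐ[K] L)),
      Function.Injective ρ' → (∀ u : U, ∀ g : N ≃ₐ[IntermediateField.fixedField U] N,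
        (u : N ≃ₐ[K] N) = g.restrictScalars K →
        ρ' (AlgEquiv.restrictNormalHom E g) = AlgEquiv.restrictNormalHom L (u : N ≃ₐ[K] N)) →
      A.val (IntermediateField.fixedField U) E (lc (ψ.comp ρ')) = 1) :
    ind U (fun u => lc ψ (AlgEquiv.restrictNormalHom L (u : N ≃ₐ[K] N)))
      ∈ TT A (K := K) (L := N) ⊥ := by
  classical
  have hfin : FiniteDimensional K N := Module.Finite.of_restrictScalars_finite ℚ K N
  have hfinL : FiniteDimensional K L := Module.Finite.of_restrictScalars_finite ℚ K L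
  let χ : (L ≃ₐ[K] L) → ℂ := lc ψ
  have hχ : IsChar χ := IsChar.lc ψ
  let F := IntermediateField.fixedField U
  let e : U ≃* (N ≃ₐ[F] N) := IntermediateField.subgroupEquivAlgEquiv U
  have he : ∀ h : N ≃ₐ[F] N, (e.symm h : N ≃ₐ[K] N) = h.restrictScalars K := by
    intro h
    obtain ⟨u, rfl⟩ := e.surjective h
    rw [MulEquiv.symm_apply_apply]
    ext x
    rfl
  let res : (N ≃ₐ[K] N) →* (L ≃ₐ[K] L) := AlgEquiv.restrictNormalHom L
  let ρ : (N ≃ₐ[F] N) →* (L ≃ₐ[K] L) := res.comp (U.subtype.comp e.symm.toMonoidHom)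
  have hρ : ∀ (h : N ≃ₐ[F] N) (x : L), algebraMap L N (ρ h x) = h (algebraMap L N x) := by
    intro h x
    change algebraMap L N (res (e.symm h : N ≃ₐ[K] N) x) = _
    rw [he]
    exact res_apply _ x
  have hind : ind U (fun u => χ (res (u : N ≃ₐ[K] N))) = indChar K F N (fun g => χ (ρ g)) :=
    ind_fixed U _
  have hcharU : IsChar (fun g : N ≃ₐ[F] N => χ (ρ g)) := IsChar.comp hχ ρ
  -- the field `E`
  let E : IntermediateField F N := IntermediateField.fixedField ρ.ker
  have hE : IsGalois F E := IsGalois.of_fixedField_normal_subgroup ρ.ker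
  let π : (N ≃ₐ[F] N) →* (E ≃ₐ[F] E) := AlgEquiv.restrictNormalHom E
  have hπ : Function.Surjective π := AlgEquiv.restrictNormalHom_surjective N
  have hfinF : FiniteDimensional F N := Module.Finite.of_restrictScalars_finite ℚ F N
  have hker : ∀ g : N ≃ₐ[F] N, π g = 1 ↔ ρ g = 1 := by
    intro g
    constructor
    · intro h
      have h1 : g ∈ E.fixingSubgroup := by
        rw [IntermediateField.mem_fixingSubgroup_iff]
        intro x hx
        have h2 := res_apply (L := E) g ⟨x, hx⟩
        change algebraMap E N (π g ⟨x, hx⟩) = _ at h2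
        rw [h] at h2
        exact h2.symm
      rw [IntermediateField.fixingSubgroup_fixedField] at h1
      exact h1
    · intro h
      ext x
      have h2 := res_apply (L := E) g x
      change algebraMap E N (π g x) = _ at h2
      change ((π g x : E) : N) = (x : N)
      exact h2.trans (x.2 ⟨g, h⟩)
  have hle : π.ker ≤ ρ.ker := fun g hg => (hker g).mp hg
  let ρ' : (E ≃ₐ[F] E) →* (L ≃ₐ[K] L) := π.liftOfSurjective hπ ⟨ρ, hle⟩
  have hρ' : ∀ g, ρ' (π g) = ρ g := fun g => MonoidHom.liftOfRightInverse_comp_apply _ _ _ ⟨ρ, hle⟩ g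
  have hinj : Function.Injective ρ' := by
    rw [injective_iff_map_eq_one]
    intro a ha
    obtain ⟨g, rfl⟩ := hπ a
    rw [hρ'] at ha
    exact (hker g).mpr ha
  have hval' : A.val F E (fun g => χ (ρ' g)) = 1 := by
    refine hval E ρ' hinj fun u g hug => ?_
    have h1 : ρ' (π g) = ρ g := hρ' g
    rw [hug, ← he]
    exact h1
  have hval2 : A.val F N (fun g => χ (ρ g)) = 1 := by
    rw [← hval', ← A.val_infl F E N _ (IsChar.comp hχ ρ')]
    congr 1
    funext g
    rw [← hρ']
  have hval3 : A.val K N (indChar K F N (fun g => χ (ρ g))) = 1 := by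
    rw [A.val_ind K F N _ hcharU]
    exact hval2
  have hfinal : A.val K N (ind U (fun u => χ (res (u : N ≃ₐ[K] N)))) = 1 := by
    rw [hind]
    exact hval3
  have hch : IsChar (ind U (fun u => χ (res (u : N ≃ₐ[K] N)))) :=
    IsChar.ind_lin U (ψ.comp (res.comp U.subtype))
  rw [mem_TT_char A hch, Subgroup.mem_bot]
  exact hfinal

theorem ind_one (hA : TrivOnePrime A m) (U : Subgroup (N ≃ₐ[K] N)) (Q₀ : Ideal (𝓞 N))
    (hQ₀ : Q₀ = ⊥ ∨ Q₀.IsMaximal)
    (hfull : ∀ u ∈ U, ∃ u' ∈ U, u' • Q₀ = Q₀ ∧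
      AlgEquiv.restrictNormalHom L u' = AlgEquiv.restrictNormalHom L u)
    (hgood : ∀ u ∈ U, ∀ Q : Ideal (𝓞 N), Q.IsMaximal → u • Q = Q →
      Special K m (Q.comap (algebraMap (𝓞 L) (𝓞 N))) → AlgEquiv.restrictNormalHom L u = 1 ∨
        ∃ v ∈ U, Q = v • Q₀)
    (hF : IsTotallyComplex (IntermediateField.fixedField U))
    (ψ : (L ≃ₐ[K] L) →* ℂˣ) :
    ind U (fun u => lc ψ (AlgEquiv.restrictNormalHom L (u : N ≃ₐ[K] N)))
      ∈ TT A (K := K) (L := N) ⊥ := by
  classical
  refine ind_gen U ψ fun E hE ρ' hinj hρ'' => ?_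
  have hfin : FiniteDimensional K N := Module.Finite.of_restrictScalars_finite ℚ K N
  have hfinL : FiniteDimensional K L := Module.Finite.of_restrictScalars_finite ℚ K L
  let F := IntermediateField.fixedField U
  have hfinF : FiniteDimensional F N := Module.Finite.of_restrictScalars_finite ℚ F N
  let e : U ≃* (N ≃ₐ[F] N) := IntermediateField.subgroupEquivAlgEquiv U
  have he : ∀ h : N ≃ₐ[F] N, (e.symm h : N ≃ₐ[K] N) = h.restrictScalars K := by
    intro h
    obtain ⟨u, rfl⟩ := e.surjective h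
    rw [MulEquiv.symm_apply_apply]
    ext x
    rfl
  have he' : ∀ u : U, (e u).restrictScalars K = (u : N ≃ₐ[K] N) := by
    intro u
    ext x
    rfl
  let res : (N ≃ₐ[K] N) →* (L ≃ₐ[K] L) := AlgEquiv.restrictNormalHom L
  let ρ : (N ≃ₐ[F] N) →* (L ≃ₐ[K] L) := res.comp (U.subtype.comp e.symm.toMonoidHom)
  have hρ : ∀ (h : N ≃ₐ[F] N) (x : L), algebraMap L N (ρ h x) = h (algebraMap L N x) := by
    intro h x
    change algebraMap L N (res (e.symm h : N ≃ₐ[K] N) x) = _
    rw [he]
    exact res_apply _ x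
  let π : (N ≃ₐ[F] N) →* (E ≃ₐ[F] E) := AlgEquiv.restrictNormalHom E
  have hπ : Function.Surjective π := AlgEquiv.restrictNormalHom_surjective N
  have hρ' : ∀ g, ρ' (π g) = ρ g := fun g => hρ'' (e.symm g) g (he g)
  have hker : ∀ g : N ≃ₐ[F] N, ρ g = 1 → π g = 1 := by
    intro g h
    apply hinj
    rw [hρ', h, map_one]
  have hUmem : ∀ h : N ≃ₐ[F] N, (e.symm h : N ≃ₐ[K] N) ∈ U := fun h => (e.symm h).2
  have hdec : ∀ (h : N ≃ₐ[F] N) (Q : Ideal (𝓞 N)), h ∈ decomp F Q →
      (e.symm h : N ≃ₐ[K] N) ∈ decomp K Q := by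
    intro h Q hh x
    have h1 : gi (e.symm h : N ≃ₐ[K] N) x = gi h x := by
      apply RingOfIntegers.ext
      rw [he]
      rfl
    rw [h1]
    exact hh x
  let v : Ideal (𝓞 F) := Q₀.comap (algebraMap (𝓞 F) (𝓞 N))
  have hUF : ∀ u ∈ U, ∀ x : 𝓞 F, u • algebraMap (𝓞 F) (𝓞 N) x = algebraMap (𝓞 F) (𝓞 N) x := by
    intro u hu x
    apply RingOfIntegers.ext
    exact (x : F).2 ⟨u, hu⟩
  have hFEN : algebraMap (𝓞 F) (𝓞 N) = (algebraMap (𝓞 E) (𝓞 N)).comp (algebraMap (𝓞 F) (𝓞 E)) := by
    apply RingHom.ext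
    intro x
    apply RingOfIntegers.ext
    rfl
  -- the triviality of the decomposition groups
  have hone : ∀ (P : Ideal (𝓞 E)), P.IsMaximal → P.comap (algebraMap (𝓞 F) (𝓞 E)) ≠ v →
      ∀ g ∈ decomp F P, ((m : 𝓞 E) ∈ P ∨ g ∈ inertia F P) → g = 1 := by
    intro P hP hPv g hg hcase
    obtain ⟨h, Q, hhg, hQ, hQP, hhQ⟩ := lift_decomp (N := N) hP hg
    let w := Q.comap (algebraMap (𝓞 L) (𝓞 N))
    have hmain : Special K m w → g = 1 := by
      intro hsp
      rcases hgood _ (hUmem h) Q hQ (mem_decomp_iff.mp (hdec h Q hhQ)) hsp with h1 | ⟨u, hu, hQu⟩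
      · have h3 : π h = 1 := hker h h1
        rw [← hhg]
        exact h3
      · exfalso
        apply hPv
        rw [← hQP, Ideal.comap_comap, ← hFEN]
        ext x
        rw [Ideal.mem_comap, Ideal.mem_comap, hQu, Ideal.mem_pointwise_smul_iff_inv_smul_mem,
          hUF _ (inv_mem hu)]
    rcases hcase with hm | hi
    · apply hmain
      left
      rw [Ideal.mem_comap, map_natCast]
      have h1 : algebraMap (𝓞 E) (𝓞 N) (m : 𝓞 E) ∈ Q := by
        rw [← Ideal.mem_comap, hQP]
        exact hm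
      rwa [map_natCast] at h1
    · by_cases hsp : Special K m w
      · exact hmain hsp
      have h2 : ρ h = 1 := by
        by_contra hne
        refine hsp (Or.inr ⟨ρ h, fun x => ?_, hne⟩)
        rw [Ideal.mem_comap, map_sub]
        have h7 : algebraMap (𝓞 L) (𝓞 N) (gi (ρ h) x) = gi h (algebraMap (𝓞 L) (𝓞 N) x) := by
          apply RingOfIntegers.ext
          change algebraMap L N (ρ h (x : L)) = h (algebraMap L N (x : L))
          rw [hρ]
        have hxE : algebraMap L N (x : L) ∈ E := by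
          have h0 : algebraMap L N (x : L) ∈ IntermediateField.fixedField E.fixingSubgroup := by
            rintro ⟨r, hr⟩
            change r (algebraMap L N (x : L)) = _
            have hπr : π r = 1 := by
              ext y
              have h8 := res_apply (L := E) r y
              change algebraMap E N (π r y) = r (y : N) at h8
              rw [(IntermediateField.mem_fixingSubgroup_iff _ _).mp hr _ y.2] at h8
              exact h8
            have hρr : ρ r = 1 := by rw [← hρ', hπr, map_one]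
            rw [← hρ, hρr]
            rfl
          rwa [IsGalois.fixedField_fixingSubgroup] at h0
        have hyi : IsIntegral ℤ (⟨algebraMap L N (x : L), hxE⟩ : E) := by
          have h4 : Function.Injective (algebraMap E N) := (algebraMap E N).injective
          rw [← isIntegral_algebraMap_iff (R := ℤ) h4]
          exact (RingOfIntegers.isIntegral_coe (algebraMap (𝓞 L) (𝓞 N) x))
        let y : 𝓞 E := ⟨⟨algebraMap L N (x : L), hxE⟩, hyi⟩
        have h3 : algebraMap (𝓞 E) (𝓞 N) (gi g y - y) ∈ Q := by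
          rw [← Ideal.mem_comap, hQP]
          exact hi y
        have h6 : algebraMap (𝓞 L) (𝓞 N) x = algebraMap (𝓞 E) (𝓞 N) y := by
          apply RingOfIntegers.ext
          rfl
        have h8 : gi h (algebraMap (𝓞 L) (𝓞 N) x) = algebraMap (𝓞 E) (𝓞 N) (gi g y) := by
          apply RingOfIntegers.ext
          change h (algebraMap L N (x : L)) = algebraMap E N (g ((y : 𝓞 E) : E))
          rw [← hhg, res_apply]
          rfl
        rw [h7, h8, h6, ← map_sub]
        exact h3
      have h3 : π h = 1 := hker h h2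
      rw [← hhg]
      exact h3
  refine hA.lin F E hF v ?_ ?_ ?_ (ψ.comp ρ')
  · intro P hP hPv g hg
    exact hone P hP hPv g (inertia_sub P hg) (Or.inr hg)
  · intro P hP hPv hm g hg
    exact hone P hP hPv g hg (Or.inl hm)
  · intro P hP hPv g
    rcases hQ₀ with hbot | hmax
    · exfalso
      have h1 : P.comap (algebraMap (𝓞 F) (𝓞 E)) = ⊥ := by
        rw [hPv]
        change Q₀.comap (algebraMap (𝓞 F) (𝓞 N)) = ⊥
        rw [hbot]
        have hinj' : Function.Injective (algebraMap (𝓞 F) (𝓞 N)) :=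
          FaithfulSMul.algebraMap_injective _ _
        rw [← RingHom.ker_eq_comap_bot]
        exact (RingHom.injective_iff_ker_eq_bot _).mp hinj'
      have h2 : P = ⊥ := Ideal.eq_bot_of_comap_eq_bot h1
      exact Ring.ne_bot_of_isMaximal_of_not_isField hP (RingOfIntegers.not_isField E) h2
    · let P' : Ideal (𝓞 E) := Q₀.comap (algebraMap (𝓞 E) (𝓞 N))
      have hP'p : P'.IsPrime := Ideal.IsPrime.comap _
      have hP'v : P'.comap (algebraMap (𝓞 F) (𝓞 E)) = v := by
        rw [Ideal.comap_comap, ← hFEN]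
      have hfix : ∀ g : E ≃ₐ[F] E, g ∈ decomp F P' := by
        intro g
        obtain ⟨h, rfl⟩ := hπ g
        obtain ⟨u', hu', hu'Q, hu'r⟩ := hfull _ (hUmem h)
        let h' := e ⟨u', hu'⟩
        have h1 : ρ h' = ρ h := by
          change res (e.symm (e ⟨u', hu'⟩) : N ≃ₐ[K] N) = res (e.symm h : N ≃ₐ[K] N)
          rw [MulEquiv.symm_apply_apply]
          exact hu'r
        have h2 : π h' = π h := hinj (by rw [hρ', hρ', h1])
        rw [← h2]
        intro x
        have h3 : algebraMap (𝓞 E) (𝓞 N) (gi (π h') x) = gi u' (algebraMap (𝓞 E) (𝓞 N) x) := by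
          apply RingOfIntegers.ext
          change algebraMap E N (π h' (x : E)) = u' (algebraMap E N (x : E))
          exact res_apply (L := E) h' (x : E)
        rw [Ideal.mem_comap, Ideal.mem_comap, h3]
        exact mem_decomp_iff.mpr hu'Q _
      have hfinE : FiniteDimensional F E := Module.Finite.of_restrictScalars_finite ℚ F E
      have hPp : P.IsPrime := hP.isPrime
      obtain ⟨τ, hτ⟩ := Algebra.IsInvariant.exists_smul_of_under_eq (𝓞 F) (𝓞 E) (E ≃ₐ[F] E)
        P' P (by
          change P'.comap (algebraMap (𝓞 F) (𝓞 E)) = P.comap (algebraMap (𝓞 F) (𝓞 E))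
          rw [hP'v, hPv])
      have h4 : τ • P' = P' := mem_decomp_iff.mp (hfix τ)
      rw [hτ, h4]
      exact hfix g

/-- small subgroups -/
theorem ind_small {n : ℕ} (hA : Small A n)
    (hn : Nat.card (L ≃ₐ[K] L) ≤ n) (U : Subgroup (N ≃ₐ[K] N))
    (hU : U.map (AlgEquiv.restrictNormalHom L) ≠ ⊤)
    (hF : IsTotallyComplex (IntermediateField.fixedField U)) (ψ : (L ≃ₐ[K] L) →* ℂˣ) :
    ind U (fun u => lc ψ (AlgEquiv.restrictNormalHom L (u : N ≃ₐ[K] N)))
      ∈ TT A (K := K) (L := N) ⊥ := by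
  classical
  refine ind_gen U ψ fun E hE ρ' hinj hρ' => hA _ E hF ?_ (ψ.comp ρ')
  have hfin : FiniteDimensional K N := Module.Finite.of_restrictScalars_finite ℚ K N
  have hfinL : FiniteDimensional K L := Module.Finite.of_restrictScalars_finite ℚ K L
  let F := IntermediateField.fixedField U
  have hfinF : FiniteDimensional F N := Module.Finite.of_restrictScalars_finite ℚ F N
  let e : U ≃* (N ≃ₐ[F] N) := IntermediateField.subgroupEquivAlgEquiv U
  have he : ∀ h : N ≃ₐ[F] N, (e.symm h : N ≃ₐ[K] N) = h.restrictScalars K := by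
    intro h
    obtain ⟨u, rfl⟩ := e.surjective h
    rw [MulEquiv.symm_apply_apply]
    ext x
    rfl
  have hπ : Function.Surjective (AlgEquiv.restrictNormalHom (F := F) (K₁ := N) E) :=
    AlgEquiv.restrictNormalHom_surjective N
  have h1 : ρ'.range ≤ U.map (AlgEquiv.restrictNormalHom L) := by
    rintro _ ⟨x, rfl⟩
    obtain ⟨h, rfl⟩ := hπ x
    rw [hρ' (e.symm h) h (he h)]
    exact Subgroup.mem_map_of_mem _ (e.symm h).2
  have h2 : Nat.card (E ≃ₐ[F] E) = Nat.card ρ'.range :=
    Nat.card_congr (MonoidHom.ofInjective hinj).toEquiv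
  have h3 : ρ'.range < ⊤ := lt_of_le_of_lt h1 (lt_top_iff_ne_top.mpr hU)
  have h4 : Nat.card ρ'.range < Nat.card (L ≃ₐ[K] L) := by
    by_contra h5
    exact h3.ne (Subgroup.eq_top_of_le_card _ (not_lt.mp h5))
  change Nat.card (E ≃ₐ[F] E) < n
  omega

/-- intermediate fields over totally complex fields -/
lemma fixed_complex' (hK : IsTotallyComplex K) (U : Subgroup (N ≃ₐ[K] N)) :
    IsTotallyComplex (IntermediateField.fixedField U) := by
  apply fixed_complex
  rintro c ⟨φ, hφ⟩ _
  have h1 : IsReal (φ.comp (algebraMap K N)) := hφ.isReal_comp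
  have h2 := hK.isComplex (InfinitePlace.mk (φ.comp (algebraMap K N)))
  rw [InfinitePlace.isComplex_mk_iff] at h2
  exact h2 h1

end split

end Pool.Agent.K4H36.ST
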