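import Mathlib
import Pool.Agent.K4H36.ST.Fld

/-!
# Decomposition groups of different primes (a finite version of a theorem of F. K. Schmidt and
Neukirch)
-/

set_option autoImplicit false
set_option linter.unusedSectionVars false

namespace Pool.Agent.K4H36.ST

open NumberField Pointwise Polynomial

/-- the primes which contain a given integer -/
abbrev PT (N : Type) [Field N] [NumberField N] (t : ℕ) : Type :=
  {w : Ideal (𝓞 N) // w.IsPrime ∧ (t : 𝓞 N) ∈ w}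

lemma finite_PT (N : Type) [Field N] [NumberField N] {t : ℕ} (ht : t ≠ 0) : Finite (PT N t) := by
  have h0 : Ideal.span {(t : 𝓞 N)} ≠ 0 := by
    rw [Ne, Ideal.zero_eq_bot, Ideal.span_singleton_eq_bot]
    exact_mod_cast ht
  have h1 := Ideal.finite_factors h0
  let f : PT N t → {v : IsDedekindDomain.HeightOneSpectrum (𝓞 N) |
      v.asIdeal ∣ Ideal.span {(t : 𝓞 N)}} := fun w =>
    ⟨⟨w.1, w.2.1, ne_bot_of ht w.2.2⟩, by
      change w.1 ∣ _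
      rw [Ideal.dvd_iff_le, Ideal.span_singleton_le_iff_mem]
      exact w.2.2⟩
  have : Finite {v : IsDedekindDomain.HeightOneSpectrum (𝓞 N) |
      v.asIdeal ∣ Ideal.span {(t : 𝓞 N)}} := h1
  refine Finite.of_injective f fun a b hab => ?_
  apply Subtype.ext
  have := congrArg (fun z => (z : IsDedekindDomain.HeightOneSpectrum (𝓞 N)).asIdeal)
    (congrArg Subtype.val hab)
  exact this

section sub

variable {R G : Type} [CommRing R] [Group G] [MulSemiringAction G R]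

lemma sub_smul_ideal {H : Subgroup G} (g : H) (w : Ideal R) : g • w = (g : G) • w := rfl

end sub

section

variable {K N : Type} [Field K] [NumberField K] [Field N] [NumberField N] [Algebra K N]
  [IsGalois K N]

/-- the conjugates of an element -/
noncomputable def orb (G : Type) {R : Type} [Group G] [Finite G] [CommRing R]
    [MulSemiringAction G R] (x : R) : Finset R :=
  (Set.toFinite (Set.range (fun g : G => g • x))).toFinset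

lemma mem_orb {G R : Type} [Group G] [Finite G] [CommRing R]
    [MulSemiringAction G R] {x y : R} : y ∈ orb G x ↔ ∃ g : G, g • x = y := by
  simp [orb]

/-- the integers below `d` -/
def ints (R : Type) [CommRing R] [DecidableEq R] (d : ℕ) : Finset R :=
  (Finset.range d).image (fun k : ℕ => (k : R))

lemma ints_card (R : Type) [CommRing R] [DecidableEq R] [CharZero R] (d : ℕ) :
    (ints R d).card = d := by
  rw [ints, Finset.card_image_of_injective _ Nat.cast_injective, Finset.card_range]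

lemma smul_ints {G R : Type} [Group G] [CommRing R] [DecidableEq R]
    [MulSemiringAction G R] {d : ℕ} {x : R} (hx : x ∈ ints R d) (g : G) : g • x = x := by
  rw [ints, Finset.mem_image] at hx
  obtain ⟨k, -, rfl⟩ := hx
  exact map_natCast (MulSemiringAction.toRingHom G R g) k

/-- the polynomial which is close to the polynomial of the conjugates of `θ` at one prime and to
a polynomial with integral roots at another one -/
lemma exists_two (H : Subgroup (N ≃ₐ[K] N)) (θ : 𝓞 N) (w₁ w₂ : Ideal (𝓞 N)) (h₁ : w₁.IsPrime)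
    (h₂ : w₂.IsPrime) (h₁' : w₁ ≠ ⊥) (h₂' : w₂ ≠ ⊥) (hne : ∀ g ∈ H, g • w₂ ≠ w₁) :
    ∃ (h : (𝓞 N)[X]) (c : 𝓞 N) (d : ℕ) (X₂ : Finset (𝓞 N)), h.Monic ∧ h.natDegree = d ∧
      (∀ g ∈ H, ∀ k, g • h.coeff k = h.coeff k) ∧ c ≠ 0 ∧ (∀ g ∈ H, g • c = c) ∧
      (∀ x ∈ X₂, ∀ g : N ≃ₐ[K] N, g • x = x) ∧
      (orb (N ≃ₐ[K] N) θ).card = d ∧ X₂.card = d ∧
      (∀ x ∈ orb (N ≃ₐ[K] N) θ, ∀ y ∈ orb (N ≃ₐ[K] N) θ, x ≠ y → ∃ b ∈ w₁, c = (x - y) * b) ∧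
      (∀ x ∈ X₂, ∀ y ∈ X₂, x ≠ y → ∃ b ∈ w₂, c = (x - y) * b) ∧
      PolCong w₁ (c ^ d) h (pol (orb (N ≃ₐ[K] N) θ)) ∧ PolCong w₂ (c ^ d) h (pol X₂) := by
  classical
  let X₁ := orb (N ≃ₐ[K] N) θ
  let d := X₁.card
  let X₂ := ints (𝓞 N) d
  let w : Bool → Ideal (𝓞 N) := fun i => if i then w₁ else w₂
  let X : Bool → Finset (𝓞 N) := fun i => if i then X₁ else X₂
  have hw : ∀ i, (w i).IsPrime := by
    rintro (_ | _)
    · exact h₂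
    · exact h₁
  have hw0 : ∀ i, w i ≠ ⊥ := by
    rintro (_ | _)
    · exact h₂'
    · exact h₁'
  have hd : ∀ i, (X i).card = d := by
    rintro (_ | _)
    · exact ints_card _ _
    · rfl
  have hnc : ∀ i j, i ≠ j → ∀ g : H, g • w j ≠ w i := by
    rintro (_ | _) (_ | _) hij g
    · exact absurd rfl hij
    · intro h
      change g • w₁ = w₂ at h
      rw [sub_smul_ideal] at h
      apply hne (g : N ≃ₐ[K] N)⁻¹ (inv_mem g.2)
      rw [← h, inv_smul_smul]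
    · intro h
      change g • w₂ = w₁ at h
      rw [sub_smul_ideal] at h
      exact hne _ g.2 h
    · exact absurd rfl hij
  have hX : ∀ i, ∀ g : H, ∀ x ∈ X i, g • x ∈ X i := by
    rintro (_ | _) g x hx
    · change g • x ∈ X₂
      rw [smul_ints hx]
      exact hx
    · change x ∈ X₁ at hx
      change g • x ∈ X₁
      rw [mem_orb] at hx ⊢
      obtain ⟨k, rfl⟩ := hx
      exact ⟨g * k, mul_smul _ _ _⟩
  obtain ⟨c, hc, hcG, hsep⟩ := exists_sep H w hw0 X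
  obtain ⟨h, hm, hdeg, hinv, hcong⟩ := exists_pol (G := H) w hw hw0 hnc X d hd
    (fun i g _ => hX i g) (c ^ d) (pow_ne_zero _ hc) (fun g => by rw [smul_pow', hcG])
  refine ⟨h, c, d, X₂, hm, hdeg, fun g hg k => hinv ⟨g, hg⟩ k, hc, fun g hg => hcG ⟨g, hg⟩,
    fun x hx g => smul_ints hx g, rfl, ints_card _ _, hsep true, hsep false, hcong true,
    hcong false⟩

variable {N₁ : Type} [Field N₁] [NumberField N₁] [Algebra K N₁] [IsGalois K N₁] [Algebra N N₁]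
  [IsScalarTower K N N₁]

/-- the roots are permuted -/
lemma root_smul (σ : N₁ ≃ₐ[K] N₁) (h : (𝓞 N)[X]) (hinv : ∀ k, rs K N N₁ σ • h.coeff k = h.coeff k)
    (m : Multiset (𝓞 N₁))
    (hm : h.map (algebraMap (𝓞 N) (𝓞 N₁)) = (m.map (fun t => X - C t)).prod) {t : 𝓞 N₁}
    (ht : t ∈ m) : σ • t ∈ m := by
  have hev : ∀ u : 𝓞 N₁, (h.map (algebraMap (𝓞 N) (𝓞 N₁))).eval u = 0 ↔ u ∈ m := by
    intro u
    rw [hm, eval_multiset_prod, Multiset.map_map, Multiset.prod_eq_zero_iff, Multiset.mem_map]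
    constructor
    · rintro ⟨v, hv, hv2⟩
      simp only [Function.comp, eval_sub, eval_X, eval_C] at hv2
      rw [sub_eq_zero] at hv2
      rwa [hv2]
    · intro hu
      exact ⟨u, hu, by simp⟩
  have h1 : (h.map (algebraMap (𝓞 N) (𝓞 N₁))).map
      (MulSemiringAction.toRingHom (N₁ ≃ₐ[K] N₁) (𝓞 N₁) σ) = h.map (algebraMap (𝓞 N) (𝓞 N₁)) := by
    ext1 k
    rw [coeff_map, coeff_map]
    change σ • algebraMap (𝓞 N) (𝓞 N₁) (h.coeff k) = _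
    rw [← rs_smul, hinv]
  rw [← hev, ← h1]
  have h2 := (hev t).mpr ht
  have h3 : (MulSemiringAction.toRingHom (N₁ ≃ₐ[K] N₁) (𝓞 N₁) σ) t = σ • t := rfl
  rw [← h3, eval_map, eval₂_hom, h2, map_zero]

/-- the finite version of the theorem of F. K. Schmidt and Neukirch, for one polynomial -/
lemma neukirch_aux (H : Subgroup (N ≃ₐ[K] N)) {θ : 𝓞 N}
    (hθ : ∀ g : N ≃ₐ[K] N, g • θ = θ → g = 1) {w₁ w₂ : Ideal (𝓞 N)} {h : (𝓞 N)[X]} {c : 𝓞 N}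
    {d : ℕ} {X₂ : Finset (𝓞 N)} (hdeg : h.natDegree = d)
    (hinv : ∀ g ∈ H, ∀ k, g • h.coeff k = h.coeff k) (hc : c ≠ 0) (hcG : ∀ g ∈ H, g • c = c)
    (hX₂ : ∀ x ∈ X₂, ∀ g : N ≃ₐ[K] N, g • x = x)
    (hd₁ : (orb (N ≃ₐ[K] N) θ).card = d) (hd₂ : X₂.card = d)
    (hs₁ : ∀ x ∈ orb (N ≃ₐ[K] N) θ, ∀ y ∈ orb (N ≃ₐ[K] N) θ, x ≠ y →
      ∃ b ∈ w₁, c = (x - y) * b)
    (hs₂ : ∀ x ∈ X₂, ∀ y ∈ X₂, x ≠ y → ∃ b ∈ w₂, c = (x - y) * b)
    (hp₁ : PolCong w₁ (c ^ d) h (pol (orb (N ≃ₐ[K] N) θ))) (hp₂ : PolCong w₂ (c ^ d) h (pol X₂))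
    (m : Multiset (𝓞 N₁))
    (hm : h.map (algebraMap (𝓞 N) (𝓞 N₁)) = (m.map (fun t => X - C t)).prod)
    (Q₁ Q₂ : Ideal (𝓞 N₁)) (hQ₁ : Q₁.IsPrime) (hQ₂ : Q₂.IsPrime) (h₁ : dn N Q₁ = w₁)
    (h₂ : dn N Q₂ = w₂) (hb₁ : Q₁ ≠ ⊥) (hb₂ : Q₂ ≠ ⊥) (σ : N₁ ≃ₐ[K] N₁) (hσ₁ : σ • Q₁ = Q₁)
    (hσ₂ : σ • Q₂ = Q₂) (hσH : rs K N N₁ σ ∈ H) : rs K N N₁ σ = 1 := by
  classical
  have hcard : Multiset.card m = d := by
    have h3 : Function.Injective (algebraMap (𝓞 N) (𝓞 N₁)) := algMap_inj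
    have := congrArg natDegree hm
    rw [natDegree_map_eq_of_injective h3, hdeg, natDegree_multiset_prod_X_sub_C_eq_card] at this
    exact this.symm
  have n₁ := near_of_cong (S := 𝓞 N₁) algMap_inj Q₁ hb₁ w₁ h₁ (orb (N ≃ₐ[K] N) θ) c hc hs₁ h
    (by rw [hd₁]; exact hp₁) m hm (by rw [hcard, hd₁])
  have n₂ := near_of_cong (S := 𝓞 N₁) algMap_inj Q₂ hb₂ w₂ h₂ X₂ c hc hs₂ h
    (by rw [hd₂]; exact hp₂) m hm (by rw [hcard, hd₂])
  have hcσ : σ • algebraMap (𝓞 N) (𝓞 N₁) c = algebraMap (𝓞 N) (𝓞 N₁) c := by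
    rw [← rs_smul, hcG _ hσH]
  have hfix : ∀ t ∈ m, σ • t = t := by
    intro t ht
    obtain ⟨x, hx, hx2⟩ := n₂.right t ht
    have h3 := hx2.smul σ hcσ
    rw [hσ₂, smul_sub] at h3
    have h4 : σ • x = x := by
      obtain ⟨y, hy, rfl⟩ := Finset.mem_image.mp hx
      rw [← rs_smul, hX₂ y hy]
    rw [h4] at h3
    exact n₂.uniq_left x hx _ (root_smul σ h (hinv _ hσH) m hm ht) t ht h3 hx2
  apply hθ
  have hθm : algebraMap (𝓞 N) (𝓞 N₁) θ ∈ (orb (N ≃ₐ[K] N) θ).image (algebraMap (𝓞 N) (𝓞 N₁)) :=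
    Finset.mem_image_of_mem _ (mem_orb.mpr ⟨1, one_smul _ _⟩)
  have hθm' : σ • algebraMap (𝓞 N) (𝓞 N₁) θ ∈
      (orb (N ≃ₐ[K] N) θ).image (algebraMap (𝓞 N) (𝓞 N₁)) := by
    rw [← rs_smul]
    exact Finset.mem_image_of_mem _ (mem_orb.mpr ⟨_, rfl⟩)
  obtain ⟨t, ht, ht2⟩ := n₁.left _ hθm
  have h3 := ht2.smul σ hcσ
  rw [hσ₁, smul_sub, hfix t ht] at h3
  have h4 := n₁.uniq_right t ht _ hθm _ hθm' ht2 h3
  rw [← rs_smul] at h4
  exact (algMap_inj h4).symm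

end

/-- **A finite version of the theorem of F. K. Schmidt and Neukirch.** -/
theorem neukirch (K N : Type) [Field K] [NumberField K] [Field N] [NumberField N] [Algebra K N]
    [IsGalois K N] (t : ℕ) (ht : t ≠ 0) :
    ∃ (N₁ : Type) (_ : Field N₁) (_ : NumberField N₁) (_ : Algebra K N₁) (_ : Algebra N N₁)
      (_ : IsScalarTower K N N₁) (_ : IsGalois K N₁),
      ∀ Q₁ Q₂ : Ideal (𝓞 N₁), Q₁.IsPrime → Q₂.IsPrime → (t : 𝓞 N₁) ∈ Q₁ → (t : 𝓞 N₁) ∈ Q₂ →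
        dn N Q₁ ≠ dn N Q₂ → ∀ σ : N₁ ≃ₐ[K] N₁, σ • Q₁ = Q₁ → σ • Q₂ = Q₂ → rs K N N₁ σ = 1 := by
  classical
  obtain ⟨θ, hθ⟩ := exists_prim K N
  have hPT := finite_PT N ht
  let Z := Subgroup (N ≃ₐ[K] N) × PT N t × PT N t
  have hZ : Fintype Z := Fintype.ofFinite Z
  have h1 : ∀ z : Z, ∃ (h : (𝓞 N)[X]) (c : 𝓞 N) (d : ℕ) (X₂ : Finset (𝓞 N)), h.Monic ∧
      ((∀ g ∈ z.1, g • z.2.2.1 ≠ z.2.1.1) → h.natDegree = d ∧
      (∀ g ∈ z.1, ∀ k, g • h.coeff k = h.coeff k) ∧ c ≠ 0 ∧ (∀ g ∈ z.1, g • c = c) ∧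
      (∀ x ∈ X₂, ∀ g : N ≃ₐ[K] N, g • x = x) ∧
      (orb (N ≃ₐ[K] N) θ).card = d ∧ X₂.card = d ∧
      (∀ x ∈ orb (N ≃ₐ[K] N) θ, ∀ y ∈ orb (N ≃ₐ[K] N) θ, x ≠ y →
        ∃ b ∈ z.2.1.1, c = (x - y) * b) ∧
      (∀ x ∈ X₂, ∀ y ∈ X₂, x ≠ y → ∃ b ∈ z.2.2.1, c = (x - y) * b) ∧
      PolCong z.2.1.1 (c ^ d) h (pol (orb (N ≃ₐ[K] N) θ)) ∧
      PolCong z.2.2.1 (c ^ d) h (pol X₂)) := by
    intro z
    by_cases hz : ∀ g ∈ z.1, g • z.2.2.1 ≠ z.2.1.1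
    · obtain ⟨h, c, d, X₂, h2, h3⟩ := exists_two z.1 θ z.2.1.1 z.2.2.1 z.2.1.2.1 z.2.2.2.1
        (ne_bot_of ht z.2.1.2.2) (ne_bot_of ht z.2.2.2.2) hz
      exact ⟨h, c, d, X₂, h2, fun _ => h3⟩
    · exact ⟨1, 0, 0, ∅, monic_one, fun h => absurd h hz⟩
  choose h c d X₂ hmon hz using h1
  obtain ⟨N₁, i1, i2, i3, i4, i5, i6, hN⟩ := exists_split K N
    (Finset.univ.image (fun z : Z => (h z).map (algebraMap (𝓞 N) N))) (by
      intro p hp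
      obtain ⟨z, -, rfl⟩ := Finset.mem_image.mp hp
      exact ((hmon z).map _).ne_zero)
  refine ⟨N₁, i1, i2, i3, i4, i5, i6, ?_⟩
  intro Q₁ Q₂ hQ₁ hQ₂ ht₁ ht₂ hne σ hσ₁ hσ₂
  have hm₁ : (t : 𝓞 N) ∈ dn N Q₁ := by
    rw [Ideal.mem_comap, map_natCast]
    exact ht₁
  have hm₂ : (t : 𝓞 N) ∈ dn N Q₂ := by
    rw [Ideal.mem_comap, map_natCast]
    exact ht₂
  let z : Z := ⟨Subgroup.zpowers (rs K N N₁ σ), ⟨dn N Q₁, Ideal.IsPrime.comap _, hm₁⟩,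
    ⟨dn N Q₂, Ideal.IsPrime.comap _, hm₂⟩⟩
  have hs₁ : rs K N N₁ σ • dn N Q₁ = dn N Q₁ := by rw [← dn_smul, hσ₁]
  have hcond : ∀ g ∈ z.1, g • z.2.2.1 ≠ z.2.1.1 := by
    intro g hg h2
    change g • dn N Q₂ = dn N Q₁ at h2
    apply hne
    have h3 : g⁻¹ ∈ MulAction.stabilizer (N ≃ₐ[K] N) (dn N Q₁) := by
      apply inv_mem
      have h4 : Subgroup.zpowers (rs K N N₁ σ) ≤ MulAction.stabilizer (N ≃ₐ[K] N) (dn N Q₁) := by
        rw [Subgroup.zpowers_le]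
        exact hs₁
      exact h4 hg
    rw [MulAction.mem_stabilizer_iff] at h3
    rw [← h3, ← h2, inv_smul_smul]
  obtain ⟨hdeg, hinv, hc, hcG, hX, hd₁, hd₂, hs₁', hs₂', hp₁, hp₂⟩ := hz z hcond
  have hsp := hN _ (Finset.mem_image_of_mem _ (Finset.mem_univ z))
  obtain ⟨m, hm⟩ := exists_roots ((h z).map (algebraMap (𝓞 N) (𝓞 N₁))) ((hmon z).map _) (by
    rw [Polynomial.map_map] at hsp ⊢
    exact hsp)
  exact neukirch_aux z.1 hθ hdeg hinv hc hcG hX hd₁ hd₂ hs₁' hs₂' hp₁ hp₂ m hm Q₁ Q₂ hQ₁ hQ₂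
    rfl rfl (ne_bot_of ht ht₁) (ne_bot_of ht ht₂) σ hσ₁ hσ₂ (Subgroup.mem_zpowers _)

end Pool.Agent.K4H36.ST
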