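import Mathlib
import Pool.Agent.K4H36.ST.Good
import Pool.Agent.K4H36.ST.Art
import Pool.Agent.K4H36.ST.Neu

/-!
# Products of a linear character with permutation characters: locality
-/

set_option autoImplicit false
set_option linter.unusedSectionVars false

namespace Pool.Agent.K4H36.ST

open NumberField NumberField.ComplexEmbedding Pool.Agent.R389 Pool.Agent.K4H74.ST Pool.Agent.K4H77.SL
open scoped Pointwise
open MulAction

/-- integral combinations of permutation characters -/
def PP (G : Type) [Group G] : AddSubgroup (G → ℂ) :=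
  AddSubgroup.closure {φ | ∃ (X : Type) (_ : MulAction G X) (_ : Finite X), φ = fixn G X}

section pp

variable {G : Type} [Group G]

lemma fixn_conj (X : Type) [MulAction G X] (g x : G) : fixn G X (x * g * x⁻¹) = fixn G X g := by
  unfold fixn
  congr 1
  refine Nat.card_congr ⟨fun y => ⟨x⁻¹ • y.1, ?_⟩, fun y => ⟨x • y.1, ?_⟩, ?_, ?_⟩
  · have h := y.2
    have h1 : g • x⁻¹ • y.1 = x⁻¹ • ((x * g * x⁻¹) • y.1) := by
      rw [← mul_smul, ← mul_smul]
      congr 1
      group
    rw [h1, h]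
  · have h := y.2
    have h1 : (x * g * x⁻¹) • x • y.1 = x • g • y.1 := by
      rw [← mul_smul, ← mul_smul]
      congr 1
      group
    rw [h1, h]
  · intro y
    apply Subtype.ext
    change x • x⁻¹ • y.1 = y.1
    rw [smul_inv_smul]
  · intro y
    apply Subtype.ext
    change x⁻¹ • x • y.1 = y.1
    rw [inv_smul_smul]

lemma PP.conj {φ : G → ℂ} (h : φ ∈ PP G) (g x : G) : φ (x * g * x⁻¹) = φ g := by
  refine AddSubgroup.closure_induction (p := fun φ _ => φ (x * g * x⁻¹) = φ g) ?_ ?_ ?_ ?_ h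
  · rintro _ ⟨X, _, _, rfl⟩
    exact fixn_conj X g x
  · rfl
  · intro a b _ _ ha hb
    rw [Pi.add_apply, Pi.add_apply, ha, hb]
  · intro a _ ha
    rw [Pi.neg_apply, Pi.neg_apply, ha]

variable [Finite G]

/-- the restriction of the product of a class function with a permutation character to a
subgroup -/
lemma ind_mul_perm {lam : G → ℂ} (hlam : ∀ g x : G, lam (x * g * x⁻¹) = lam g)
    (S : AddSubgroup (G → ℂ)) (B : Subgroup G)
    (hS : ∀ C ≤ B, ind C (fun c => lam c) ∈ S) {H : Type} [Group H] (π : G →* H) {φ : H → ℂ}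
    (hφ : φ ∈ PP H) : ind B (fun b => lam b * φ (π b)) ∈ S := by
  let Φ : (H → ℂ) →+ (G → ℂ) := AddMonoidHom.mk' (fun φ => ind B (fun b => lam b * φ (π b)))
    (fun a b => by
      rw [← ind_add]
      congr 1
      funext g
      change lam g * (a _ + b _) = lam g * a _ + lam g * b _
      ring)
  have h1 : PP H ≤ S.comap Φ := by
    rw [PP, AddSubgroup.closure_le]
    rintro _ ⟨X, _, _, rfl⟩
    let _ : MulAction B X := MulAction.compHom X (π.comp B.subtype)
    have h2 : (fun b : B => lam b * fixn B X b) ∈ S.comap (indHom B) := by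
      refine mul_fixn_mem (f := fun b : B => lam b) (fun g x => hlam (g : G) (x : G)) _ X fun x => ?_
      rw [AddSubgroup.mem_comap, indHom_apply, ind_ind]
      have h3 := hS ((stabilizer B x).map B.subtype) (by
        rintro _ ⟨y, -, rfl⟩
        exact y.2)
      convert h3 using 2
      funext y
      change lam _ = lam _
      congr 1
      have h4 := (((stabilizer B x).equivMapOfInjective B.subtype
        B.subtype_injective).apply_symm_apply y)
      exact congrArg Subtype.val h4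
    exact h2
  exact h1 hφ

lemma mul_perm_mem {lam : G → ℂ} (hlam : ∀ g x : G, lam (x * g * x⁻¹) = lam g)
    (S : AddSubgroup (G → ℂ)) (hS : ∀ C : Subgroup G, ind C (fun c => lam c) ∈ S) {φ : G → ℂ}
    (hφ : φ ∈ PP G) : (fun g => lam g * φ g) ∈ S := by
  let Φ : (G → ℂ) →+ (G → ℂ) := AddMonoidHom.mk' (fun φ g => lam g * φ g)
    (fun a b => by
      funext g
      change lam g * (a _ + b _) = lam g * a _ + lam g * b _
      ring)
  have h1 : PP G ≤ S.comap Φ := by
    rw [PP, AddSubgroup.closure_le]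
    rintro _ ⟨X, _, _, rfl⟩
    exact mul_fixn_mem hlam S X fun x => hS _
  exact h1 hφ

end pp

section loc

variable {M : Type} [CommGroup M] {A : ArtinInvariant M} {m : ℕ}

variable {K L N : Type} [Field K] [NumberField K] [Field L] [NumberField L] [Field N]
  [NumberField N] [Algebra K L] [Algebra L N] [Algebra K N] [IsScalarTower K L N] [IsGalois K L]
  [IsGalois K N]

lemma isMaximal_of {Q : Ideal (𝓞 N)} {t : ℕ} (ht : t ≠ 0) (hQ : Q.IsPrime) (h : (t : 𝓞 N) ∈ Q) :
    Q.IsMaximal := hQ.isMaximal (ne_bot_of ht h)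

/-- inflation of values -/
lemma Val.infl {N₁ : Type} [Field N₁] [NumberField N₁] [Algebra K N₁] [IsGalois K N₁] [Algebra N N₁]
    [IsScalarTower K N N₁] {f : (N ≃ₐ[K] N) → ℂ} {v : M} (h : Val A K N f v) :
    Val A K N₁ (fun g => f (rs K N N₁ g)) v := by
  obtain ⟨χ, χ', hχ, hχ', rfl, rfl⟩ := h
  exact ⟨fun g => χ (rs K N N₁ g), fun g => χ' (rs K N N₁ g), IsChar.comp hχ _, IsChar.comp hχ' _,
    rfl, by rw [A.val_infl K N N₁ χ hχ, A.val_infl K N N₁ χ' hχ']⟩

lemma lc_class {G H : Type} [Group G] [Group H] (ψ : H →* ℂˣ) (π : G →* H) (g x : G) :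
    lc ψ (π (x * g * x⁻¹)) = lc ψ (π g) := by
  unfold lc
  have h1 : ψ (π (x * g * x⁻¹)) = ψ (π g) := by
    rw [map_mul, map_mul, map_inv, map_mul, map_mul, map_inv, mul_comm (ψ (π x)), mul_assoc,
      mul_inv_cancel, mul_one]
  rw [h1]

lemma ind_lin_top (π : (N ≃ₐ[K] N) →* (L ≃ₐ[K] L)) (ψ : (L ≃ₐ[K] L) →* ℂˣ)
    (C : Subgroup (N ≃ₐ[K] N)) :
    ind C (fun c => lc ψ (π c)) ∈ TT A (K := K) (L := N) ⊤ := by
  have hfin : FiniteDimensional K N := Module.Finite.of_restrictScalars_finite ℚ K N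
  have hch : IsChar (ind C (fun u => lc ψ (π (u : N ≃ₐ[K] N)))) :=
    IsChar.ind_lin C (ψ.comp (π.comp C.subtype))
  rw [mem_TT_char A hch]
  exact Subgroup.mem_top _

lemma smul_bot' (g : N ≃ₐ[K] N) : g • (⊥ : Ideal (𝓞 N)) = ⊥ := by
  rw [Ideal.pointwise_smul_def, Ideal.map_bot]

theorem loc_b (hA : TrivOnePrime A m)
    (htf : ∀ (x : M) (n : ℕ), n ≠ 0 → x ^ n = 1 → x = 1) (hK : IsTotallyComplex K)
    (hS : Small A (Nat.card (L ≃ₐ[K] L))) (ψ : (L ≃ₐ[K] L) →* ℂˣ) {t : ℕ}
    (ht : t ≠ 0) (hsp : ∀ P : Ideal (𝓞 L), Special K m P → (t : 𝓞 L) ∈ P)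
    (φ : (N ≃ₐ[K] N) → ℂ) (hφ : φ ∈ PP (N ≃ₐ[K] N))
    (hint : ∀ w : Ideal (𝓞 N), w.IsPrime → (t : 𝓞 N) ∈ w → ∀ s : N ≃ₐ[K] N, s • w = w →
      Subgroup.zpowers (rs K L N s) = ⊤ → φ s = 0) :
    (fun g => lc ψ (rs K L N g) * φ g) ∈ TT A (K := K) (L := N) ⊥ := by
  classical
  obtain ⟨N₁, i1, i2, i3, i4, i5, i6, hN⟩ := neukirch K N t ht
  have hfin : FiniteDimensional K N := Module.Finite.of_restrictScalars_finite ℚ K N
  have hfin1 : FiniteDimensional K N₁ := Module.Finite.of_restrictScalars_finite ℚ K N₁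
  have hfinL : FiniteDimensional K L := Module.Finite.of_restrictScalars_finite ℚ K L
  let iLN : L →+* N₁ := (algebraMap N N₁).comp (algebraMap L N)
  let _ : Algebra L N₁ := iLN.toAlgebra
  have hLN : ∀ x, algebraMap L N₁ x = algebraMap N N₁ (algebraMap L N x) := fun x => rfl
  have hKLN : IsScalarTower K L N₁ := by
    refine IsScalarTower.of_algebraMap_eq fun x => ?_
    rw [hLN, ← IsScalarTower.algebraMap_apply K L N, ← IsScalarTower.algebraMap_apply K N N₁]
  have hres : ∀ g : N₁ ≃ₐ[K] N₁, rs K L N (rs K N N₁ g) = rs K L N₁ g := by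
    intro g
    ext x
    apply (algebraMap L N₁).injective
    rw [rs_apply, hLN, hLN]
    have h1 := rs_apply (K := K) (N := L) (N₁ := N) (rs K N N₁ g) x
    rw [h1, rs_apply]
  let lam : (N₁ ≃ₐ[K] N₁) → ℂ := fun g => lc ψ (rs K L N₁ g)
  have hlam : ∀ g x, lam (x * g * x⁻¹) = lam g := fun g x => lc_class ψ (rs K L N₁) g x
  let f : (N ≃ₐ[K] N) → ℂ := fun g => lc ψ (rs K L N g) * φ g
  let F : (N₁ ≃ₐ[K] N₁) → ℂ := fun g => lam g * φ (rs K N N₁ g)
  have hFf : F = fun g => f (rs K N N₁ g) := by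
    funext g
    change lc ψ (rs K L N₁ g) * _ = lc ψ (rs K L N (rs K N N₁ g)) * _
    rw [hres]
  have hF : ∀ g x, F (x * g * x⁻¹) = F g := by
    intro g x
    change lam (x * g * x⁻¹) * φ (rs K N N₁ (x * g * x⁻¹)) = lam g * φ (rs K N N₁ g)
    rw [hlam, map_mul, map_mul, map_inv, PP.conj hφ]
  -- the contribution of a cyclic subgroup
  have hEE : ∀ x : N₁ ≃ₐ[K] N₁, EE F (Subgroup.zpowers x) ∈ TT A (K := K) (L := N₁) ⊥ := by
    intro x
    by_cases hfull : Subgroup.zpowers (rs K L N₁ x) = ⊤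
    · by_cases hx : ∃ u ∈ Subgroup.zpowers x, ∃ Q : Ideal (𝓞 N₁), Q.IsPrime ∧ (t : 𝓞 N₁) ∈ Q ∧
          u • Q = Q ∧ rs K L N₁ u ≠ 1
      · obtain ⟨u, hu, Q, hQ, htQ, huQ, hu1⟩ := hx
        have hcomm : u * x = x * u := by
          obtain ⟨k, rfl⟩ := Subgroup.mem_zpowers_iff.mp hu
          exact (Commute.zpow_self x k).eq
        have htx : (t : 𝓞 N₁) ∈ x • Q := by
          rw [Ideal.mem_pointwise_smul_iff_inv_smul_mem]
          have h1 : x⁻¹ • (t : 𝓞 N₁) = (t : 𝓞 N₁) :=
            map_natCast (MulSemiringAction.toRingHom (N₁ ≃ₐ[K] N₁) (𝓞 N₁) x⁻¹) t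
          rw [h1]
          exact htQ
        have hdn : dn N Q = dn N (x • Q) := by
          by_contra hne
          have h1 := hN Q (x • Q) hQ (Ideal.IsPrime.smul x) htQ htx hne u huQ (by
            rw [← mul_smul, hcomm, mul_smul, huQ])
          apply hu1
          rw [← hres, h1, map_one]
        rw [dn_smul] at hdn
        rw [EE_const (f := F) hF (n := 0)]
        · rw [zero_smul]
          exact zero_mem _
        · intro c hc
          have h2 : rs K N N₁ c • dn N Q = dn N Q := by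
            have h3 : Subgroup.zpowers (rs K N N₁ x) ≤ stabilizer (N ≃ₐ[K] N) (dn N Q) := by
              rw [Subgroup.zpowers_le]
              exact hdn.symm
            have h4 : rs K N N₁ c ∈ Subgroup.zpowers (rs K N N₁ x) := by
              rw [← MonoidHom.map_zpowers, ← hc]
              exact Subgroup.mem_map_of_mem _ (Subgroup.mem_zpowers c)
            exact h3 h4
          have h5 := hint (dn N Q) (Ideal.IsPrime.comap _) (by
            rw [Ideal.mem_comap, map_natCast]
            exact htQ) (rs K N N₁ c) h2 (by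
              rw [hres, ← MonoidHom.map_zpowers, hc, MonoidHom.map_zpowers]
              exact hfull)
          change lam c * φ (rs K N N₁ c) = _
          rw [h5, mul_zero, Int.cast_zero]
      · push Not at hx
        refine EE_mem hF _ _ fun B hB => ?_
        refine ind_mul_perm hlam _ B (fun C hC => ?_) (rs K N N₁) hφ
        have hU : ∀ u ∈ C, ∀ Q : Ideal (𝓞 N₁), Q.IsMaximal → u • Q = Q →
            Special K m (Q.comap (algebraMap (𝓞 L) (𝓞 N₁))) →
            AlgEquiv.restrictNormalHom L u = 1 ∨ ∃ v ∈ C, Q = v • (⊥ : Ideal (𝓞 N₁)) := by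
          intro u hu Q hQ huQ hs
          left
          refine hx u (hB (hC hu)) Q hQ.isPrime ?_ huQ
          have h1 := hsp _ hs
          rw [Ideal.mem_comap, map_natCast] at h1
          exact h1
        exact ind_one hA C ⊥ (Or.inl rfl) (fun u hu => ⟨u, hu, smul_bot' u, rfl⟩) hU
          (fixed_complex' hK C) ψ
    · refine EE_mem hF _ _ fun B hB => ?_
      refine ind_mul_perm hlam _ B (fun C hC => ?_) (rs K N N₁) hφ
      refine ind_small hS le_rfl C (fun h => hfull ?_) (fixed_complex' hK C) ψ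
      rw [eq_top_iff, ← h, ← MonoidHom.map_zpowers]
      exact Subgroup.map_mono (hC.trans hB)
  have h1 := artin hF _ hEE
  -- the value of `f`
  have h2 : f ∈ TT A (K := K) (L := N) ⊤ :=
    mul_perm_mem (lam := fun g => lc ψ (rs K L N g)) (fun g x => lc_class ψ (rs K L N) g x) _
      (fun C => ind_lin_top (rs K L N) ψ C) hφ
  obtain ⟨v, -, hv⟩ := h2
  have h3 := Val.nsmul A (Val.infl (N₁ := N₁) hv) (Nat.card (N₁ ≃ₐ[K] N₁))
  rw [← hFf] at h3
  obtain ⟨v', hv', h4⟩ := h1
  rw [Subgroup.mem_bot] at hv'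
  subst hv'
  have h5 := h3.unique A h4
  have h6 := htf v _ Nat.card_pos.ne' h5
  rw [h6] at hv
  exact ⟨1, Subgroup.mem_bot.mpr rfl, hv⟩

end loc

end Pool.Agent.K4H36.ST
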