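import Mathlib
import Pool.Agent.K4H36.ST.LocB

/-!
# Finite stable sets and their fixed points
-/

set_option autoImplicit false
set_option linter.unusedSectionVars false

namespace Pool.Agent.K4H36.ST

open NumberField Pool.Agent.R389 Pool.Agent.K4H74.ST Pool.Agent.K4H77.SL
open scoped Pointwise
open MulAction

section cnt

variable {G α : Type} [Group G] [MulAction G α] [DecidableEq α]

/-- the number of fixed points in a finite set -/
noncomputable def cnt (S : Finset α) (g : G) : ℂ := ((S.filter (fun x => g • x = x)).card : ℂ)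

/-- the action on a stable finite set -/
abbrev actOn (S : Finset α) (hS : ∀ (g : G), ∀ x ∈ S, g • x ∈ S) : MulAction G {x // x ∈ S} where
  smul g x := ⟨g • x.1, hS g x.1 x.2⟩
  one_smul x := Subtype.ext (one_smul G x.1)
  mul_smul g h x := Subtype.ext (mul_smul g h x.1)

lemma cnt_eq_fixn (S : Finset α) (hS : ∀ (g : G), ∀ x ∈ S, g • x ∈ S) :
    (cnt S : G → ℂ) = @fixn G _ {x // x ∈ S} (actOn S hS) := by
  classical
  funext g
  let _ := actOn S hS
  rw [cnt, fixn]
  congr 1
  rw [← Fintype.card_coe, ← Nat.card_eq_fintype_card]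
  refine Nat.card_congr ⟨fun x => ⟨⟨x.1, (Finset.mem_filter.mp x.2).1⟩,
    Subtype.ext (Finset.mem_filter.mp x.2).2⟩, fun x => ⟨x.1.1, Finset.mem_filter.mpr ⟨x.1.2, ?_⟩⟩,
    fun x => rfl, fun x => rfl⟩
  exact congrArg Subtype.val x.2

lemma cnt_mem_PP (S : Finset α) (hS : ∀ (g : G), ∀ x ∈ S, g • x ∈ S) : (cnt S : G → ℂ) ∈ PP G := by
  rw [cnt_eq_fixn S hS]
  exact AddSubgroup.subset_closure ⟨{x // x ∈ S}, actOn S hS, inferInstance, rfl⟩

lemma mul_cnt_mem [Finite G] {f : G → ℂ} (hf : ∀ g x : G, f (x * g * x⁻¹) = f g)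
    (T : AddSubgroup (G → ℂ)) (S : Finset α) (hS : ∀ (g : G), ∀ x ∈ S, g • x ∈ S)
    (h : ∀ x ∈ S, ind (stabilizer G x) (fun h => f h) ∈ T) : (fun g => f g * cnt S g) ∈ T := by
  rw [cnt_eq_fixn S hS]
  let _ := actOn S hS
  refine mul_fixn_mem hf T {x // x ∈ S} fun x => ?_
  have h1 : stabilizer G x = stabilizer G x.1 := by
    ext g
    rw [mem_stabilizer_iff, mem_stabilizer_iff]
    exact Subtype.ext_iff
  rw [h1]
  exact h x.1 x.2

/-- restriction of the fixed points to an equivariant image -/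
lemma cnt_comp {H : Type} [Group H] [MulAction H α] (π : H →* G) (S : Finset α) (g : H)
    (h : ∀ x ∈ S, g • x = π g • x) : cnt S g = cnt S (π g) := by
  unfold cnt
  congr 2
  refine Finset.filter_congr fun x hx => ?_
  rw [h x hx]

end cnt

section orbit

variable {G R : Type} [Group G] [Finite G] [CommRing R] [MulSemiringAction G R] [DecidableEq R]

lemma smul_mem_orb {x y : R} (g : G) (h : y ∈ orb G x) : g • y ∈ orb G x := by
  rw [mem_orb] at h ⊢
  obtain ⟨k, rfl⟩ := h
  exact ⟨g * k, mul_smul _ _ _⟩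

/-- the induced function in terms of the conjugates of an element -/
lemma ind_orb {f : G → ℂ} (hf : ∀ g x : G, f (x * g * x⁻¹) = f g) (x₀ : R) (B : Subgroup G)
    (hB : stabilizer G x₀ = B) :
    (fun g => f g * cnt (orb G x₀) g) = ind B (fun h => f h) := by
  classical
  have : Fintype G := Fintype.ofFinite G
  subst hB
  funext g
  have hc : (Nat.card (stabilizer G x₀) : ℂ) ≠ 0 := by exact_mod_cast Nat.card_pos.ne'
  rw [ind_eq]
  have h1 : ∀ x : G, ext (stabilizer G x₀) (fun h => f h) (x⁻¹ * g * x)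
      = if g • (x • x₀) = x • x₀ then f g else 0 := by
    intro x
    have h2 : x⁻¹ * g * x ∈ stabilizer G x₀ ↔ g • (x • x₀) = x • x₀ := by
      rw [mem_stabilizer_iff, mul_smul, mul_smul, inv_smul_eq_iff]
    by_cases h : x⁻¹ * g * x ∈ stabilizer G x₀
    · rw [ext_mem _ _ h, if_pos (h2.mp h)]
      have := hf g x⁻¹
      rwa [inv_inv] at this
    · rw [ext_not _ _ h, if_neg (fun h3 => h (h2.mpr h3))]
  rw [Finset.sum_congr rfl (fun x _ => h1 x), ← Finset.sum_filter, Finset.sum_const, nsmul_eq_mul]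
  have h2 : (Finset.univ.filter (fun x : G => g • (x • x₀) = x • x₀)).card
      = ((orb G x₀).filter (fun y => g • y = y)).card * Nat.card (stabilizer G x₀) := by
    rw [Finset.card_eq_sum_card_fiberwise (f := fun x : G => x • x₀)
      (t := (orb G x₀).filter (fun y => g • y = y))]
    · rw [Finset.sum_const_nat (m := Nat.card (stabilizer G x₀))]
      intro y hy
      obtain ⟨hy1, hy2⟩ := Finset.mem_filter.mp hy
      obtain ⟨z, hz⟩ := mem_orb.mp hy1
      have h3 : (Finset.univ.filter (fun x : G => g • (x • x₀) = x • x₀)).filter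
          (fun x => x • x₀ = y) = Finset.univ.filter (fun x : G => x • x₀ = y) := by
        ext x
        simp only [Finset.mem_filter, Finset.mem_univ, true_and]
        constructor
        · intro h
          exact h.2
        · intro h
          exact ⟨by rw [h]; exact hy2, h⟩
      rw [h3, ← Fintype.card_subtype, ← Nat.card_eq_fintype_card]
      refine Nat.card_congr ⟨fun x => ⟨z⁻¹ * x.1, ?_⟩, fun s => ⟨z * s.1, ?_⟩, ?_, ?_⟩
      · rw [mem_stabilizer_iff, mul_smul, x.2, ← hz, inv_smul_smul]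
      · rw [mul_smul, mem_stabilizer_iff.mp s.2, hz]
      · intro x; apply Subtype.ext; simp
      · intro s; apply Subtype.ext; simp
    · intro x hx
      simp only [Finset.coe_filter, Finset.mem_univ, true_and, Set.mem_ofPred_eq] at hx ⊢
      exact ⟨mem_orb.mpr ⟨x, rfl⟩, hx⟩
  rw [h2, cnt, Nat.cast_mul]
  field_simp

end orbit

section near

variable {R G : Type} [CommRing R] [Group G] [MulSemiringAction G R] [DecidableEq R]

/-- an automorphism fixes a root if and only if it fixes the element close to it -/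
lemma Near.fix_iff {Q : Ideal R} {c : R} {m : Multiset R} {X : Finset R} (h : Near Q c m X) (g : G)
    (hQ : g • Q = Q) (hc : g • c = c) (hm : ∀ t ∈ m, g • t ∈ m) (hX : ∀ x ∈ X, g • x ∈ X)
    {t x : R} (ht : t ∈ m) (hx : x ∈ X) (htx : LDvd Q c (t - x)) : g • t = t ↔ g • x = x := by
  have h1 := htx.smul g hc
  rw [hQ, smul_sub] at h1
  constructor
  · intro h2
    rw [h2] at h1
    exact h.uniq_right t ht _ (hX x hx) x hx h1 htx
  · intro h2
    rw [h2] at h1
    exact h.uniq_left x hx _ (hm t ht) t ht h1 htx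

/-- the numbers of fixed points agree -/
lemma Near.cnt_eq {Q : Ideal R} {c : R} {m : Multiset R} {X : Finset R} (h : Near Q c m X) (g : G)
    (hQ : g • Q = Q) (hc : g • c = c) (hm : ∀ t ∈ m, g • t ∈ m) (hX : ∀ x ∈ X, g • x ∈ X) :
    cnt m.toFinset g = cnt X g := by
  classical
  unfold cnt
  congr 1
  have h1 : ∀ t ∈ m, ∃ x ∈ X, LDvd Q c (t - x) := h.right
  choose! f hf hf2 using h1
  refine Finset.card_bij (fun t _ => f t) ?_ ?_ ?_
  · intro t ht
    rw [Finset.mem_filter, Multiset.mem_toFinset] at ht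
    rw [Finset.mem_filter]
    exact ⟨hf t ht.1, (h.fix_iff g hQ hc hm hX ht.1 (hf t ht.1) (hf2 t ht.1)).mp ht.2⟩
  · intro a ha b hb hab
    rw [Finset.mem_filter, Multiset.mem_toFinset] at ha hb
    have h2 := hf2 a ha.1
    rw [hab] at h2
    exact h.uniq_left _ (hf b hb.1) a ha.1 b hb.1 h2 (hf2 b hb.1)
  · intro x hx
    rw [Finset.mem_filter] at hx
    obtain ⟨t, ht, htx⟩ := h.left x hx.1
    have h2 : f t = x := h.uniq_right t ht _ (hf t ht) x hx.1 (hf2 t ht) htx
    refine ⟨t, ?_, h2⟩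
    rw [Finset.mem_filter, Multiset.mem_toFinset]
    exact ⟨ht, (h.fix_iff g hQ hc hm hX ht hx.1 htx).mpr hx.2⟩

end near

section fields

variable {K L N : Type} [Field K] [NumberField K] [Field L] [NumberField L] [Field N]
  [NumberField N] [Algebra K L] [Algebra L N] [Algebra K N] [IsScalarTower K L N] [IsGalois K L]
  [IsGalois K N]

/-- translates of the conjugates of a generator of `L` -/
lemma exists_Z (K L N : Type) [Field K] [NumberField K] [Field L] [NumberField L] [Field N]
    [NumberField N] [Algebra K L] [Algebra L N] [Algebra K N] [IsScalarTower K L N] [IsGalois K L]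
    [IsGalois K N] (k : ℕ) : ∃ Z : Finset (𝓞 N), Z.card = Nat.card (L ≃ₐ[K] L) * k ∧
      (∀ (g : N ≃ₐ[K] N), ∀ z ∈ Z, g • z ∈ Z) ∧
      ∀ z ∈ Z, ∀ g : N ≃ₐ[K] N, g • z = z ↔ rs K L N g = 1 := by
  classical
  have hfinL : FiniteDimensional K L := Module.Finite.of_restrictScalars_finite ℚ K L
  obtain ⟨θ, hθ⟩ := exists_prim K L
  let D : Set (𝓞 L) := Set.range (fun p : (L ≃ₐ[K] L) × (L ≃ₐ[K] L) => p.1 • θ - p.2 • θ)
  have hD : D.Finite := Set.finite_range _
  have hcast : Function.Injective (fun a : ℤ => (a : 𝓞 L)) := Int.cast_injective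
  have hS : ((fun a : ℤ => (a : 𝓞 L)) ⁻¹' D).Finite := hD.preimage hcast.injOn
  obtain ⟨b, hb⟩ := hS.bddAbove
  let B : ℤ := max b 0 + 1
  have hB : ∀ (σ τ : L ≃ₐ[K] L) (a : ℤ), σ • θ - τ • θ = a → a < B := by
    intro σ τ a h
    have h1 : a ≤ b := hb (⟨(σ, τ), h⟩ : (a : 𝓞 L) ∈ D)
    have h2 := le_max_left b 0
    omega
  have hBpos : 0 < B := by
    have := le_max_right b 0
    omega
  let F : (L ≃ₐ[K] L) × ℕ → 𝓞 N := fun p =>
    algebraMap (𝓞 L) (𝓞 N) (p.1 • θ + ((B * p.2 : ℤ) : 𝓞 L))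
  have hF : Set.InjOn F (Set.univ : Set ((L ≃ₐ[K] L) × ℕ)) := by
    rintro ⟨σ, s⟩ _ ⟨τ, u⟩ _ h
    have h1 := algMap_inj h
    simp only at h1
    have h2 : σ • θ - τ • θ = ((B * ((u : ℤ) - s) : ℤ) : 𝓞 L) := by
      push_cast at h1 ⊢
      linear_combination h1
    have h3 : τ • θ - σ • θ = ((B * ((s : ℤ) - u) : ℤ) : 𝓞 L) := by
      push_cast at h1 ⊢
      linear_combination -h1
    have h4 := hB _ _ _ h2
    have h5 := hB _ _ _ h3
    have h6 : s = u := by
      by_contra hne
      rcases Nat.lt_or_gt_of_ne hne with hlt | hlt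
      · have : (1 : ℤ) ≤ (u : ℤ) - s := by omega
        nlinarith
      · have : (1 : ℤ) ≤ (s : ℤ) - u := by omega
        nlinarith
    subst h6
    rw [sub_self, mul_zero, Int.cast_zero, sub_eq_zero] at h2
    have h7 : τ⁻¹ * σ = 1 := by
      apply hθ
      rw [mul_smul, h2, inv_smul_smul]
    have h8 : σ = τ := by
      rw [inv_mul_eq_one] at h7
      exact h7.symm
    rw [h8]
  have hsm : ∀ (g : N ≃ₐ[K] N) (σ : L ≃ₐ[K] L) (s : ℕ), g • F (σ, s) = F (rs K L N g * σ, s) := by
    intro g σ s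
    change g • algebraMap (𝓞 L) (𝓞 N) _ = algebraMap (𝓞 L) (𝓞 N) _
    rw [← rs_smul, smul_add]
    congr 2
    exact map_intCast (MulSemiringAction.toRingHom (L ≃ₐ[K] L) (𝓞 L) (rs K L N g)) _
  refine ⟨(Finset.univ ×ˢ Finset.range k).image F, ?_, ?_, ?_⟩
  · rw [Finset.card_image_of_injOn (hF.mono (Set.subset_univ _)), Finset.card_product,
      Finset.card_univ, Finset.card_range, Nat.card_eq_fintype_card]
  · intro g z hz
    obtain ⟨⟨σ, s⟩, hs, rfl⟩ := Finset.mem_image.mp hz
    rw [hsm]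
    apply Finset.mem_image_of_mem
    rw [Finset.mem_product] at hs ⊢
    exact ⟨Finset.mem_univ _, hs.2⟩
  · intro z hz g
    obtain ⟨⟨σ, s⟩, hs, rfl⟩ := Finset.mem_image.mp hz
    rw [hsm]
    constructor
    · intro h
      have h1 := hF (Set.mem_univ _) (Set.mem_univ _) h
      have h2 : rs K L N g * σ = σ := congrArg Prod.fst h1
      exact mul_eq_right.mp h2
    · intro h
      rw [h, one_mul]

/-- an integral element with given stabiliser -/
lemma exists_stab (B : Subgroup (N ≃ₐ[K] N)) :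
    ∃ θ : 𝓞 N, stabilizer (N ≃ₐ[K] N) θ = B := by
  classical
  have hfin : FiniteDimensional K N := Module.Finite.of_restrictScalars_finite ℚ K N
  let E := IntermediateField.fixedField B
  obtain ⟨α, hα⟩ := Field.exists_primitive_element K E
  obtain ⟨x, y, hy, hxy⟩ := IsFractionRing.div_surjective (A := 𝓞 N) (α : N)
  have hy0 : y ≠ 0 := nonZeroDivisors.ne_zero hy
  let n : ℕ := Ideal.absNorm (Ideal.span {y})
  have hn0 : n ≠ 0 := by
    rw [Ne, Ideal.absNorm_eq_zero_iff, Ideal.span_singleton_eq_bot]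
    exact hy0
  obtain ⟨z, hz⟩ := Ideal.mem_span_singleton.mp (Ideal.absNorm_mem (Ideal.span {y}))
  have hyN : (algebraMap (𝓞 N) N) y ≠ 0 := by
    intro h
    exact hy0 (RingOfIntegers.coe_injective (by rw [map_zero]; exact h))
  have hnN : (n : N) ≠ 0 := by exact_mod_cast hn0
  have h1 : (n : N) * (α : N) = algebraMap (𝓞 N) N (x * z) := by
    have h2 := congrArg (algebraMap (𝓞 N) N) hz
    rw [map_natCast, map_mul] at h2
    rw [← hxy, map_mul]
    change (n : N) = _ at h2
    rw [h2]
    field_simp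
  refine ⟨x * z, ?_⟩
  have h2 : ∀ g : N ≃ₐ[K] N, g • (x * z) = x * z ↔ g (α : N) = α := by
    intro g
    constructor
    · intro h
      have h3 : g ((n : N) * (α : N)) = (n : N) * (α : N) := by
        rw [h1]
        exact congrArg (algebraMap (𝓞 N) N) h
      rw [map_mul, map_natCast] at h3
      exact mul_left_cancel₀ hnN h3
    · intro h
      apply RingOfIntegers.coe_injective
      change g (algebraMap (𝓞 N) N (x * z)) = algebraMap (𝓞 N) N (x * z)
      rw [← h1, map_mul, map_natCast, h]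
  ext g
  rw [mem_stabilizer_iff, h2]
  constructor
  · intro h
    let F' : IntermediateField K E := (IntermediateField.fixedField (Subgroup.zpowers g)).comap E.val
    have h3 : IntermediateField.adjoin K {α} ≤ F' := by
      rw [IntermediateField.adjoin_simple_le_iff]
      change (α : N) ∈ IntermediateField.fixedField (Subgroup.zpowers g)
      rw [IntermediateField.mem_fixedField_iff]
      intro f hf
      obtain ⟨k, rfl⟩ := Subgroup.mem_zpowers_iff.mp hf
      have h6 : g ∈ MulAction.stabilizer (N ≃ₐ[K] N) (α : N) := h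
      exact (zpow_mem h6 k : g ^ k ∈ MulAction.stabilizer (N ≃ₐ[K] N) (α : N))
    have h4 : g ∈ E.fixingSubgroup := by
      rw [IntermediateField.mem_fixingSubgroup_iff]
      intro u hu
      have h5 : (⟨u, hu⟩ : E) ∈ F' := by
        apply h3
        rw [hα]
        trivial
      exact IntermediateField.mem_fixedField_iff _ _ |>.mp h5 g (Subgroup.mem_zpowers g)
    rwa [IntermediateField.fixingSubgroup_fixedField] at h4
  · intro h
    exact α.2 ⟨g, h⟩

end fields

end Pool.Agent.K4H36.ST
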