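import Mathlib
import Pool.Agent.K4H36.ST.Cnt

/-!
# Preparations for the main construction
-/

set_option autoImplicit false
set_option linter.unusedSectionVars false

namespace Pool.Agent.K4H36.ST

open NumberField Pool.Agent.R389 Pool.Agent.K4H74.ST Pool.Agent.K4H77.SL
open scoped Pointwise
open MulAction Polynomial

section group

variable {G R : Type} [Group G] [Finite G] [CommRing R] [MulSemiringAction G R] [DecidableEq R]

lemma orb_card (x : R) : (orb G x).card * Nat.card (stabilizer G x) = Nat.card G := by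
  classical
  have : Fintype G := Fintype.ofFinite G
  have hfo : Finite (orbit G x) := (Set.finite_range (fun g : G => g • x)).to_subtype
  have : Fintype (orbit G x) := Fintype.ofFinite _
  have h1 : (orb G x).card = Nat.card (orbit G x) := by
    rw [← Fintype.card_coe, ← Nat.card_eq_fintype_card]
    refine Nat.card_congr (Equiv.subtypeEquivRight fun y => ?_)
    rw [mem_orb]
    rfl
  rw [h1, Nat.card_eq_fintype_card, Nat.card_eq_fintype_card, Nat.card_eq_fintype_card]
  exact card_orbit_mul_card_stabilizer_eq_card_group G x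

/-- the orbits of `D` on the conjugates of an element with cyclic stabiliser -/
lemma dvd_orb_card {D : Subgroup G} {n : ℕ}
    (hD : ∀ x ∈ D, n * orderOf x ∣ Nat.card D) {x₀ : R} {b : G}
    (hb : stabilizer G x₀ = Subgroup.zpowers b) {y : R} (hy : y ∈ orb G x₀) :
    n ∣ (orb D y).card := by
  classical
  obtain ⟨g, rfl⟩ := mem_orb.mp hy
  have h1 := orb_card (G := D) (R := R) (g • x₀)
  -- the stabiliser is cyclic
  let f : stabilizer D (g • x₀) →* Subgroup.zpowers b :=
    { toFun := fun s => ⟨g⁻¹ * ((s : D) : G) * g, by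
        rw [← hb, mem_stabilizer_iff, mul_smul, mul_smul, inv_smul_eq_iff]
        exact s.2⟩
      map_one' := by
        apply Subtype.ext
        simp
      map_mul' := fun s u => by
        apply Subtype.ext
        simp only [Subgroup.coe_mul]
        group }
  have hf : Function.Injective f := by
    intro s u h
    have h2 := congrArg Subtype.val h
    change g⁻¹ * ((s : D) : G) * g = g⁻¹ * ((u : D) : G) * g at h2
    apply Subtype.ext
    apply Subtype.ext
    exact mul_left_cancel (mul_right_cancel h2)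
  have hcyc : IsCyclic (stabilizer D (g • x₀)) := isCyclic_of_injective f hf
  obtain ⟨s, hs⟩ := hcyc.exists_generator
  have h2 : orderOf s = Nat.card (stabilizer D (g • x₀)) := orderOf_eq_card_of_forall_mem_zpowers hs
  have h3 : orderOf (((s : D) : G)) = Nat.card (stabilizer D (g • x₀)) := by
    rw [← h2, Subgroup.orderOf_coe, Subgroup.orderOf_coe]
  have h4 := hD _ ((s : D)).2
  rw [h3, ← h1] at h4
  exact Nat.dvd_of_mul_dvd_mul_right Nat.card_pos h4

lemma self_mem_orb (x : R) : x ∈ orb G x := mem_orb.mpr ⟨1, one_smul _ _⟩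

lemma orb_eq {x y : R} (h : y ∈ orb G x) : orb G y = orb G x := by
  obtain ⟨g, rfl⟩ := mem_orb.mp h
  ext z
  rw [mem_orb, mem_orb]
  constructor
  · rintro ⟨k, rfl⟩
    exact ⟨k * g, mul_smul _ _ _⟩
  · rintro ⟨k, rfl⟩
    exact ⟨k * g⁻¹, by rw [mul_smul, inv_smul_smul]⟩

/-- the orbits on a finite stable set -/
noncomputable def orbs (D : Subgroup G) (S : Finset R) : Finset (Finset R) := S.image (orb D)

/-- the fixed points are distributed over the orbits -/
lemma sum_orbs (D : Subgroup G) (S : Finset R) (hS : ∀ g ∈ D, ∀ x ∈ S, g • x ∈ S) (s : G) :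
    ∑ Y ∈ orbs D S, cnt Y s = cnt S s := by
  classical
  unfold cnt
  rw [← Nat.cast_sum]
  congr 1
  rw [Finset.card_eq_sum_card_fiberwise (s := S.filter (fun x => s • x = x)) (f := orb D)
    (t := orbs D S)]
  · refine Finset.sum_congr rfl fun Y hY => ?_
    obtain ⟨y₀, hy₀, rfl⟩ := Finset.mem_image.mp hY
    congr 1
    ext x
    simp only [Finset.mem_filter]
    constructor
    · rintro ⟨h1, h2⟩
      have h3 : x ∈ S := by
        obtain ⟨g, rfl⟩ := mem_orb.mp h1
        exact hS g g.2 y₀ hy₀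
      exact ⟨⟨h3, h2⟩, orb_eq h1⟩
    · rintro ⟨⟨h1, h2⟩, h3⟩
      rw [← h3]
      exact ⟨self_mem_orb x, h2⟩
  · intro x hx
    exact Finset.mem_image_of_mem _ (Finset.mem_filter.mp hx).1

end group

section fields

variable {K L N N₁ : Type} [Field K] [NumberField K] [Field L] [NumberField L] [Algebra K L]
  [IsGalois K L] [Field N] [NumberField N] [Algebra K N]
  [IsGalois K N] [Algebra L N] [IsScalarTower K L N] [Field N₁] [NumberField N₁] [Algebra K N₁]
  [IsGalois K N₁] [Algebra N N₁] [IsScalarTower K N N₁]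

lemma cnt_image [DecidableEq (𝓞 N)] [DecidableEq (𝓞 N₁)] (X : Finset (𝓞 N)) (s : N₁ ≃ₐ[K] N₁) :
    cnt (X.image (algebraMap (𝓞 N) (𝓞 N₁))) s = cnt X (rs K N N₁ s) := by
  unfold cnt
  congr 1
  rw [Finset.filter_image, Finset.card_image_of_injective _ algMap_inj]
  congr 1
  refine Finset.filter_congr fun x _ => ?_
  rw [← rs_smul]
  exact algMap_inj.eq_iff

lemma dn_base (g : N ≃ₐ[K] N) (Q : Ideal (𝓞 N)) : dn K (g • Q) = dn K Q := by
  ext x
  rw [Ideal.mem_comap, Ideal.mem_comap, Ideal.mem_pointwise_smul_iff_inv_smul_mem]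
  have : g⁻¹ • algebraMap (𝓞 K) (𝓞 N) x = algebraMap (𝓞 K) (𝓞 N) x := by
    apply RingOfIntegers.coe_injective
    exact g⁻¹.commutes (x : K)
  rw [this]

lemma dn_dn (Q : Ideal (𝓞 N₁)) : dn K (dn N Q) = dn K Q := by
  have h : algebraMap (𝓞 K) (𝓞 N₁) = (algebraMap (𝓞 N) (𝓞 N₁)).comp (algebraMap (𝓞 K) (𝓞 N)) := by
    apply RingHom.ext
    intro x
    apply RingOfIntegers.coe_injective
    change algebraMap K N₁ (x : K) = algebraMap N N₁ (algebraMap K N (x : K))
    rw [← IsScalarTower.algebraMap_apply K N N₁]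
  unfold dn
  rw [Ideal.comap_comap, ← h]

/-- primes over the same prime are conjugate -/
lemma exists_conj_of (P Q : Ideal (𝓞 N)) (hP : P.IsPrime) (hQ : Q.IsPrime)
    (h : dn K P = dn K Q) : ∃ g : N ≃ₐ[K] N, Q = g • P :=
  Algebra.IsInvariant.exists_smul_of_under_eq (𝓞 K) (𝓞 N) (N ≃ₐ[K] N) P Q h

/-- elements of decomposition groups lift to decomposition groups -/
lemma lift_stab {Q : Ideal (𝓞 N₁)} (hQ : Q.IsPrime) {g : N ≃ₐ[K] N} (hg : g • dn N Q = dn N Q) :
    ∃ g₁ : N₁ ≃ₐ[K] N₁, rs K N N₁ g₁ = g ∧ g₁ • Q = Q := by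
  have hfin : FiniteDimensional K N₁ := Module.Finite.of_restrictScalars_finite ℚ K N₁
  have hgal : IsGalois N N₁ := IsGalois.tower_top_of_isGalois K N N₁
  obtain ⟨h, hh⟩ := rs_surjective (K := K) (N := N) (N₁ := N₁) g
  have hp : (h • Q).IsPrime := Ideal.IsPrime.smul h
  have h1 : dn N (h • Q) = dn N Q := by rw [dn_smul, hh, hg]
  obtain ⟨τ, hτ⟩ := Algebra.IsInvariant.exists_smul_of_under_eq (𝓞 N) (𝓞 N₁) (N₁ ≃ₐ[N] N₁)
    (h • Q) Q h1
  refine ⟨τ.restrictScalars K * h, ?_, ?_⟩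
  · rw [map_mul, hh]
    have h2 : rs K N N₁ (τ.restrictScalars K) = 1 := by
      ext x
      apply (algebraMap N N₁).injective
      rw [rs_apply]
      exact τ.commutes x
    rw [h2, one_mul]
  · rw [mul_smul]
    have h3 : (τ.restrictScalars K) • (h • Q) = τ • (h • Q) := by
      ext x
      exact Ideal.mem_pointwise_smul_iff_inv_smul_mem.trans
        (Iff.trans Iff.rfl Ideal.mem_pointwise_smul_iff_inv_smul_mem.symm)
    rw [h3]
    exact hτ.symm

/-- the polynomial attached to a set of conjugates at one prime -/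
lemma exists_hY {ι : Type} [Finite ι] [DecidableEq ι] (w : ι → Ideal (𝓞 N))
    (hw : ∀ i, (w i).IsPrime) (hw0 : ∀ i, w i ≠ ⊥)
    (hne : ∀ i j, i ≠ j → ∀ g : N ≃ₐ[K] N, g • w j ≠ w i) (i : ι) (Y : Finset (𝓞 N))
    (hY : ∀ g : N ≃ₐ[K] N, g • w i = w i → ∀ x ∈ Y, g • x ∈ Y)
    (hn : Nat.card (L ≃ₐ[K] L) ∣ Y.card) :
    ∃ (h : (𝓞 N)[X]) (c : 𝓞 N) (Z : Finset (𝓞 N)), h.Monic ∧ h.natDegree = Y.card ∧
      (∀ (g : N ≃ₐ[K] N) (k : ℕ), g • h.coeff k = h.coeff k) ∧ c ≠ 0 ∧
      (∀ g : N ≃ₐ[K] N, g • c = c) ∧ Z.card = Y.card ∧ (∀ g : N ≃ₐ[K] N, ∀ z ∈ Z, g • z ∈ Z) ∧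
      (∀ z ∈ Z, ∀ g : N ≃ₐ[K] N, g • z = z ↔ rs K L N g = 1) ∧
      (∀ j, ∀ x ∈ (if j = i then Y else Z), ∀ y ∈ (if j = i then Y else Z), x ≠ y →
        ∃ b ∈ w j, c = (x - y) * b) ∧
      ∀ j, PolCong (w j) (c ^ Y.card) h (pol (if j = i then Y else Z)) := by
  classical
  obtain ⟨k, hk⟩ := hn
  obtain ⟨Z, hZ1, hZ2, hZ3⟩ := exists_Z K L N k
  rw [← hk] at hZ1
  let X : ι → Finset (𝓞 N) := fun j => if j = i then Y else Z
  have hX : ∀ j, (X j).card = Y.card := by
    intro j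
    by_cases hj : j = i
    · simp only [X, if_pos hj]
    · simp only [X, if_neg hj]
      exact hZ1
  have hXs : ∀ j, ∀ g ∈ stabilizer (N ≃ₐ[K] N) (w j), ∀ x ∈ X j, g • x ∈ X j := by
    intro j g hg x hx
    by_cases hj : j = i
    · subst hj
      simp only [X, if_true] at hx ⊢
      exact hY g hg x hx
    · simp only [X, if_neg hj] at hx ⊢
      exact hZ2 g x hx
  obtain ⟨c, hc, hcG, hsep⟩ := exists_sep (N ≃ₐ[K] N) w hw0 X
  obtain ⟨h, hm, hdeg, hinv, hcong⟩ := exists_pol (G := N ≃ₐ[K] N) w hw hw0 hne X Y.card hX hXs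
    (c ^ Y.card) (pow_ne_zero _ hc) (fun g => by rw [smul_pow', hcG])
  exact ⟨h, c, Z, hm, hdeg, hinv, hc, hcG, hZ1, hZ2, hZ3, hsep, hcong⟩

end fields

end Pool.Agent.K4H36.ST
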