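import Mathlib
import Pool.Agent.K4H36.ST.Pre

/-!
# Large decomposition groups: local degrees
-/

set_option autoImplicit false
set_option linter.unusedSectionVars false

namespace Pool.Agent.K4H36.ST

open NumberField
open scoped Pointwise
open MulAction Polynomial

lemma exists_irred (F : Type) [Field F] [Finite F] (n : ℕ) (hn : n ≠ 0) :
    ∃ f : F[X], f.Monic ∧ Irreducible f ∧ f.natDegree = n := by
  obtain ⟨p, hp⟩ := CharP.exists F
  have hprime : Fact p.Prime := ⟨CharP.char_is_prime F p⟩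
  have : NeZero n := ⟨hn⟩
  let E := FiniteField.Extension F p n
  have hfr : Module.finrank F E = n := FiniteField.finrank_extension F p n
  have hfd : FiniteDimensional F E := inferInstance
  have hfin : Finite E := Module.finite_of_finite F
  obtain ⟨α, hα⟩ := Field.exists_primitive_element F E
  have hint : IsIntegral F α := IsIntegral.of_finite F α
  refine ⟨minpoly F α, minpoly.monic hint, minpoly.irreducible hint, ?_⟩
  rw [← IntermediateField.adjoin.finrank hint, hα, IntermediateField.finrank_top', hfr]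

section base

variable (K : Type) [Field K] [NumberField K]

lemma PT_coprime {t : ℕ} (ht : t ≠ 0) {i j : PT K t} (h : i ≠ j) : IsCoprime i.1 j.1 := by
  rw [Ideal.isCoprime_iff_sup_eq]
  exact Ideal.IsMaximal.coprime_of_ne (i.2.1.isMaximal (ne_bot_of ht i.2.2))
    (j.2.1.isMaximal (ne_bot_of ht j.2.2)) (fun h1 => h (Subtype.ext h1))

/-- an element with valuation one at all primes above `t` -/
lemma exists_pi {t : ℕ} (ht : t ≠ 0) : ∃ π : 𝓞 K, ∀ j : PT K t, π ∈ j.1 ∧ π ∉ j.1 ^ 2 := by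
  classical
  have hι : Finite (PT K t) := finite_PT K ht
  have h1 : ∀ j : PT K t, ∃ x ∈ j.1, x ∉ j.1 ^ 2 := by
    intro j
    have h2 : j.1 ≠ ⊥ := ne_bot_of ht j.2.2
    have h3 := Ideal.pow_lt_self j.1 h2 j.2.1.ne_top 2 le_rfl
    obtain ⟨x, hx, hx2⟩ := Set.exists_of_ssubset h3
    exact ⟨x, hx, hx2⟩
  choose x hx hx2 using h1
  obtain ⟨π, hπ⟩ := Ideal.exists_forall_sub_mem_ideal (I := fun j : PT K t => j.1 ^ 2)
    (fun i j hij => IsCoprime.pow (PT_coprime K ht hij)) x
  refine ⟨π, fun j => ⟨?_, fun h => hx2 j ?_⟩⟩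
  · have h2 := Ideal.pow_le_self two_ne_zero (hπ j)
    have h3 := add_mem h2 (hx j)
    rwa [sub_add_cancel] at h3
  · have h3 := sub_mem h (hπ j)
    rwa [sub_sub_cancel] at h3

/-- a monic polynomial which is irreducible modulo all primes above `t` -/
lemma exists_g {t : ℕ} (ht : t ≠ 0) (q : ℕ) (hq : q ≠ 0) :
    ∃ g : (𝓞 K)[X], g.Monic ∧ g.natDegree = q ∧
      ∀ j : PT K t, Irreducible (g.map (Ideal.Quotient.mk j.1)) := by
  classical
  have hι : Finite (PT K t) := finite_PT K ht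
  have h1 : ∀ j : PT K t, ∃ f : (𝓞 K ⧸ j.1)[X], f.Monic ∧ Irreducible f ∧ f.natDegree = q := by
    intro j
    have h2 : j.1 ≠ ⊥ := ne_bot_of ht j.2.2
    have hmax : j.1.IsMaximal := j.2.1.isMaximal h2
    have hf : Finite (𝓞 K ⧸ j.1) := Ideal.finiteQuotientOfFreeOfNeBot j.1 h2
    let _ : Field (𝓞 K ⧸ j.1) := Ideal.Quotient.field j.1
    exact exists_irred (𝓞 K ⧸ j.1) q hq
  choose f hf1 hf2 hf3 using h1
  have h2 : ∀ (j : PT K t) (k : ℕ), ∃ a : 𝓞 K, Ideal.Quotient.mk j.1 a = (f j).coeff k :=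
    fun j k => Ideal.Quotient.mk_surjective _
  choose a ha using h2
  have h3 : ∀ k : ℕ, ∃ b : 𝓞 K, ∀ j : PT K t, b - a j k ∈ j.1 := fun k =>
    Ideal.exists_forall_sub_mem_ideal (I := fun j : PT K t => j.1)
      (fun i j hij => PT_coprime K ht hij) (fun j => a j k)
  choose b hb using h3
  let r : (𝓞 K)[X] := ∑ k ∈ Finset.range q, C (b k) * Polynomial.X ^ k
  have hr : r.degree < q := by
    rw [← mem_degreeLT]
    apply Submodule.sum_mem
    intro k hk
    rw [mem_degreeLT]
    exact (degree_C_mul_X_pow_le k (b k)).trans_lt (by exact_mod_cast Finset.mem_range.mp hk)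
  have hrc : ∀ k, r.coeff k = if k < q then b k else 0 := by
    intro k
    simp only [r, finsetSum_coeff, coeff_C_mul, coeff_X_pow]
    by_cases hk : k < q
    · rw [if_pos hk, Finset.sum_eq_single k]
      · simp
      · intro j _ hj
        rw [if_neg (Ne.symm hj), mul_zero]
      · intro h
        exact absurd (Finset.mem_range.mpr hk) h
    · rw [if_neg hk]
      apply Finset.sum_eq_zero
      intro j hj
      rw [if_neg, mul_zero]
      rintro rfl
      exact hk (Finset.mem_range.mp hj)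
  have hmon : (Polynomial.X ^ q + r).Monic := monic_X_pow_add hr
  have hdeg : (Polynomial.X ^ q + r).natDegree = q := by
    apply natDegree_eq_of_degree_eq_some
    rw [degree_add_eq_left_of_degree_lt, degree_X_pow]
    rwa [degree_X_pow]
  refine ⟨Polynomial.X ^ q + r, hmon, hdeg, fun j => ?_⟩
  have h4 : (Polynomial.X ^ q + r).map (Ideal.Quotient.mk j.1) = f j := by
    ext k
    rw [coeff_map, coeff_add, coeff_X_pow, hrc, map_add]
    rcases lt_trichotomy k q with hk | hk | hk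
    · rw [if_neg hk.ne, if_pos hk, map_zero, zero_add, ← ha, ← sub_eq_zero, ← map_sub,
        Ideal.Quotient.eq_zero_iff_mem]
      exact hb k j
    · rw [if_pos hk, if_neg (by omega), map_one, map_zero, add_zero]
      have := hf1 j
      rw [Monic, leadingCoeff, hf3 j] at this
      rw [hk, this]
    · rw [if_neg hk.ne', if_neg (by omega), map_zero, zero_add]
      rw [coeff_eq_zero_of_natDegree_lt (by rw [hf3]; exact hk)]
  rw [h4]
  exact hf2 j

end base

section ext

variable {K E : Type} [Field K] [NumberField K] [Field E] [NumberField E] [Algebra K E]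

/-- the ramification index is divisible by `q` -/
lemma dvd_ram {P : Ideal (𝓞 E)} [hP : P.IsPrime] {p : Ideal (𝓞 K)} [hp : p.IsPrime]
    [hl : P.LiesOver p] (hp0 : p ≠ ⊥) {π : 𝓞 K} (hπ : π ∈ p) (hπ2 : π ∉ p ^ 2) {α : 𝓞 E} {q : ℕ}
    (hα : α ^ q = algebraMap (𝓞 K) (𝓞 E) π) : q ∣ P.ramificationIdx (𝓞 K) := by
  classical
  have hπ0 : π ≠ 0 := fun h => hπ2 (by rw [h]; exact zero_mem _)
  have hpE : p.map (algebraMap (𝓞 K) (𝓞 E)) ≠ ⊥ := Ideal.map_ne_bot_of_ne_bot hp0
  have hP0 : P ≠ ⊥ := ne_bot_of_le_ne_bot hpE (Ideal.map_le_of_le_comap (P.over_def p).le)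
  have hPp : Prime P := Ideal.prime_of_isPrime hP0 hP
  rw [Ideal.IsDedekindDomain.ramificationIdx_eq_multiplicity p P hpE]
  -- the factorisation of `π`
  have h1 : p ∣ Ideal.span {π} := by
    rw [Ideal.dvd_iff_le, Ideal.span_singleton_le_iff_mem]
    exact hπ
  obtain ⟨J, hJ⟩ := h1
  have hJ2 : ¬ J ≤ p := by
    intro h
    apply hπ2
    have : π ∈ Ideal.span {π} := Ideal.mem_span_singleton_self π
    rw [hJ] at this
    rw [pow_two]
    exact Ideal.mul_mono_right h this
  have hJE : ¬ P ∣ J.map (algebraMap (𝓞 K) (𝓞 E)) := by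
    rw [Ideal.dvd_iff_le, Ideal.map_le_iff_le_comap]
    have h2 := P.over_def p
    rw [Ideal.under_def] at h2
    rw [← h2]
    exact hJ2
  have h3 : (Ideal.span {α}) ^ q = p.map (algebraMap (𝓞 K) (𝓞 E)) * J.map (algebraMap (𝓞 K) (𝓞 E)) := by
    rw [Ideal.span_singleton_pow, hα, ← Ideal.map_mul, ← hJ, Ideal.map_span, Set.image_singleton]
  have hα0 : α ≠ 0 := by
    rintro rfl
    by_cases hq : q = 0
    · subst hq
      rw [pow_zero] at hα
      have h4 : algebraMap (𝓞 K) (𝓞 E) π ∈ P := by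
        have h5 := P.over_def p
        rw [Ideal.under_def] at h5
        rw [← Ideal.mem_comap, ← h5]
        exact hπ
      rw [← hα] at h4
      exact hP.ne_top ((Ideal.eq_top_iff_one P).mpr h4)
    · rw [zero_pow hq] at hα
      have : Function.Injective (algebraMap (𝓞 K) (𝓞 E)) := FaithfulSMul.algebraMap_injective _ _
      exact hπ0 (this (by rw [← hα, map_zero]))
  have hαs : Ideal.span {α} ≠ (0 : Ideal (𝓞 E)) := by
    rw [Ne, Ideal.zero_eq_bot, Ideal.span_singleton_eq_bot]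
    exact hα0
  have hfinα : FiniteMultiplicity P (Ideal.span {α}) :=
    FiniteMultiplicity.of_prime_left hPp hαs
  have h4 := congrArg (multiplicity P) h3
  have hfin : FiniteMultiplicity P (p.map (algebraMap (𝓞 K) (𝓞 E)) * J.map (algebraMap (𝓞 K) (𝓞 E))) := by
    rw [← h3]
    exact hfinα.pow hPp
  rw [hfinα.multiplicity_pow hPp, multiplicity_mul hPp hfin,
    multiplicity_eq_zero.mpr hJE, add_zero] at h4
  exact ⟨_, h4.symm⟩

/-- the residue degree is divisible by `q` -/
lemma dvd_inert {P : Ideal (𝓞 E)} [hP : P.IsPrime] {p : Ideal (𝓞 K)} [hp : p.IsPrime]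
    [hl : P.LiesOver p] (hp0 : p ≠ ⊥) {g : (𝓞 K)[X]} (hg : g.Monic)
    (hgi : Irreducible (g.map (Ideal.Quotient.mk p))) {β : 𝓞 E} (hβ : aeval β g = 0) :
    g.natDegree ∣ P.inertiaDeg (𝓞 K) := by
  classical
  have hpE : p.map (algebraMap (𝓞 K) (𝓞 E)) ≠ ⊥ := Ideal.map_ne_bot_of_ne_bot hp0
  have hP0 : P ≠ ⊥ := ne_bot_of_le_ne_bot hpE (Ideal.map_le_of_le_comap (P.over_def p).le)
  have hpm : p.IsMaximal := hp.isMaximal hp0
  have hPm : P.IsMaximal := hP.isMaximal hP0
  rw [Ideal.inertiaDeg_eq_of_isMaximal p P]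
  let _ : Field (𝓞 K ⧸ p) := Ideal.Quotient.field p
  let _ : Field (𝓞 E ⧸ P) := Ideal.Quotient.field P
  have hf : Finite (𝓞 E ⧸ P) := Ideal.finiteQuotientOfFreeOfNeBot P hP0
  let b : 𝓞 E ⧸ P := Ideal.Quotient.mk P β
  have h1 : aeval b (g.map (Ideal.Quotient.mk p)) = 0 := by
    rw [aeval_def, eval₂_map]
    have h2 : (algebraMap (𝓞 K ⧸ p) (𝓞 E ⧸ P)).comp (Ideal.Quotient.mk p)
        = (Ideal.Quotient.mk P).comp (algebraMap (𝓞 K) (𝓞 E)) := rfl
    rw [h2, ← hom_eval₂, ← aeval_def, hβ, map_zero]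
  have hfinE : Module.Finite (𝓞 K ⧸ p) (𝓞 E ⧸ P) := Module.Finite.of_finite
  have hint : IsIntegral (𝓞 K ⧸ p) b := IsIntegral.of_finite _ b
  have h2 := minpoly.eq_of_irreducible_of_monic hgi h1 (hg.map _)
  have h3 := minpoly.degree_dvd hint
  rw [← h2, hg.natDegree_map] at h3
  exact h3

end ext

end Pool.Agent.K4H36.ST
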