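import Mathlib
import Pool.Agent.K4H36.ST.Pre

/-!
# The main construction
-/

set_option autoImplicit false
set_option linter.unusedSectionVars false

namespace Pool.Agent.K4H36.ST

open NumberField Pool.Agent.R389 Pool.Agent.K4H74.ST Pool.Agent.K4H77.SL
open scoped Pointwise
open MulAction Polynomial

section one

variable {K L N N₁ : Type} [Field K] [NumberField K] [Field L] [NumberField L] [Algebra K L]
  [IsGalois K L] [Field N] [NumberField N] [Algebra K N]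
  [IsGalois K N] [Algebra L N] [IsScalarTower K L N] [Field N₁] [NumberField N₁] [Algebra K N₁]
  [IsGalois K N₁] [Algebra N N₁] [IsScalarTower K N N₁] [Algebra L N₁] [IsScalarTower K L N₁]
  [DecidableEq (𝓞 N)] [DecidableEq (𝓞 N₁)]

/-- a root of the polynomial has at most one non-split prime, which is not decomposed -/
lemma one_prime (hres : ∀ g : N₁ ≃ₐ[K] N₁, rs K L N (rs K N N₁ g) = rs K L N₁ g) {t : ℕ}
    (ht0 : t ≠ 0)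
    {ι : Type} [DecidableEq ι] (w : ι → Ideal (𝓞 N))
    (hconj : ∀ Q : Ideal (𝓞 N₁), Q.IsPrime → (t : 𝓞 N₁) ∈ Q →
      ∃ (j : ι) (g : N₁ ≃ₐ[K] N₁), dn N (g • Q) = w j) (i : ι) (Y Z : Finset (𝓞 N))
    (hYs : ∀ g : N ≃ₐ[K] N, g • w i = w i → ∀ x ∈ Y, g • x ∈ Y)
    (hY : ∀ y ∈ Y, ∀ y' ∈ Y, ∃ δ : N ≃ₐ[K] N, δ • w i = w i ∧ δ • y = y')
    (hYf : ∀ y ∈ Y, ∃ s : N ≃ₐ[K] N, s • w i = w i ∧ s • y = y ∧
      Subgroup.zpowers (rs K L N s) = ⊤)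
    (hZ : ∀ g : N ≃ₐ[K] N, ∀ z ∈ Z, g • z ∈ Z)
    (hZ2 : ∀ z ∈ Z, ∀ g : N ≃ₐ[K] N, g • z = z ↔ rs K L N g = 1) (c : 𝓞 N)
    (hc : ∀ g : N ≃ₐ[K] N, g • c = c) (m : Multiset (𝓞 N₁))
    (hm : ∀ (g : N₁ ≃ₐ[K] N₁), ∀ x ∈ m, g • x ∈ m)
    (hnear : ∀ (j : ι) (Q : Ideal (𝓞 N₁)), Q.IsPrime → (t : 𝓞 N₁) ∈ Q → dn N Q = w j →
      Near Q (algebraMap (𝓞 N) (𝓞 N₁) c) m
        ((if j = i then Y else Z).image (algebraMap (𝓞 N) (𝓞 N₁)))) {ρ : 𝓞 N₁} (hρ : ρ ∈ m) :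
    ∃ Q₀ : Ideal (𝓞 N₁), (Q₀ = ⊥ ∨ Q₀.IsMaximal) ∧
      (∀ u ∈ stabilizer (N₁ ≃ₐ[K] N₁) ρ, ∃ u' ∈ stabilizer (N₁ ≃ₐ[K] N₁) ρ,
        u' • Q₀ = Q₀ ∧ rs K L N₁ u' = rs K L N₁ u) ∧
      ∀ u ∈ stabilizer (N₁ ≃ₐ[K] N₁) ρ, ∀ Q : Ideal (𝓞 N₁), Q.IsPrime →
      (t : 𝓞 N₁) ∈ Q → u • Q = Q → rs K L N₁ u = 1 ∨
        ∃ v ∈ stabilizer (N₁ ≃ₐ[K] N₁) ρ, Q = v • Q₀ := by
  classical
  have hc' : ∀ g : N₁ ≃ₐ[K] N₁, g • algebraMap (𝓞 N) (𝓞 N₁) c = algebraMap (𝓞 N) (𝓞 N₁) c := by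
    intro g
    rw [← rs_smul, hc]
  have htg : ∀ (g : N₁ ≃ₐ[K] N₁) (Q : Ideal (𝓞 N₁)), (t : 𝓞 N₁) ∈ Q → (t : 𝓞 N₁) ∈ g • Q := by
    intro g Q h
    rw [Ideal.mem_pointwise_smul_iff_inv_smul_mem]
    have h1 : g⁻¹ • (t : 𝓞 N₁) = (t : 𝓞 N₁) :=
      map_natCast (MulSemiringAction.toRingHom (N₁ ≃ₐ[K] N₁) (𝓞 N₁) g⁻¹) t
    rw [h1]
    exact h
  -- non-split primes lie over the prime of index `i`
  have key : ∀ u ∈ stabilizer (N₁ ≃ₐ[K] N₁) ρ, ∀ Q : Ideal (𝓞 N₁), Q.IsPrime →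
      (t : 𝓞 N₁) ∈ Q → u • Q = Q → rs K L N₁ u ≠ 1 → ∃ g : N₁ ≃ₐ[K] N₁, dn N (g • Q) = w i := by
    intro u hu Q hQ ht huQ hne
    obtain ⟨j, g, hg⟩ := hconj Q hQ ht
    by_cases hj : j = i
    · exact ⟨g, by rw [hg, hj]⟩
    · exfalso
      apply hne
      have hp : (g • Q).IsPrime := Ideal.IsPrime.smul g
      have hn := hnear j (g • Q) hp (htg g Q ht) hg
      rw [if_neg hj] at hn
      obtain ⟨x, hx, hx2⟩ := hn.right (g • ρ) (hm g ρ hρ)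
      obtain ⟨z, hz, rfl⟩ := Finset.mem_image.mp hx
      have h1 := (hn.fix_iff (g * u * g⁻¹) (by
        rw [mul_smul, mul_smul, inv_smul_smul, huQ]) (hc' _) (hm _) (by
          intro x hx
          obtain ⟨z', hz', rfl⟩ := Finset.mem_image.mp hx
          rw [← rs_smul]
          exact Finset.mem_image_of_mem _ (hZ _ z' hz')) (hm g ρ hρ) hx hx2).mp (by
            rw [mul_smul, mul_smul, inv_smul_smul]
            rw [mem_stabilizer_iff.mp hu])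
      rw [← rs_smul] at h1
      have h2 := (hZ2 z hz _).mp (algMap_inj h1)
      rw [hres, map_mul, map_mul, map_inv] at h2
      have h3 : rs K L N₁ g * rs K L N₁ u = rs K L N₁ g := by
        rwa [mul_inv_eq_one] at h2
      exact mul_eq_left.mp h3
  by_cases hex : ∃ u₁ ∈ stabilizer (N₁ ≃ₐ[K] N₁) ρ, ∃ Q₁ : Ideal (𝓞 N₁), Q₁.IsPrime ∧
      (t : 𝓞 N₁) ∈ Q₁ ∧ u₁ • Q₁ = Q₁ ∧ rs K L N₁ u₁ ≠ 1
  · obtain ⟨u₁, hu₁, Q₁, hQ₁, ht₁, hu₁Q, hne₁⟩ := hex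
    obtain ⟨g₁, hg₁⟩ := key u₁ hu₁ Q₁ hQ₁ ht₁ hu₁Q hne₁
    have hp₁ : (g₁ • Q₁).IsPrime := Ideal.IsPrime.smul g₁
    have hn₁ := hnear i (g₁ • Q₁) hp₁ (htg g₁ Q₁ ht₁) hg₁
    rw [if_pos rfl] at hn₁
    refine ⟨Q₁, Or.inr (isMaximal_of ht0 hQ₁ ht₁), ?_, fun u hu Q hQ ht huQ => ?_⟩
    · -- the decomposition group is everything
      obtain ⟨x, hx, hx2⟩ := hn₁.right (g₁ • ρ) (hm g₁ ρ hρ)
      obtain ⟨y, hy, rfl⟩ := Finset.mem_image.mp hx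
      obtain ⟨s, hs, hsy, hsf⟩ := hYf y hy
      obtain ⟨s₁, hs₁, hs₁Q⟩ := lift_stab (K := K) (N := N) hp₁ (g := s) (by rw [hg₁, hs])
      have h1 : s₁ • (g₁ • ρ) = g₁ • ρ := by
        refine (hn₁.fix_iff s₁ hs₁Q (hc' _) (hm _) ?_ (hm g₁ ρ hρ) hx hx2).mpr ?_
        · intro x hx
          obtain ⟨z', hz', rfl⟩ := Finset.mem_image.mp hx
          rw [← rs_smul]
          exact Finset.mem_image_of_mem _ (hYs _ (by rw [hs₁]; exact hs) z' hz')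
        · rw [← rs_smul, hs₁, hsy]
      have hs₁f : Subgroup.zpowers (rs K L N₁ s₁) = ⊤ := by
        rw [← hres, hs₁]
        exact hsf
      intro u hu
      have h2 : rs K L N₁ (g₁ * u * g₁⁻¹) ∈ Subgroup.zpowers (rs K L N₁ s₁) := by
        rw [hs₁f]
        exact Subgroup.mem_top _
      obtain ⟨k, hk⟩ := Subgroup.mem_zpowers_iff.mp h2
      have h3 : s₁ ^ k ∈ stabilizer (N₁ ≃ₐ[K] N₁) (g₁ • Q₁) :=
        zpow_mem (K := stabilizer (N₁ ≃ₐ[K] N₁) (g₁ • Q₁)) hs₁Q k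
      have h4 : s₁ ^ k ∈ stabilizer (N₁ ≃ₐ[K] N₁) (g₁ • ρ) :=
        zpow_mem (K := stabilizer (N₁ ≃ₐ[K] N₁) (g₁ • ρ)) h1 k
      refine ⟨g₁⁻¹ * s₁ ^ k * g₁, ?_, ?_, ?_⟩
      · rw [mem_stabilizer_iff, mul_smul, mul_smul, mem_stabilizer_iff.mp h4, inv_smul_smul]
      · rw [mul_smul, mul_smul, mem_stabilizer_iff.mp h3, inv_smul_smul]
      · rw [map_mul, map_mul, map_zpow, hk]
        simp only [map_mul, map_inv]
        group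
    by_cases hne : rs K L N₁ u = 1
    · left; exact hne
    right
    obtain ⟨g, hg⟩ := key u hu Q hQ ht huQ hne
    have hp : (g • Q).IsPrime := Ideal.IsPrime.smul g
    obtain ⟨τ, hτ⟩ := exists_conj_of (K := K) (g₁ • Q₁) (g • Q) hp₁ hp (by
      rw [← dn_dn (N := N), ← dn_dn (N := N) (g • Q), hg₁, hg])
    let g₂ := τ * g₁
    have hg₂ : g₂ • Q₁ = g • Q := by rw [hτ, mul_smul]
    have hn := hnear i (g • Q) hp (htg g Q ht) hg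
    rw [if_pos rfl] at hn
    obtain ⟨x, hx, hx2⟩ := hn.right (g • ρ) (hm g ρ hρ)
    obtain ⟨y, hy, rfl⟩ := Finset.mem_image.mp hx
    obtain ⟨x', hx', hx2'⟩ := hn.right (g₂ • ρ) (hm g₂ ρ hρ)
    obtain ⟨y', hy', rfl⟩ := Finset.mem_image.mp hx'
    obtain ⟨δ, hδ, hδy⟩ := hY y' hy' y hy
    obtain ⟨δ', hδ'1, hδ'2⟩ := lift_stab (K := K) (N := N) hp (g := δ) (by rw [hg, hδ])
    have h1 := hx2'.smul δ' (hc' δ')
    rw [hδ'2, smul_sub, ← rs_smul, hδ'1, hδy] at h1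
    have h2 := hn.uniq_left _ hx _ (hm δ' _ (hm g₂ ρ hρ)) _ (hm g ρ hρ) h1 hx2
    refine ⟨g⁻¹ * δ' * g₂, ?_, ?_⟩
    · rw [mem_stabilizer_iff, mul_smul, mul_smul, h2, inv_smul_smul]
    · rw [mul_smul, mul_smul, hg₂, hδ'2, inv_smul_smul]
  · push Not at hex
    exact ⟨⊥, Or.inl rfl, fun u hu => ⟨u, hu, smul_bot' u, rfl⟩,
      fun u hu Q hQ ht huQ => Or.inl (hex u hu Q hQ ht huQ)⟩

open Classical in
/-- fixed points in the set of translates -/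
lemma cnt_Z {Z : Finset (𝓞 N)}
    (hZ2 : ∀ z ∈ Z, ∀ g : N ≃ₐ[K] N, g • z = z ↔ rs K L N g = 1) (s : N ≃ₐ[K] N) :
    cnt Z s = if rs K L N s = 1 then (Z.card : ℂ) else 0 := by
  unfold cnt
  by_cases h : rs K L N s = 1
  · rw [if_pos h, Finset.filter_true_of_mem (fun z hz => (hZ2 z hz s).mpr h)]
  · rw [if_neg h, Finset.filter_false_of_mem (fun z hz h1 => h ((hZ2 z hz s).mp h1))]
    simp

end one

lemma PP_comp {G H : Type} [Group G] [Group H] (π : H →* G) {φ : G → ℂ} (h : φ ∈ PP G) :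
    (fun g => φ (π g)) ∈ PP H := by
  let Φ : (G → ℂ) →+ (H → ℂ) := AddMonoidHom.mk' (fun φ g => φ (π g)) (fun a b => rfl)
  have h1 : PP G ≤ (PP H).comap Φ := by
    rw [PP, AddSubgroup.closure_le]
    rintro _ ⟨X, _, _, rfl⟩
    exact AddSubgroup.subset_closure ⟨X, MulAction.compHom X π, inferInstance, rfl⟩
  exact h1 h

/-- a prime over a given prime -/
lemma exists_over (K N : Type) [Field K] [NumberField K] [Field N] [NumberField N] [Algebra K N]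
    (P : Ideal (𝓞 K)) (hP : P.IsMaximal) : ∃ Q : Ideal (𝓞 N), Q.IsPrime ∧ dn K Q = P := by
  obtain ⟨Q, hQ, hQP⟩ := Ideal.exists_ideal_over_maximal_of_isIntegral (S := 𝓞 N) P (by
    have hinj : Function.Injective (algebraMap (𝓞 K) (𝓞 N)) :=
      FaithfulSMul.algebraMap_injective _ _
    rw [(RingHom.injective_iff_ker_eq_bot _).mp hinj]
    exact bot_le)
  exact ⟨Q, hQ.isPrime, hQP⟩

end Pool.Agent.K4H36.ST
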