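import Mathlib
import Pool.Agent.K4H36.ST.BigA
import Pool.Agent.K4H36.ST.MainB

/-!
# Large decomposition groups
-/

set_option autoImplicit false
set_option linter.unusedSectionVars false

namespace Pool.Agent.K4H36.ST

open NumberField
open scoped Pointwise
open MulAction Polynomial

section fields

variable {K N : Type} [Field K] [NumberField K] [Field N] [NumberField N] [Algebra K N]
  [IsGalois K N]

lemma card_stab (w : Ideal (𝓞 N)) [hw : w.IsPrime] (hw0 : w ≠ ⊥) :
    Nat.card (stabilizer (N ≃ₐ[K] N) w) = w.ramificationIdx (𝓞 K) * w.inertiaDeg (𝓞 K) := by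
  let p : Ideal (𝓞 K) := w.under (𝓞 K)
  have hl : w.LiesOver p := ⟨rfl⟩
  have hp : p.IsPrime := Ideal.IsPrime.comap _
  have hp0 : p ≠ ⊥ := by
    intro h
    apply hw0
    have hinj : Function.Injective (algebraMap (𝓞 K) (𝓞 N)) := FaithfulSMul.algebraMap_injective _ _
    exact Ideal.eq_bot_of_comap_eq_bot (R := 𝓞 K) h
  have hmax : p.IsMaximal := hp.isMaximal hp0
  have hf : Finite (𝓞 K ⧸ p) := Ideal.finiteQuotientOfFreeOfNeBot p hp0
  have hf2 : Finite p.ResidueField :=
    Finite.of_surjective _ (Ideal.bijective_algebraMap_quotient_residueField p).2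
  have hperf : PerfectField p.ResidueField := inferInstance
  rw [Ideal.card_stabilizer_eq p w, Ideal.ramificationIdxIn_eq_ramificationIdx p w (N ≃ₐ[K] N),
    Ideal.inertiaDegIn_eq_inertiaDeg p w (N ≃ₐ[K] N)]

/-- the order of a decomposition group over a subfield -/
lemma card_stab_sub (H : Subgroup (N ≃ₐ[K] N)) (w : Ideal (𝓞 N)) :
    Nat.card (stabilizer (N ≃ₐ[IntermediateField.fixedField H] N) w)
      = Nat.card (stabilizer (N ≃ₐ[K] N) w ⊓ H : Subgroup (N ≃ₐ[K] N)) := by
  have hfin : FiniteDimensional K N := Module.Finite.of_restrictScalars_finite ℚ K N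
  let E := IntermediateField.fixedField H
  let e : H ≃* (N ≃ₐ[E] N) := IntermediateField.subgroupEquivAlgEquiv H
  have he : ∀ (h : H) (Q : Ideal (𝓞 N)), (e h) • Q = (h : N ≃ₐ[K] N) • Q := by
    intro h Q
    ext x
    exact Ideal.mem_pointwise_smul_iff_inv_smul_mem.trans
      (Iff.trans Iff.rfl Ideal.mem_pointwise_smul_iff_inv_smul_mem.symm)
  refine Nat.card_congr ⟨fun x => ⟨(e.symm x.1 : H), ?_, (e.symm x.1).2⟩,
    fun x => ⟨e ⟨x.1, x.2.2⟩, ?_⟩, ?_, ?_⟩
  · change ((e.symm x.1 : H) : N ≃ₐ[K] N) • w = w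
    rw [← he, MulEquiv.apply_symm_apply]
    exact x.2
  · rw [mem_stabilizer_iff, he]
    exact x.2.1
  · intro x
    apply Subtype.ext
    change e (e.symm x.1) = x.1
    exact e.apply_symm_apply _
  · intro x
    apply Subtype.ext
    change ((e.symm (e ⟨x.1, x.2.2⟩) : H) : N ≃ₐ[K] N) = x.1
    rw [MulEquiv.symm_apply_apply]

/-- divisibility of the index of a decomposition group -/
lemma index_dvd {t q : ℕ} (ht : t ≠ 0) {π : 𝓞 K} (hπ : ∀ j : PT K t, π ∈ j.1 ∧ π ∉ j.1 ^ 2)
    {g : (𝓞 K)[X]} (hg : g.Monic) (hgd : g.natDegree = q)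
    (hgi : ∀ j : PT K t, Irreducible (g.map (Ideal.Quotient.mk j.1))) {α β : 𝓞 N}
    (hα : α ^ q = algebraMap (𝓞 K) (𝓞 N) π) (hβ : aeval β g = 0) (H : Subgroup (N ≃ₐ[K] N))
    (hH : ∀ h ∈ H, h • α = α ∧ h • β = β) (w : Ideal (𝓞 N)) (hw : w.IsPrime)
    (htw : (t : 𝓞 N) ∈ w) :
    q * q * Nat.card (stabilizer (N ≃ₐ[K] N) w ⊓ H : Subgroup (N ≃ₐ[K] N))
      ∣ Nat.card (stabilizer (N ≃ₐ[K] N) w) := by
  classical
  have hfin : FiniteDimensional K N := Module.Finite.of_restrictScalars_finite ℚ K N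
  have hw0 : w ≠ ⊥ := ne_bot_of ht htw
  let E := IntermediateField.fixedField H
  let P : Ideal (𝓞 E) := w.under (𝓞 E)
  let p : Ideal (𝓞 K) := w.under (𝓞 K)
  have hl1 : w.LiesOver P := ⟨rfl⟩
  have hl2 : w.LiesOver p := ⟨rfl⟩
  have hl3 : P.LiesOver p := Ideal.LiesOver.tower_bot w P p
  have hp : p.IsPrime := Ideal.IsPrime.comap _
  have hP : P.IsPrime := Ideal.IsPrime.comap _
  have htp : (t : 𝓞 K) ∈ p := by
    change algebraMap (𝓞 K) (𝓞 N) (t : 𝓞 K) ∈ w
    rw [map_natCast]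
    exact htw
  have hp0 : p ≠ ⊥ := ne_bot_of ht htp
  let j : PT K t := ⟨p, hp, htp⟩
  -- the elements of `E`
  have hmem : ∀ x : 𝓞 N, (∀ h ∈ H, h • x = x) → ∃ y : 𝓞 E, algebraMap (𝓞 E) (𝓞 N) y = x := by
    intro x hx
    have hxE : (x : N) ∈ E := by
      rintro ⟨h, hh⟩
      exact congrArg (algebraMap (𝓞 N) N) (hx h hh)
    have hyi : IsIntegral ℤ (⟨(x : N), hxE⟩ : E) := by
      have h4 : Function.Injective (algebraMap E N) := (algebraMap E N).injective
      rw [← isIntegral_algebraMap_iff (R := ℤ) h4]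
      exact RingOfIntegers.isIntegral_coe x
    exact ⟨⟨⟨(x : N), hxE⟩, hyi⟩, RingOfIntegers.coe_injective rfl⟩
  obtain ⟨a, ha⟩ := hmem α (fun h hh => (hH h hh).1)
  obtain ⟨b, hb⟩ := hmem β (fun h hh => (hH h hh).2)
  have hinj : Function.Injective (algebraMap (𝓞 E) (𝓞 N)) := FaithfulSMul.algebraMap_injective _ _
  have ha2 : a ^ q = algebraMap (𝓞 K) (𝓞 E) π := by
    apply hinj
    rw [map_pow, ha, hα]
    rfl
  have hb2 : aeval b g = 0 := by
    apply hinj
    rw [map_zero, ← hβ, ← hb, aeval_algebraMap_apply]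
  have h1 : q ∣ P.ramificationIdx (𝓞 K) := dvd_ram (p := p) hp0 (hπ j).1 (hπ j).2 ha2
  have h2 : q ∣ P.inertiaDeg (𝓞 K) := by
    rw [← hgd]
    exact dvd_inert (p := p) hp0 hg (hgi j) hb2
  have h3 := card_stab (K := K) w hw0
  have h4 := card_stab (K := E) w hw0
  rw [card_stab_sub] at h4
  rw [Ideal.ramificationIdx_tower (R := 𝓞 K) P w, Ideal.inertiaDeg_tower (R := 𝓞 K) P w] at h3
  rw [h3, h4]
  obtain ⟨r, hr⟩ := h1
  obtain ⟨s, hs⟩ := h2
  rw [hr, hs]
  exact ⟨r * s, by ring⟩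

/-- an element of `l`-power order, raised to the power `q`, fixes the roots -/
lemma pow_fix {R G : Type} [CommRing R] [IsDomain R] [Group G] [MulSemiringAction G R] {l a : ℕ}
    (hl : l.Prime) (f : R[X]) (hf : f ≠ 0) (hfd : f.natDegree ≤ l ^ a) {x : G}
    (hfx : ∀ k, x • f.coeff k = f.coeff k) {s : ℕ} (hx : orderOf x = l ^ s) {r : R}
    (hr : f.eval r = 0) : x ^ (l ^ a) • r = r := by
  classical
  have hroot : ∀ y : R, f.eval y = 0 → f.eval (x • y) = 0 := by
    intro y hy
    have h1 : f.map (MulSemiringAction.toRingHom G R x) = f := by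
      ext k
      rw [coeff_map]
      exact hfx k
    have h3 : (MulSemiringAction.toRingHom G R x) y = x • y := rfl
    rw [← h1, ← h3, eval_map, eval₂_hom, hy, map_zero]
  have hpow : ∀ k : ℕ, f.eval (x ^ k • r) = 0 := by
    intro k
    induction k with
    | zero => rw [pow_zero, one_smul]; exact hr
    | succ k ih => rw [pow_succ', mul_smul]; exact hroot _ ih
  have hd := period_dvd_orderOf x r
  rw [hx, Nat.dvd_prime_pow hl] at hd
  obtain ⟨u, -, hu⟩ := hd
  have hle : period x r ≤ l ^ a := by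
    have h1 : (Finset.range (period x r)).card ≤ f.roots.toFinset.card := by
      apply Finset.card_le_card_of_injOn (fun k => x ^ k • r)
      · intro k _
        simp only [Finset.mem_coe, Multiset.mem_toFinset, mem_roots hf, IsRoot.def]
        exact hpow k
      · intro i hi k hk hik
        simp only [Finset.coe_range, Set.mem_Iio] at hi hk
        wlog h : i ≤ k generalizing i k
        · exact (this hik.symm hk hi (le_of_not_ge h)).symm
        have h2 : x ^ (k - i) • r = r := by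
          have h3 : x ^ k • r = x ^ i • (x ^ (k - i) • r) := by
            rw [← mul_smul, ← pow_add, Nat.add_sub_cancel' h]
          simp only at hik
          rw [h3] at hik
          exact (MulAction.injective (x ^ i) hik).symm
        have h4 : period x r ∣ k - i := pow_smul_eq_iff_period_dvd.mp h2
        have h5 : k - i = 0 := Nat.eq_zero_of_dvd_of_lt h4 (by omega)
        omega
    rw [Finset.card_range] at h1
    exact h1.trans ((Multiset.toFinset_card_le _).trans ((card_roots' f).trans hfd))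
  have hdvd : period x r ∣ l ^ a := by
    rw [hu] at hle ⊢
    exact pow_dvd_pow l ((Nat.pow_le_pow_iff_right hl.one_lt).mp hle)
  exact pow_smul_eq_iff_period_dvd.mpr hdvd

end fields

/-- the arithmetic of the orders -/
lemma order_arith {G : Type} [Group G] [Finite G] (D : Subgroup G) (n : ℕ) (hn : n ≠ 0)
    (hyp : ∀ l a : ℕ, l.Prime → l ^ a ∣ n → a ≠ 0 → (∀ b, l ^ b ∣ n → b ≤ a) →
      ∃ H : Subgroup G, l ^ a * l ^ a * Nat.card (D ⊓ H : Subgroup G) ∣ Nat.card D ∧
        ∀ x ∈ D, (∃ s, orderOf x = l ^ s) → x ^ (l ^ a) ∈ H) (x : G) (hx : x ∈ D) :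
    n * orderOf x ∣ Nat.card D := by
  have hD : Nat.card D ≠ 0 := Nat.card_pos.ne'
  have hox : orderOf x ≠ 0 := (orderOf_pos x).ne'
  have hoD : orderOf x ∣ Nat.card D := by
    have := orderOf_dvd_natCard (⟨x, hx⟩ : D)
    rwa [Subgroup.orderOf_mk] at this
  rw [← Nat.factorization_le_iff_dvd (mul_ne_zero hn hox) hD, Nat.factorization_mul hn hox]
  intro l
  rw [Finsupp.add_apply]
  by_cases hl : l.Prime
  swap
  · rw [Nat.factorization_eq_zero_of_not_prime _ hl, Nat.factorization_eq_zero_of_not_prime _ hl,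
      Nat.factorization_eq_zero_of_not_prime _ hl]
  by_cases ha : n.factorization l = 0
  · rw [ha, zero_add]
    exact (Nat.factorization_le_iff_dvd hox hD).mpr hoD l
  let a := n.factorization l
  let s := (orderOf x).factorization l
  obtain ⟨H, hH1, hH2⟩ := hyp l a hl (Nat.ordProj_dvd n l) ha (fun b hb =>
    (hl.pow_dvd_iff_le_factorization hn).mp hb)
  -- the `l`-part of `x`
  obtain ⟨o', ho'⟩ := Nat.ordProj_dvd (orderOf x) l
  have ho'0 : o' ≠ 0 := by
    rintro rfl
    rw [mul_zero] at ho'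
    exact hox ho'
  let y := x ^ o'
  have hy : orderOf y = l ^ s := by
    change orderOf (x ^ o') = _
    rw [orderOf_pow' x ho'0]
    have h1 : (orderOf x).gcd o' = o' := Nat.gcd_eq_right ⟨_, by rw [mul_comm]; exact ho'⟩
    rw [h1]
    conv_lhs => rw [ho']
    exact Nat.mul_div_cancel _ (Nat.pos_of_ne_zero ho'0)
  have hyD : y ∈ D := pow_mem hx o'
  have h1 := hH2 y hyD ⟨s, hy⟩
  have h2 : orderOf (y ^ (l ^ a)) ∣ Nat.card (D ⊓ H : Subgroup G) := by
    let z : (D ⊓ H : Subgroup G) := ⟨y ^ (l ^ a), Subgroup.mem_inf.mpr ⟨pow_mem hyD _, h1⟩⟩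
    have h5 := orderOf_dvd_natCard z
    rw [← Subgroup.orderOf_coe z] at h5
    exact h5
  have h3 : orderOf y ∣ l ^ a * orderOf (y ^ (l ^ a)) := by
    rw [orderOf_dvd_iff_pow_eq_one, pow_mul, pow_orderOf_eq_one]
  have h4 : l ^ (a + s) ∣ Nat.card D := by
    rw [pow_add, ← hy]
    calc l ^ a * orderOf y ∣ l ^ a * (l ^ a * orderOf (y ^ (l ^ a))) := mul_dvd_mul_left _ h3
      _ ∣ l ^ a * (l ^ a * Nat.card (D ⊓ H : Subgroup G)) :=
        mul_dvd_mul_left _ (mul_dvd_mul_left _ h2)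
      _ = l ^ a * l ^ a * Nat.card (D ⊓ H : Subgroup G) := by ring
      _ ∣ Nat.card D := hH1
  exact (hl.pow_dvd_iff_le_factorization hD).mp h4

/-- **Existence of extensions with large decomposition groups.** -/
theorem exists_big (K L : Type) [Field K] [NumberField K] [Field L] [NumberField L] [Algebra K L]
    [IsGalois K L] (n t : ℕ) (hn : n ≠ 0) (ht : t ≠ 0) :
    ∃ (N : Type) (_ : Field N) (_ : NumberField N) (_ : Algebra K N) (_ : Algebra L N)
      (_ : IsScalarTower K L N) (_ : IsGalois K N), Big K N n t := by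
  classical
  obtain ⟨π, hπ⟩ := exists_pi K ht
  have hg := fun q : ℕ => fun hq : q ≠ 0 => exists_g K ht q hq
  choose g hg1 hg2 hg3 using hg
  let gq : ℕ → (𝓞 K)[X] := fun q => if hq : q ≠ 0 then g q hq else 1
  have hgq1 : ∀ q, (gq q).Monic := by
    intro q
    by_cases hq : q ≠ 0
    · simp only [gq, dif_pos hq]; exact hg1 q hq
    · simp only [gq, dif_neg hq]; exact monic_one
  let toL : (𝓞 K)[X] → L[X] := fun f => f.map ((algebraMap (𝓞 L) L).comp (algebraMap (𝓞 K) (𝓞 L)))
  let fq : ℕ → (𝓞 K)[X] := fun q => if q ≠ 0 then Polynomial.X ^ q - C π else 1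
  have hfq1 : ∀ q, (fq q).Monic := by
    intro q
    by_cases hq : q ≠ 0
    · simp only [fq, if_pos hq]; exact monic_X_pow_sub_C π hq
    · simp only [fq, if_neg hq]; exact monic_one
  obtain ⟨N, i1, i2, i3, i4, i5, i6, hN⟩ := exists_split K L
    ((Finset.range (n + 1)).image (fun q => toL (fq q)) ∪
      (Finset.range (n + 1)).image (fun q => toL (gq q))) (by
      intro p hp
      rcases Finset.mem_union.mp hp with h | h
      · obtain ⟨q, -, rfl⟩ := Finset.mem_image.mp h
        exact ((hfq1 q).map _).ne_zero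
      · obtain ⟨q, -, rfl⟩ := Finset.mem_image.mp h
        exact ((hgq1 q).map _).ne_zero)
  refine ⟨N, i1, i2, i3, i4, i5, i6, ?_⟩
  have hfin : FiniteDimensional K N := Module.Finite.of_restrictScalars_finite ℚ K N
  have hcomp : (algebraMap L N).comp ((algebraMap (𝓞 L) L).comp (algebraMap (𝓞 K) (𝓞 L)))
      = (algebraMap (𝓞 N) N).comp (algebraMap (𝓞 K) (𝓞 N)) := by
    ext x
    change algebraMap L N (algebraMap K L (x : K)) = algebraMap K N (x : K)
    rw [← IsScalarTower.algebraMap_apply K L N]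
  -- roots
  have hroot : ∀ f : (𝓞 K)[X], f.Monic → f.natDegree ≠ 0 → ((toL f).map (algebraMap L N)).Splits →
      ∃ r : 𝓞 N, (f.map (algebraMap (𝓞 K) (𝓞 N))).eval r = 0 := by
    intro f hf hfd hs
    obtain ⟨m, hm⟩ := exists_roots (f.map (algebraMap (𝓞 K) (𝓞 N))) (hf.map _) (by
      rw [Polynomial.map_map] at hs ⊢
      rw [hcomp] at hs
      exact hs)
    have hcard : Multiset.card m = f.natDegree := by
      have := congrArg natDegree hm
      rw [hf.natDegree_map, natDegree_multiset_prod_X_sub_C_eq_card] at this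
      exact this.symm
    obtain ⟨r, hr⟩ := Multiset.card_pos_iff_exists_mem.mp (by rw [hcard]; omega)
    refine ⟨r, ?_⟩
    rw [hm, eval_multiset_prod, Multiset.map_map]
    apply Multiset.prod_eq_zero
    rw [Multiset.mem_map]
    exact ⟨r, hr, by simp⟩
  intro w hw htw x hx
  refine order_arith (stabilizer (N ≃ₐ[K] N) w) n hn ?_ x hx
  intro l a hl hla ha hmaxa
  have hq0 : l ^ a ≠ 0 := pow_ne_zero _ hl.ne_zero
  have hqn : l ^ a ∈ Finset.range (n + 1) := by
    rw [Finset.mem_range]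
    have := Nat.le_of_dvd (Nat.pos_of_ne_zero hn) hla
    omega
  have hf1 : fq (l ^ a) = Polynomial.X ^ (l ^ a) - C π := by simp only [fq, if_pos hq0]
  have hg1' : gq (l ^ a) = g (l ^ a) hq0 := by simp only [gq, dif_pos hq0]
  have hfd : (fq (l ^ a)).natDegree = l ^ a := by
    rw [hf1]
    exact natDegree_X_pow_sub_C
  have hgd : (gq (l ^ a)).natDegree = l ^ a := by
    rw [hg1']
    exact hg2 _ _
  obtain ⟨α, hα⟩ := hroot (fq (l ^ a)) (hfq1 _) (by rw [hfd]; exact hq0)
    (hN _ (Finset.mem_union_left _ (Finset.mem_image_of_mem _ hqn)))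
  obtain ⟨β, hβ⟩ := hroot (gq (l ^ a)) (hgq1 _) (by rw [hgd]; exact hq0)
    (hN _ (Finset.mem_union_right _ (Finset.mem_image_of_mem _ hqn)))
  refine ⟨stabilizer (N ≃ₐ[K] N) α ⊓ stabilizer (N ≃ₐ[K] N) β, ?_, ?_⟩
  · refine index_dvd ht hπ (hgq1 (l ^ a)) hgd (fun j => by rw [hg1']; exact hg3 _ _ j) (α := α)
      (β := β) ?_ ?_ _ (fun h hh => ⟨(Subgroup.mem_inf.mp hh).1, (Subgroup.mem_inf.mp hh).2⟩) w hw
      htw
    · rw [hf1] at hα
      simp only [Polynomial.map_sub, Polynomial.map_pow, map_X, map_C, eval_sub, eval_pow, eval_X,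
        eval_C] at hα
      exact sub_eq_zero.mp hα
    · rw [eval_map] at hβ
      exact hβ
  · rintro y - ⟨s, hs⟩
    have hcoef : ∀ (f : (𝓞 K)[X]) (k : ℕ), y • (f.map (algebraMap (𝓞 K) (𝓞 N))).coeff k
        = (f.map (algebraMap (𝓞 K) (𝓞 N))).coeff k := by
      intro f k
      rw [coeff_map]
      apply RingOfIntegers.coe_injective
      exact y.commutes _
    refine Subgroup.mem_inf.mpr ⟨?_, ?_⟩
    · exact pow_fix hl _ ((hfq1 (l ^ a)).map _).ne_zero
        (by rw [(hfq1 (l ^ a)).natDegree_map, hfd]) (hcoef _) hs hα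
    · exact pow_fix hl _ ((hgq1 (l ^ a)).map _).ne_zero
        (by rw [(hgq1 (l ^ a)).natDegree_map, hgd]) (hcoef _) hs hβ

end Pool.Agent.K4H36.ST
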