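import Mathlib
import Pool.Agent.K4H36.ST.MainB
import Pool.Agent.K4H36.ST.BigB

/-!
# Inductive invariants which are trivial on the extensions with one non-split prime
-/

set_option autoImplicit false
set_option linter.unusedSectionVars false

namespace Pool.Agent.K4H36.ST

open NumberField Pool.Agent.R389 Pool.Agent.K4H74.ST Pool.Agent.K4H77.SL
open scoped Pointwise

section tf

variable {M : Type} [CommGroup M] {A : ArtinInvariant M} {m : ℕ}

/-- the induction step -/
theorem val_step (hm : m ≠ 0) (hA : TrivOnePrime A m)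
    (htf : ∀ (x : M) (n : ℕ), n ≠ 0 → x ^ n = 1 → x = 1)
    (K L : Type) [Field K] [NumberField K] [Field L] [NumberField L] [Algebra K L] [IsGalois K L]
    (hK : IsTotallyComplex K) (hS : Small A (Nat.card (L ≃ₐ[K] L))) (ψ : (L ≃ₐ[K] L) →* ℂˣ) :
    A.val K L (lc ψ) = 1 := by
  classical
  have hfinL : FiniteDimensional K L := Module.Finite.of_restrictScalars_finite ℚ K L
  by_cases hn1 : Nat.card (L ≃ₐ[K] L) = 1
  · have h1 : Subsingleton (L ≃ₐ[K] L) := (Nat.card_eq_one_iff_unique.mp hn1).1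
    refine hA.lin K L hK ⊥ (fun P _ _ g _ => Subsingleton.elim g 1)
      (fun P _ _ _ g _ => Subsingleton.elim g 1) (fun P _ _ g => ?_) ψ
    rw [Subsingleton.elim g 1]
    intro x
    rw [gi_one]
  obtain ⟨m₁, hm₁, hram⟩ := exists_ram K L
  have ht : m * m₁ ≠ 0 := mul_ne_zero hm hm₁
  have hsp : ∀ P : Ideal (𝓞 L), Special K m P → ((m * m₁ : ℕ) : 𝓞 L) ∈ P := by
    intro P hP
    rw [Nat.cast_mul]
    rcases hP with h | h
    · exact P.mul_mem_right _ h
    · exact P.mul_mem_left _ (hram P h)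
  obtain ⟨N, i1, i2, i3, i4, i5, i6, hBig⟩ := exists_big K L (Nat.card (L ≃ₐ[K] L)) (m * m₁)
    Nat.card_pos.ne' ht
  have hfin : FiniteDimensional K N := Module.Finite.of_restrictScalars_finite ℚ K N
  let f : (N ≃ₐ[K] N) → ℂ := fun g => lc ψ (rs K L N g)
  have hf : ∀ g x, f (x * g * x⁻¹) = f g := fun g x => lc_class ψ (rs K L N) g x
  have hEE : ∀ c : N ≃ₐ[K] N, EE f (Subgroup.zpowers c) ∈ TT A (K := K) (L := N) ⊥ := by
    intro c
    refine EE_mem hf _ _ fun B hB => ?_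
    have hBc : IsCyclic B := by
      have h1 : IsCyclic (Subgroup.zpowers c) := inferInstance
      exact isCyclic_of_injective (Subgroup.inclusion hB) (Subgroup.inclusion_injective hB)
    obtain ⟨⟨b, hb⟩, hgen⟩ := hBc.exists_generator
    have hBb : B = Subgroup.zpowers b := by
      apply le_antisymm
      · intro y hy
        obtain ⟨k, hk⟩ := hgen ⟨y, hy⟩
        exact ⟨k, congrArg Subtype.val hk⟩
      · rw [Subgroup.zpowers_le]
        exact hb
    subst hBb
    exact main_cyc hA htf hK hS hn1 ψ ht hsp hBig b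
  obtain ⟨v, hv, h1⟩ := artin hf _ hEE
  rw [Subgroup.mem_bot] at hv
  subst hv
  have h2 : Val A K N f (A.val K L (lc ψ)) := by
    have h3 := Val.of_char A (K := K) (L := N) (IsChar.comp (IsChar.lc ψ) (rs K L N))
    have h4 := A.val_infl K L N (lc ψ) (IsChar.lc ψ)
    rw [← h4]
    exact h3
  have h5 := (Val.nsmul A h2 (Nat.card (N ≃ₐ[K] N))).unique A h1
  exact htf _ _ Nat.card_pos.ne' h5

/-- linear characters over totally complex fields -/
theorem small_all (hm : m ≠ 0) (hA : TrivOnePrime A m)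
    (htf : ∀ (x : M) (n : ℕ), n ≠ 0 → x ^ n = 1 → x = 1) (n : ℕ) : Small A n := by
  induction n with
  | zero =>
    intro K L _ _ _ _ _ _ _ h
    exact absurd h (Nat.not_lt_zero _)
  | succ n ih =>
    intro K L _ _ _ _ _ _ hK h ψ
    rcases Nat.lt_or_ge (Nat.card (L ≃ₐ[K] L)) n with h1 | h1
    · exact ih K L hK h1 ψ
    · have h2 : Nat.card (L ≃ₐ[K] L) = n := by omega
      exact val_step hm hA htf K L hK (by rw [h2]; exact ih) ψ

/-- the totally complex fields -/
theorem triv_complex (hm : m ≠ 0) (hA : TrivOnePrime A m)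
    (htf : ∀ (x : M) (n : ℕ), n ≠ 0 → x ^ n = 1 → x = 1) : TrivComplex A := by
  intro K L _ _ _ _ _ _ hK ψ _
  exact small_all hm hA htf _ K L hK (Nat.lt_succ_self _) ψ

/-- all characters -/
theorem triv_all (hm : m ≠ 0) (hone : TrivOne A) (hA : TrivOnePrime A m)
    (htf : ∀ (x : M) (n : ℕ), n ≠ 0 → x ^ n = 1 → x = 1)
    (K L : Type) [Field K] [NumberField K] [Field L] [NumberField L] [Algebra K L] [IsGalois K L]
    (χ : (L ≃ₐ[K] L) → ℂ) (hχ : IsChar χ) : A.val K L χ = 1 :=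
  htf _ 2 two_ne_zero (main_sq A hone (triv_complex hm hA htf) K L χ hχ)

end tf

section gen

variable {M : Type} [CommGroup M]

/-- the invariant modulo torsion -/
def ArtinInvariant.modTorsion (A : ArtinInvariant M) :
    ArtinInvariant (M ⧸ CommGroup.torsion M) where
  val K L _ _ _ _ _ _ χ := (A.val K L χ : M ⧸ CommGroup.torsion M)
  val_add K L _ _ _ _ _ _ χ χ' hχ hχ' := by
    rw [A.val_add K L χ χ' hχ hχ']
    rfl
  val_infl K L N _ _ _ _ _ _ _ _ _ _ _ _ χ hχ := by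
    rw [A.val_infl K L N χ hχ]
  val_ind K F L _ _ _ _ _ _ _ _ _ _ _ _ χ hχ := by
    rw [A.val_ind K F L χ hχ]

lemma mk_eq_one {x : M} : (x : M ⧸ CommGroup.torsion M) = 1 ↔ IsOfFinOrder x := by
  rw [QuotientGroup.eq_one_iff]
  rfl

lemma quot_tf (x : M ⧸ CommGroup.torsion M) (n : ℕ) (hn : n ≠ 0) (h : x ^ n = 1) : x = 1 := by
  obtain ⟨y, rfl⟩ := QuotientGroup.mk_surjective x
  rw [← QuotientGroup.mk_pow, mk_eq_one] at h
  rw [mk_eq_one]
  exact (isOfFinOrder_pow (n := n)).mp h |>.resolve_right hn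

/-- **The main theorem.** -/
theorem main_fin (A : ArtinInvariant M) {m : ℕ} (hm : m ≠ 0)
    (hone : ∀ (K : Type) [Field K] [NumberField K], IsOfFinOrder (A.val K K (fun _ => 1)))
    (hA : ∀ (K L : Type) [Field K] [NumberField K] [Field L] [NumberField L] [Algebra K L]
      [IsGalois K L], IsTotallyComplex K → ∀ v : Ideal (𝓞 K),
      (∀ P : Ideal (𝓞 L), P.IsMaximal → P.comap (algebraMap (𝓞 K) (𝓞 L)) ≠ v →
        ∀ g ∈ inertia K P, g = 1) →
      (∀ P : Ideal (𝓞 L), P.IsMaximal → P.comap (algebraMap (𝓞 K) (𝓞 L)) ≠ v → (m : 𝓞 L) ∈ P →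
        ∀ g ∈ decomp K P, g = 1) →
      (∀ P : Ideal (𝓞 L), P.IsMaximal → P.comap (algebraMap (𝓞 K) (𝓞 L)) = v →
        ∀ g, g ∈ decomp K P) →
      ∀ ψ : (L ≃ₐ[K] L) →* ℂˣ, Function.Injective ψ → IsOfFinOrder (A.val K L (lc ψ)))
    (K L : Type) [Field K] [NumberField K] [Field L] [NumberField L] [Algebra K L] [IsGalois K L]
    (χ : (L ≃ₐ[K] L) → ℂ) (hχ : IsChar χ) : IsOfFinOrder (A.val K L χ) := by
  rw [← mk_eq_one]
  refine triv_all (A := ArtinInvariant.modTorsion A) hm ?_ ?_ quot_tf K L χ hχ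
  · intro K _ _
    exact mk_eq_one.mpr (hone K)
  · intro K L _ _ _ _ _ _ hK v h1 h2 h3 ψ hψ
    exact mk_eq_one.mpr (hA K L hK v h1 h2 h3 ψ hψ)

end gen

end Pool.Agent.K4H36.ST
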